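import Pool.Agent.Helper23.DM.Cra
set_option autoImplicit false
open Polynomial
namespace Pool.Agent.Helper23.DM

/-!
DM-ALG (`F(j) ⊂ k(x, y)`, and `x`, `y` algebraically independent over `k`).

(1) `base_frac`: every element `e` of `F(j)` is a fraction of polynomials in `x, y`, by the same
formula for all generators `w`. Proof: the set of such `e` is a subfield of `F(j)` (if `e ≠ 0`,
`ev w p = e * ev w s ≠ 0`; common denominators), which contains `k`, `T` (`ev_NT`, `ev_MM_ne`) and
`j` (`ev_j`; `ev w (ND n) ≠ 0` by `ev_ND`, `DD_ne_zero`). Every element of `F = k(T)` is a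
quotient of polynomials in `T`, and every element of `F(j)` is a quotient of polynomials in `j`
with coefficients in `F`.
(2) `ev_inj`: `T`, `j` are algebraically independent over `k` and algebraic (even rational) over
`k(x, y)`, so the transcendence degree of `k(x, y)` is `≥ 2` and `x, y` are algebraically
independent over `k` (if not, one of them is algebraic over the field generated by the other, and
`k(x,y)` has transcendence degree `≤ 1`). Mathlib: `AlgebraicIndependent`,
`exists_isTranscendenceBasis_subset`/`_between`, `IsTranscendenceBasis.cardinalMk_eq`,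
`Algebra.trdeg`, `AlgebraicIndependent.cardinalMk_le_trdeg`.
-/

variable {k : Type} [Field k] [Fintype k]

/-- The elements which are fractions of polynomials in `x`, `y`. -/
private def Fr26 (n : k[X]) (e : RatFunc (RatFunc k)) : Prop :=
  ∃ p s : MvPolynomial (Fin 2) k, ∀ w : Om k, IsGen n w →
    ev w s ≠ 0 ∧ algebraMap (RatFunc (RatFunc k)) (Om k) e * ev w s = ev w p

private theorem fr_add26 {n : k[X]} {e f : RatFunc (RatFunc k)} (he : Fr26 n e) (hf : Fr26 n f) :
    Fr26 n (e + f) := by
  obtain ⟨p, s, h1⟩ := he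
  obtain ⟨p', s', h2⟩ := hf
  refine ⟨p * s' + p' * s, s * s', fun w hw => ?_⟩
  obtain ⟨a1, a2⟩ := h1 w hw
  obtain ⟨b1, b2⟩ := h2 w hw
  refine ⟨by rw [map_mul]; exact mul_ne_zero a1 b1, ?_⟩
  rw [map_add, map_add, map_mul, map_mul, map_mul, ← a2, ← b2]
  ring

private theorem fr_mul26 {n : k[X]} {e f : RatFunc (RatFunc k)} (he : Fr26 n e) (hf : Fr26 n f) :
    Fr26 n (e * f) := by
  obtain ⟨p, s, h1⟩ := he
  obtain ⟨p', s', h2⟩ := hf
  refine ⟨p * p', s * s', fun w hw => ?_⟩
  obtain ⟨a1, a2⟩ := h1 w hw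
  obtain ⟨b1, b2⟩ := h2 w hw
  refine ⟨by rw [map_mul]; exact mul_ne_zero a1 b1, ?_⟩
  rw [map_mul, map_mul, map_mul, ← a2, ← b2]
  ring

private theorem fr_C26 (n : k[X]) (c : k) : Fr26 n (algebraMap k (RatFunc (RatFunc k)) c) := by
  refine ⟨MvPolynomial.C c, 1, fun w _ => ⟨by rw [map_one]; exact one_ne_zero, ?_⟩⟩
  rw [map_one, mul_one, ev_C, IsScalarTower.algebraMap_apply k (RatFunc (RatFunc k)) (Om k)]

private theorem fr_inv26 {n : k[X]} {e : RatFunc (RatFunc k)} (he : Fr26 n e) : Fr26 n e⁻¹ := by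
  by_cases h0 : e = 0
  · rw [h0, inv_zero]
    have := fr_C26 n 0
    rwa [map_zero] at this
  · obtain ⟨p, s, h1⟩ := he
    refine ⟨s, p, fun w hw => ?_⟩
    obtain ⟨a1, a2⟩ := h1 w hw
    have h2 : algebraMap (RatFunc (RatFunc k)) (Om k) e ≠ 0 := by
      rwa [Ne, map_eq_zero]
    refine ⟨by rw [← a2]; exact mul_ne_zero h2 a1, ?_⟩
    rw [← a2, map_inv₀, ← mul_assoc, inv_mul_cancel₀ h2, one_mul]

private theorem fr_pow26 {n : k[X]} {e : RatFunc (RatFunc k)} (he : Fr26 n e) (m : ℕ) :
    Fr26 n (e ^ m) := by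
  induction m with
  | zero =>
    have := fr_C26 n 1
    rwa [map_one] at this
  | succ m ih =>
    rw [pow_succ]
    exact fr_mul26 ih he

private theorem fr_T26 {n : k[X]} (hn : n.Monic) (hn3 : n.natDegree = 3) :
    Fr26 n (algebraMap (RatFunc k) (RatFunc (RatFunc k)) RatFunc.X) := by
  refine ⟨NT n, MM k, fun w hw => ⟨ev_MM_ne hw hn hn3, ?_⟩⟩
  rw [ev_NT hw hn hn3, mul_comm]
  congr 1

private theorem fr_j26 {n : k[X]} (hn : n.Monic) (hn3 : n.natDegree = 3) :
    Fr26 n (RatFunc.X : RatFunc (RatFunc k)) := by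
  refine ⟨NG n ^ (Fintype.card k + 1), MM k ^ Fintype.card k * ND n, fun w hw => ⟨?_, ?_⟩⟩
  · have hw0 : w ≠ 0 := gen_ne_zero hw (by omega)
    rw [map_mul, map_pow, ev_ND hw hn hn3]
    have h1 := ev_MM_ne hw hn hn3
    exact mul_ne_zero (pow_ne_zero _ h1) (mul_ne_zero h1 (DD_ne_zero hw0))
  · rw [← ev_j hw hn hn3, mul_comm]
    rfl

private theorem fr_F26 {n : k[X]} (hn : n.Monic) (hn3 : n.natDegree = 3) (c : RatFunc k) :
    Fr26 n (algebraMap (RatFunc k) (RatFunc (RatFunc k)) c) := by
  have hp : ∀ f : k[X], Fr26 n (algebraMap (RatFunc k) (RatFunc (RatFunc k))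
      (algebraMap k[X] (RatFunc k) f)) := by
    intro f
    induction f using Polynomial.induction_on' with
    | add f g hf hg =>
      rw [map_add, map_add]
      exact fr_add26 hf hg
    | monomial m a =>
      rw [← C_mul_X_pow_eq_monomial, map_mul, map_mul, map_pow, map_pow, RatFunc.algebraMap_X,
        RatFunc.algebraMap_C, ← RatFunc.algebraMap_eq_C,
        ← IsScalarTower.algebraMap_apply k (RatFunc k) (RatFunc (RatFunc k))]
      exact fr_mul26 (fr_C26 n a) (fr_pow26 (fr_T26 hn hn3) m)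
  rw [← RatFunc.num_div_denom c, map_div₀, div_eq_mul_inv]
  exact fr_mul26 (hp _) (fr_inv26 (hp _))

private theorem fr_all26 {n : k[X]} (hn : n.Monic) (hn3 : n.natDegree = 3)
    (e : RatFunc (RatFunc k)) : Fr26 n e := by
  have hp : ∀ f : (RatFunc k)[X], Fr26 n (algebraMap (RatFunc k)[X] (RatFunc (RatFunc k)) f) := by
    intro f
    induction f using Polynomial.induction_on' with
    | add f g hf hg =>
      rw [map_add]
      exact fr_add26 hf hg
    | monomial m a =>
      rw [← C_mul_X_pow_eq_monomial, map_mul, map_pow, RatFunc.algebraMap_X,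
        RatFunc.algebraMap_C, ← RatFunc.algebraMap_eq_C]
      exact fr_mul26 (fr_F26 hn hn3 a) (fr_pow26 (fr_j26 hn hn3) m)
  rw [← RatFunc.num_div_denom e, div_eq_mul_inv]
  exact fr_mul26 (hp _) (fr_inv26 (hp _))

omit [Fintype k] in
private theorem trdeg26 : 2 ≤ Algebra.trdeg k (Om k) := by
  have h1 : 0 < Algebra.trdeg k (RatFunc k) := trdeg_pos k (RatFunc k)
  have i1 : Algebra.Transcendental (RatFunc k) (Om k) := by
    refine ⟨jj k, ?_⟩
    unfold jj
    rw [transcendental_algebraMap_iff (algebraMap (RatFunc (RatFunc k)) (Om k)).injective]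
    exact RatFunc.transcendental_X
  have h2 : 0 < Algebra.trdeg (RatFunc k) (Om k) := trdeg_pos (RatFunc k) (Om k)
  have h3 := trdeg_add_le (R := k) (S := RatFunc k) (A := Om k)
  refine le_trans ?_ h3
  rw [← one_add_one_eq_two]
  exact add_le_add (Cardinal.one_le_iff_pos.2 h1) (Cardinal.one_le_iff_pos.2 h2)

theorem base_frac {n : k[X]} (hn : n.Monic) (hn3 : n.natDegree = 3)
    (e : RatFunc (RatFunc k)) : ∃ p s : MvPolynomial (Fin 2) k, ∀ w : Om k, IsGen n w →
      ev w s ≠ 0 ∧ algebraMap (RatFunc (RatFunc k)) (Om k) e * ev w s = ev w p := by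
  exact fr_all26 hn hn3 e

theorem ev_inj {n : k[X]} {w : Om k} (h : IsGen n w) (hn : n.Monic) (hn3 : n.natDegree = 3) :
    Function.Injective (ev w) := by
  open scoped IntermediateField.algebraAdjoinAdjoin in
  have halg : Algebra.IsAlgebraic (Algebra.adjoin k (Set.range ![ee w X, ee w (X ^ 2)])) (Om k) := by
    set L : IntermediateField k (Om k) :=
      IntermediateField.adjoin k (Set.range ![ee w X, ee w (X ^ 2)]) with hL
    have hmem : ∀ p : MvPolynomial (Fin 2) k, ev w p ∈ L := by
      intro p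
      induction p using MvPolynomial.induction_on with
      | C a =>
        rw [ev_C]
        exact L.algebraMap_mem a
      | add p q hp hq =>
        rw [map_add]
        exact L.add_mem hp hq
      | mul_X p i hp =>
        rw [map_mul]
        refine L.mul_mem hp (IntermediateField.subset_adjoin k _ ⟨i, ?_⟩)
        simp [ev]
    have hF : ∀ e : RatFunc (RatFunc k), algebraMap (RatFunc (RatFunc k)) (Om k) e ∈ L := by
      intro e
      obtain ⟨p, s, h1⟩ := base_frac hn hn3 e
      obtain ⟨a1, a2⟩ := h1 w h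
      rw [← eq_div_iff a1] at a2
      rw [a2]
      exact L.div_mem (hmem p) (hmem s)
    let φ : RatFunc (RatFunc k) →+* L :=
      (algebraMap (RatFunc (RatFunc k)) (Om k)).codRestrict L.toSubfield.toSubring hF
    have hφ : (algebraMap L (Om k)).comp φ = algebraMap (RatFunc (RatFunc k)) (Om k) := rfl
    have h1 : Algebra.IsAlgebraic L (Om k) := by
      refine ⟨fun z => ?_⟩
      obtain ⟨P, hP, hz⟩ := (Algebra.IsAlgebraic.isAlgebraic (R := RatFunc (RatFunc k)) z)
      refine ⟨P.map φ, (Polynomial.map_ne_zero_iff φ.injective).2 hP, ?_⟩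
      rw [aeval_def, eval₂_map, hφ, ← aeval_def]
      exact hz
    exact (IsFractionRing.comap_isAlgebraic_iff (A := Algebra.adjoin k (Set.range ![ee w X, ee w (X ^ 2)]))
      (K := L) (C := Om k)).2 h1
  have h2 := Algebra.IsAlgebraic.isTranscendenceBasis_of_le_trdeg_of_finite k
    ![ee w X, ee w (X ^ 2)] (by
      rw [Cardinal.mk_fin]
      exact trdeg26)
  exact h2.1

end Pool.Agent.Helper23.DM
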