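import Mathlib
set_option autoImplicit false
open Polynomial
namespace Pool.Agent.Helper23.DM

/-!
DM-DES (descent of principality; only Mathlib). `Ω` a field, `O` a subring, `K ⊂ L` subfields,
`B = O ∩ K`, `B' = O ∩ L`, `B'` integral over `B` and principal; `S` a set of automorphisms of
`Ω`, trivial on `K`, preserving `O` and `L`; if `f ∈ B'`, `f ≠ 0` and `σ(f)/f` is a unit of `B'` for
all `σ ∈ S`, then `u f ∈ K` for a unit `u` of `B'`. Then `B` is principal.

Proof. By `IsPrincipalIdealRing.of_prime_ne_bot` it is enough to see that each nonzero prime `P` of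
`B` is principal. `B'` is an integral extension of `B`. Let `P B' = (f)` (the ideal generated by
`P`), `f ≠ 0`. For `σ ∈ S`, `σ(P B') = P B'` (as `σ` is the identity on `B` and an automorphism of
`B'`), so `(σ f) = (f)` and `σ(f)/f` is a unit of `B'`. So there is a unit `u` of `B'` with
`g = u f ∈ K ∩ O = B`, `P B' = g B'`. `P` is maximal or just prime: `P B' ∩ B = P` by lying over
(`Ideal.exists_ideal_over_prime_of_isIntegral` or `Ideal.comap_map_eq_self...`), and
`g B' ∩ B = g B` since `b' = (g b')/g ∈ O ∩ K` if `g b' ∈ B`. So `P = g B`.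
-/

theorem descent {W : Type*} [Field W] (O : Subring W) (K L : Subfield W) (hKL : K ≤ L)
    (hint : ∀ z, z ∈ O → z ∈ L → ∃ f : Polynomial W, f.Monic ∧
      (∀ i, f.coeff i ∈ O ∧ f.coeff i ∈ K) ∧ f.eval z = 0)
    (hPID : IsPrincipalIdealRing ↥(O ⊓ L.toSubring))
    (S : Set (W ≃+* W)) (hS : ∀ σ ∈ S, ∀ z ∈ K, σ z = z)
    (hSL : ∀ σ ∈ S, ∀ z, z ∈ L → σ z ∈ L ∧ σ.symm z ∈ L)
    (hSO : ∀ σ ∈ S, ∀ z, z ∈ O → σ z ∈ O ∧ σ.symm z ∈ O)
    (hdesc : ∀ f, f ∈ O → f ∈ L → f ≠ 0 → (∀ σ ∈ S, σ f / f ∈ O ∧ f / σ f ∈ O) →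
      ∃ u, u ≠ 0 ∧ u ∈ O ∧ u ∈ L ∧ u⁻¹ ∈ O ∧ u * f ∈ K) :
    IsPrincipalIdealRing ↥(O ⊓ K.toSubring) := by
  obtain ⟨B, hB⟩ : ∃ B : Subring W, B = O ⊓ K.toSubring := ⟨_, rfl⟩
  obtain ⟨B', hB'⟩ : ∃ B' : Subring W, B' = O ⊓ L.toSubring := ⟨_, rfl⟩
  rw [← hB]
  rw [← hB'] at hPID
  have mB : ∀ z, z ∈ B ↔ z ∈ O ∧ z ∈ K := by
    intro z
    rw [hB]
    exact Iff.rfl
  have mB' : ∀ z, z ∈ B' ↔ z ∈ O ∧ z ∈ L := by
    intro z
    rw [hB']
    exact Iff.rfl
  have hle : B ≤ B' := fun z hz => (mB' z).2 ⟨((mB z).1 hz).1, hKL ((mB z).1 hz).2⟩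
  let ι : B →+* B' := Subring.inclusion hle
  let _alg : Algebra B B' := ι.toAlgebra
  have hι : ∀ b : B, ((algebraMap B B' b : B') : W) = b := fun b => rfl
  have hinj : Function.Injective (algebraMap B B') := by
    intro a b h
    apply Subtype.ext
    rw [← hι a, ← hι b, h]
  have hInt : Algebra.IsIntegral B B' := by
    refine ⟨fun z => ?_⟩
    obtain ⟨f, hf, hc, he⟩ := hint z ((mB' z).1 z.2).1 ((mB' z).1 z.2).2
    have hsub : (↑f.coeffs : Set W) ⊆ B := by
      intro c hc'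
      obtain ⟨i, -, rfl⟩ := Polynomial.mem_coeffs_iff.1 hc'
      exact (mB _).2 (hc i)
    refine ⟨f.toSubring B hsub, (Polynomial.monic_toSubring f B hsub).2 hf, ?_⟩
    have h1 : (B'.subtype) (Polynomial.eval₂ (algebraMap B B') z (f.toSubring B hsub)) = 0 := by
      rw [Polynomial.hom_eval₂]
      have h2 : (B'.subtype).comp (algebraMap B B') = B.subtype := rfl
      rw [h2, Polynomial.eval₂_eq_eval_map, Polynomial.map_toSubring]
      exact he
    exact Subtype.ext h1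
  refine IsPrincipalIdealRing.of_prime_ne_bot (fun P hP hP0 => ?_)
  have hker : RingHom.ker (algebraMap B B') = ⊥ := (RingHom.injective_iff_ker_eq_bot _).1 hinj
  obtain ⟨Q, hQ, hQP⟩ := Ideal.exists_ideal_over_prime_of_isIntegral_of_isDomain (S := B') P
    (by rw [hker]; exact bot_le)
  have hcm : (P.map (algebraMap B B')).comap (algebraMap B B') = P :=
    (Ideal.comap_map_eq_self_iff_of_isPrime P).2 ⟨Q, hQ, hQP⟩
  obtain ⟨f, hf⟩ := (hPID.principal (P.map (algebraMap B B'))).principal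
  have hf' : P.map (algebraMap B B') = Ideal.span {f} := hf
  have hf0 : f ≠ 0 := by
    rintro rfl
    apply hP0
    rw [← hcm, hf', Ideal.span_singleton_eq_bot.2 rfl, ← RingHom.ker_eq_comap_bot, hker]
  have hfW : (f : W) ≠ 0 := fun h => hf0 (Subtype.ext h)
  have hfm := (mB' f).1 f.2
  -- automorphisms preserve the extended ideal
  have aut : ∀ τ : W →+* W, (∀ z ∈ B', τ z ∈ B') → (∀ z ∈ K, τ z = z) →
      ∃ c ∈ B', τ (f : W) = c * f := by
    intro τ h1 h2
    let τ' : B' →+* B' := τ.restrict B' B' h1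
    have h3 : τ'.comp (algebraMap B B') = algebraMap B B' := by
      refine RingHom.ext (fun b => Subtype.ext ?_)
      exact h2 b ((mB b).1 b.2).2
    have h4 : τ' f ∈ Ideal.span {f} := by
      have h5 : (P.map (algebraMap B B')).map τ' = P.map (algebraMap B B') := by
        rw [Ideal.map_map, h3]
      rw [← hf', ← h5]
      refine Ideal.mem_map_of_mem τ' ?_
      rw [hf']
      exact Ideal.mem_span_singleton_self f
    obtain ⟨c, hc⟩ := Ideal.mem_span_singleton'.1 h4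
    refine ⟨c, c.2, ?_⟩
    have h6 := congrArg (Subtype.val) hc
    exact h6.symm
  obtain ⟨u, hu0, huO, huL, huO', huK⟩ := hdesc f hfm.1 hfm.2 hfW (by
    intro σ hσ
    have hσ0 : σ (f : W) ≠ 0 := by
      intro h
      exact hfW (by simpa using h)
    obtain ⟨c, hc, hc2⟩ := aut (σ : W →+* W)
      (fun z hz => (mB' _).2 ⟨(hSO σ hσ z ((mB' z).1 hz).1).1, (hSL σ hσ z ((mB' z).1 hz).2).1⟩)
      (fun z hz => hS σ hσ z hz)
    obtain ⟨c', hc', hc2'⟩ := aut (σ.symm : W →+* W)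
      (fun z hz => (mB' _).2 ⟨(hSO σ hσ z ((mB' z).1 hz).1).2, (hSL σ hσ z ((mB' z).1 hz).2).2⟩)
      (fun z hz => by
        have h := hS σ hσ z hz
        have h2 : σ.symm z = z := by
          rw [RingEquiv.symm_apply_eq]
          exact h.symm
        exact h2)
    have k1 : σ (f : W) = c * f := hc2
    have k2 : σ.symm (f : W) = c' * f := hc2'
    have k3 : (f : W) = σ c' * σ f := by
      have h := congrArg σ k2
      rw [RingEquiv.apply_symm_apply, map_mul] at h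
      exact h
    refine ⟨?_, ?_⟩
    · have h : σ (f : W) / f = c := by
        rw [k1]
        field_simp
      rw [h]
      exact ((mB' c).1 hc).1
    · have h : (f : W) / σ f = σ c' := by
        rw [div_eq_iff hσ0]
        exact k3
      rw [h]
      exact (hSO σ hσ c' ((mB' c').1 hc').1).1)
  have hgB : u * (f : W) ∈ B := (mB _).2 ⟨O.mul_mem huO hfm.1, huK⟩
  obtain ⟨g, hg⟩ : ∃ g : B, (g : W) = u * f := ⟨⟨_, hgB⟩, rfl⟩
  have hgW : (g : W) ≠ 0 := by
    rw [hg]
    exact mul_ne_zero hu0 hfW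
  have hgP : g ∈ P := by
    rw [← hcm, Ideal.mem_comap, hf']
    refine Ideal.mem_span_singleton'.2 ⟨⟨u, (mB' u).2 ⟨huO, huL⟩⟩, Subtype.ext ?_⟩
    exact hg.symm
  refine ⟨g, le_antisymm (fun b hb => ?_) ?_⟩
  · have h1 : algebraMap B B' b ∈ P.map (algebraMap B B') := Ideal.mem_map_of_mem _ hb
    rw [hf'] at h1
    obtain ⟨a, ha⟩ := Ideal.mem_span_singleton'.1 h1
    have h2 : (a : W) * f = b := congrArg Subtype.val ha
    have h3 : (b : W) / g = a * u⁻¹ := by
      rw [hg, ← h2]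
      field_simp
    have h4 : (b : W) / g ∈ B := by
      refine (mB _).2 ⟨?_, ?_⟩
      · rw [h3]
        exact O.mul_mem ((mB' a).1 a.2).1 huO'
      · exact K.div_mem ((mB b).1 b.2).2 ((mB g).1 g.2).2
    refine Ideal.mem_span_singleton'.2 ⟨⟨_, h4⟩, Subtype.ext ?_⟩
    exact div_mul_cancel₀ _ hgW
  · exact (Ideal.span_singleton_le_iff_mem P).2 hgP

end Pool.Agent.Helper23.DM
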