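import Pool.Agent.Helper23.DM.Defs
set_option autoImplicit false
open Polynomial
namespace Pool.Agent.Helper23.DM

/-!
DM-DIV (from principality to divisors; only Mathlib and the definition `HasOrd` of Defs.lean).
`K` a field, `B` a principal subring with fraction field `K`. For every finitely supported
function `D` on the valuation subrings of `K` with integer values there is `f ≠ 0` in `K` having
order `D V` at each valuation subring `V ≠ K` containing `B`.

Proof. For such `V` let `P_V = {b ∈ B : |b|_V < 1}`, a prime ideal of `B`, nonzero (otherwise all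
nonzero elements of `B` are units of `V` and `V = K`), so `P_V = (π_V)` with `π_V` prime. Every
element `z ≠ 0` of `K` is `π_V^m a / b` with `a, b ∈ B` not divisible by `π_V`, that is units of
`V`; so `|z|_V = |π_V|^m`, `|z|_V < 1` iff `m ≥ 1` iff `z/π_V ∈ V` (`|π_V|_V < 1`). If
`V ≠ V'` then `P_V ≠ P_V'` (the above shows that `V` is determined by `P_V`: `z ∈ V` iff
`z = a/b`, `a, b ∈ B`, `b ∉ P_V`), and `P_V, P_V'` maximal (nonzero primes of a principal domain),
so `π_V' ∉ P_V` is a unit of `V`. So `f = ∏_{V ∈ D.support, V ⊇ B, V ≠ K} π_V ^ (D V)` works,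
`HasOrd V f (D V)` with `π = π_V`.
-/

section
variable {K : Type*} [Field K] (B : Subring K)

/-- the prime element of `B` attached to `V` -/
theorem dv_prime (hB : IsPrincipalIdealRing B)
    (hfrac : ∀ z : K, ∃ a ∈ B, ∃ b ∈ B, b ≠ 0 ∧ z = a / b) (V : ValuationSubring K)
    (hV : ∀ b ∈ B, b ∈ V) (hT : V ≠ ⊤) :
    ∃ p : B, Prime p ∧ ∀ b : B, V.valuation (b : K) < 1 ↔ p ∣ b := by
  let φ : B →+* V :=
    { toFun := fun b => ⟨b, hV b b.2⟩
      map_one' := rfl
      map_mul' := fun _ _ => rfl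
      map_zero' := rfl
      map_add' := fun _ _ => rfl }
  let P : Ideal B := (IsLocalRing.maximalIdeal V).comap φ
  have hmem : ∀ b : B, b ∈ P ↔ V.valuation (b : K) < 1 := by
    intro b
    rw [Ideal.mem_comap]
    exact (V.valuation_lt_one_iff (φ b))
  have hPp : P.IsPrime := Ideal.comap_isPrime φ _
  have hne : P ≠ ⊥ := by
    intro hbot
    apply hT
    rw [eq_top_iff]
    intro z _
    obtain ⟨a, ha, b, hb, hb0, rfl⟩ := hfrac z
    have hbP : (⟨b, hb⟩ : B) ∉ P := by
      rw [hbot, Ideal.mem_bot]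
      intro h
      exact hb0 (congrArg Subtype.val h)
    rw [hmem, not_lt] at hbP
    have h1 : V.valuation b = 1 :=
      le_antisymm ((V.valuation_le_one_iff b).2 (hV b hb)) hbP
    rw [← V.valuation_le_one_iff, map_div₀, h1, div_one]
    exact (V.valuation_le_one_iff a).2 (hV a ha)
  have hpr : P.IsPrincipal := hB.principal P
  refine ⟨Submodule.IsPrincipal.generator P,
    Submodule.IsPrincipal.prime_generator_of_isPrime P hne, fun b => ?_⟩
  rw [← hmem, Submodule.IsPrincipal.mem_iff_generator_dvd]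

theorem dv_dec (hB : IsPrincipalIdealRing B)
    (hfrac : ∀ z : K, ∃ a ∈ B, ∃ b ∈ B, b ≠ 0 ∧ z = a / b) (p : B) (hp : Prime p)
    (z : K) (hz : z ≠ 0) :
    ∃ m : ℤ, ∃ a b : B, ¬ p ∣ a ∧ ¬ p ∣ b ∧ z = (p : K) ^ m * (a / b : K) := by
  have hp0 : (p : K) ≠ 0 := fun h => hp.ne_zero (Subtype.ext h)
  have key : ∀ c : B, c ≠ 0 → ∃ n : ℕ, ∃ d : B, ¬ p ∣ d ∧ c = p ^ n * d := by
    intro c hc
    have hf : FiniteMultiplicity p c := FiniteMultiplicity.of_not_isUnit hp.not_isUnit hc
    obtain ⟨d, hd, hd'⟩ := hf.exists_eq_pow_mul_and_not_dvd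
    exact ⟨_, d, hd', hd⟩
  obtain ⟨a, ha, b, hb, hb0, rfl⟩ := hfrac z
  have ha0 : a ≠ 0 := fun h => hz (by rw [h, zero_div])
  obtain ⟨n, d, hd, hcd⟩ := key ⟨a, ha⟩ (fun h => ha0 (congrArg Subtype.val h))
  obtain ⟨n', d', hd', hcd'⟩ := key ⟨b, hb⟩ (fun h => hb0 (congrArg Subtype.val h))
  have e1 : a = (p : K) ^ n * (d : K) := congrArg Subtype.val hcd
  have e2 : b = (p : K) ^ n' * (d' : K) := congrArg Subtype.val hcd'
  refine ⟨(n : ℤ) - n', d, d', hd, hd', ?_⟩
  rw [e1, e2, zpow_sub₀ hp0, zpow_natCast, zpow_natCast, mul_div_mul_comm]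

theorem dv_unit (V : ValuationSubring K) (hV : ∀ b ∈ B, b ∈ V) (p : B)
    (h : ∀ b : B, V.valuation (b : K) < 1 ↔ p ∣ b) (b : B) (hb : ¬ p ∣ b) :
    V.valuation (b : K) = 1 := by
  rw [← h, not_lt] at hb
  exact le_antisymm ((V.valuation_le_one_iff _).2 (hV b b.2)) hb

theorem dv_le (hB : IsPrincipalIdealRing B)
    (hfrac : ∀ z : K, ∃ a ∈ B, ∃ b ∈ B, b ≠ 0 ∧ z = a / b) (V W : ValuationSubring K)
    (hV : ∀ b ∈ B, b ∈ V) (hW : ∀ b ∈ B, b ∈ W) (p : B) (hp : Prime p)
    (hpV : ∀ b : B, V.valuation (b : K) < 1 ↔ p ∣ b)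
    (hpW : ∀ b : B, W.valuation (b : K) < 1 ↔ p ∣ b) : V ≤ W := by
  intro z hz
  by_cases hz0 : z = 0
  · rw [hz0]; exact W.zero_mem
  obtain ⟨m, a, b, ha, hb, rfl⟩ := dv_dec B hB hfrac p hp z hz0
  have hp0 : (p : K) ≠ 0 := fun h => hp.ne_zero (Subtype.ext h)
  have hlt : V.valuation (p : K) < 1 := (hpV p).2 dvd_rfl
  have hm : 0 ≤ m := by
    by_contra hneg
    push Not at hneg
    obtain ⟨n, hn⟩ := Int.eq_ofNat_of_zero_le (show 0 ≤ -m by omega)
    have hn1 : n ≠ 0 := by rintro rfl; omega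
    have hm' : m = -(n : ℤ) := by omega
    rw [← V.valuation_le_one_iff, map_mul, map_div₀, dv_unit B V hV p hpV a ha,
      dv_unit B V hV p hpV b hb, div_one, mul_one, hm', zpow_neg, zpow_natCast, map_inv₀,
      map_pow] at hz
    have h1 : (V.valuation (p : K)) ^ n < 1 := pow_lt_one₀ zero_le hlt hn1
    have h0 : 0 < (V.valuation (p : K)) ^ n := by
      apply pow_pos
      rw [zero_lt_iff]
      exact (Valuation.ne_zero_iff _).2 hp0
    have h2 : 1 < ((V.valuation (p : K)) ^ n)⁻¹ := (one_lt_inv₀ h0).2 h1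
    exact absurd hz (not_le.2 h2)
  obtain ⟨n, rfl⟩ := Int.eq_ofNat_of_zero_le hm
  rw [← W.valuation_le_one_iff, map_mul, map_div₀, dv_unit B W hW p hpW a ha,
      dv_unit B W hW p hpW b hb, div_one, mul_one, zpow_natCast, map_pow]
  exact pow_le_one₀ zero_le ((hpW p).2 dvd_rfl).le

end

theorem div_form {K : Type*} [Field K] (B : Subring K) (hB : IsPrincipalIdealRing B)
    (hfrac : ∀ z : K, ∃ a ∈ B, ∃ b ∈ B, b ≠ 0 ∧ z = a / b) (D : ValuationSubring K →₀ ℤ) :
    ∃ f : K, f ≠ 0 ∧ ∀ V : ValuationSubring K, (∀ b ∈ B, b ∈ V) → V ≠ ⊤ →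
      HasOrd V f (D V) := by
  classical
  let G : ValuationSubring K → Prop := fun V => (∀ b ∈ B, b ∈ V) ∧ V ≠ ⊤
  have hex : ∀ V : ValuationSubring K, ∃ p : B, G V →
      (Prime p ∧ ∀ b : B, V.valuation (b : K) < 1 ↔ p ∣ b) := by
    intro V
    by_cases hG : G V
    · obtain ⟨p, h1, h2⟩ := dv_prime B hB hfrac V hG.1 hG.2
      exact ⟨p, fun _ => ⟨h1, h2⟩⟩
    · exact ⟨0, fun h => absurd h hG⟩
  choose p hp using hex
  let S : Finset (ValuationSubring K) := D.support.filter G
  have hne : ∀ V, G V → ((p V : B) : K) ≠ 0 := fun V hG h =>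
    (hp V hG).1.ne_zero (Subtype.ext h)
  have hoth : ∀ V W, G V → G W → V ≠ W → V.valuation ((p W : B) : K) = 1 := by
    intro V W hV hW hVW
    apply dv_unit B V hV.1 (p V) (hp V hV).2
    intro hd
    have hass : Associated (p V) (p W) :=
      (hp V hV).1.irreducible.associated_of_dvd (hp W hW).1.irreducible hd
    have hW' : ∀ b : B, W.valuation (b : K) < 1 ↔ p V ∣ b := by
      intro b
      rw [(hp W hW).2 b]
      exact hass.symm.dvd_iff_dvd_left
    exact hVW (le_antisymm
      (dv_le B hB hfrac V W hV.1 hW.1 (p V) (hp V hV).1 (hp V hV).2 hW')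
      (dv_le B hB hfrac W V hW.1 hV.1 (p V) (hp V hV).1 hW' (hp V hV).2))
  refine ⟨∏ W ∈ S, ((p W : B) : K) ^ (D W), ?_, ?_⟩
  · rw [Finset.prod_ne_zero_iff]
    intro W hW
    exact zpow_ne_zero _ (hne W (Finset.mem_filter.1 hW).2)
  · intro V hVB hVT
    have hG : G V := ⟨hVB, hVT⟩
    have hval : V.valuation (∏ W ∈ S, ((p W : B) : K) ^ (D W)) =
        (V.valuation ((p V : B) : K)) ^ (D V) := by
      rw [map_prod]
      by_cases hVS : V ∈ S
      · rw [Finset.prod_eq_single_of_mem V hVS, map_zpow₀]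
        intro W hW hne'
        rw [map_zpow₀, hoth V W hG (Finset.mem_filter.1 hW).2 hne'.symm, one_zpow]
      · have hD : D V = 0 := by
          by_contra h
          exact hVS (Finset.mem_filter.2 ⟨Finsupp.mem_support_iff.2 h, hG⟩)
        rw [hD, zpow_zero]
        apply Finset.prod_eq_one
        intro W hW
        have hne' : V ≠ W := fun h => hVS (h ▸ hW)
        rw [map_zpow₀, hoth V W hG (Finset.mem_filter.1 hW).2 hne', one_zpow]
    have hv0 : V.valuation ((p V : B) : K) ≠ 0 := (Valuation.ne_zero_iff _).2 (hne V hG)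
    have hlt : V.valuation ((p V : B) : K) < 1 := ((hp V hG).2 _).2 dvd_rfl
    refine ⟨(p V : B), hne V hG, fun z => ?_, ?_⟩
    · by_cases hz : z = 0
      · rw [hz, zero_div, map_zero]
        exact ⟨fun _ => V.zero_mem, fun _ => zero_lt_one⟩
      · obtain ⟨m, a, b, ha, hb, hzz⟩ := dv_dec B hB hfrac (p V) (hp V hG).1 z hz
        have hvz : V.valuation z = (V.valuation ((p V : B) : K)) ^ m := by
          rw [hzz, map_mul, map_div₀, dv_unit B V hVB _ (hp V hG).2 a ha,
            dv_unit B V hVB _ (hp V hG).2 b hb, div_one, mul_one, map_zpow₀]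
        have hpos : 0 < V.valuation ((p V : B) : K) := zero_lt_iff.2 hv0
        rw [← V.valuation_le_one_iff, map_div₀, hvz]
        constructor
        · intro h
          have hm : 1 ≤ m := by
            by_contra hcon
            push Not at hcon
            obtain ⟨n, hn⟩ := Int.eq_ofNat_of_zero_le (show 0 ≤ -m by omega)
            have hm' : m = -(n : ℤ) := by omega
            rw [hm', zpow_neg, zpow_natCast] at h
            have h1 : (V.valuation ((p V : B) : K)) ^ n ≤ 1 := pow_le_one₀ zero_le hlt.le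
            have h2 : 1 ≤ ((V.valuation ((p V : B) : K)) ^ n)⁻¹ :=
              (one_le_inv₀ (pow_pos hpos n)).2 h1
            exact absurd h (not_lt.2 h2)
          obtain ⟨n, hn⟩ := Int.eq_ofNat_of_zero_le (show 0 ≤ m - 1 by omega)
          have hm' : m = (n : ℤ) + 1 := by omega
          rw [hm', zpow_add₀ hv0, zpow_one, mul_div_assoc, div_self hv0, mul_one, zpow_natCast]
          exact pow_le_one₀ zero_le hlt.le
        · intro h
          have hm : 1 ≤ m := by
            by_contra hcon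
            push Not at hcon
            obtain ⟨n, hn⟩ := Int.eq_ofNat_of_zero_le (show 0 ≤ -m by omega)
            have hm' : m = -(n : ℤ) := by omega
            rw [hm', zpow_neg, zpow_natCast, div_eq_mul_inv, ← mul_inv, ← pow_succ] at h
            have h1 : (V.valuation ((p V : B) : K)) ^ (n + 1) < 1 :=
              pow_lt_one₀ zero_le hlt (Nat.succ_ne_zero n)
            have h2 : 1 < ((V.valuation ((p V : B) : K)) ^ (n + 1))⁻¹ :=
              (one_lt_inv₀ (pow_pos hpos _)).2 h1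
            exact absurd h (not_le.2 h2)
          obtain ⟨n, hn⟩ := Int.eq_ofNat_of_zero_le (show 0 ≤ m by omega)
          have hn0 : n ≠ 0 := by omega
          rw [hn]
          show (V.valuation ((p V : B) : K)) ^ ((n : ℕ) : ℤ) < 1
          rw [zpow_natCast]
          exact pow_lt_one₀ zero_le hlt hn0
    · rw [map_div₀, hval, map_zpow₀]
      exact div_self (zpow_ne_zero _ hv0)

end Pool.Agent.Helper23.DM
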