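import Pool.Agent.Helper23.DM.GInv
import Pool.Agent.Helper23.DM.Desc
import Pool.Agent.Helper23.DM.DivF
set_option autoImplicit false
open Polynomial
open scoped Pointwise
namespace Pool.Agent.Helper23.DM

variable {k : Type} [Field k] [Fintype k]

theorem sig_alg (σ : Om k ≃ₐ[RatFunc (RatFunc k)] Om k) (p : (RatFunc k)[X]) :
    σ (algebraMap (RatFunc k)[X] (Om k) p) = algebraMap (RatFunc k)[X] (Om k) p :=
  σ.commutes _

theorem sig_mem_OO (σ : Om k ≃ₐ[RatFunc (RatFunc k)] Om k) (z : Om k) (hz : z ∈ OO k) :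
    σ z ∈ OO k := by
  have h1 : IsIntegral (RatFunc k)[X] z := hz
  obtain ⟨p, hp, hpz⟩ := h1
  refine ⟨p, hp, ?_⟩
  have := Polynomial.hom_eval₂ p (algebraMap (RatFunc k)[X] (Om k)) (σ : Om k →+* Om k) z
  rw [hpz, map_zero] at this
  rw [this]
  congr 1
  ext x
  · exact (sig_alg σ _).symm
  · exact (sig_alg σ _).symm

section
variable {n : k[X]} {w : Om k} (h : IsGen n w) (hn : n.Monic) (hn3 : n.natDegree = 3)
include h hn hn3

theorem ee_mem_LL (b : k[X]) : ee w b ∈ LL w := by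
  rw [← ev_ll h hn hn3]
  exact ev_mem_LL h hn hn3 _

theorem sig_mem_LL (σ : Om k ≃ₐ[RatFunc (RatFunc k)] Om k)
    (hσ : σ ∈ MulAction.stabilizer (Om k ≃ₐ[RatFunc (RatFunc k)] Om k) (cyc w))
    (z : Om k) (hz : z ∈ LL w) : σ z ∈ LL w := by
  obtain ⟨a, ha, hσa⟩ := (mem_stab_iff h hn.ne_zero σ).1 hσ
  have hev : ∀ p : MvPolynomial (Fin 2) k, σ (ev w p) ∈ LL w := by
    intro p
    induction p using MvPolynomial.induction_on with
    | C c =>
      rw [ev_C, sig_algk, ← ev_C w]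
      exact ev_mem_LL h hn hn3 _
    | add p q hp hq => rw [map_add, map_add]; exact (LL w).add_mem hp hq
    | mul_X p i hp =>
      rw [map_mul, map_mul]
      refine (LL w).mul_mem hp ?_
      fin_cases i
      · show σ (ev w (MvPolynomial.X 0)) ∈ _
        rw [ev_X0, sig_ee, hσa, ee_comp]
        exact (LL w).div_mem (ee_mem_LL h hn hn3 _) (ee_mem_LL h hn hn3 _)
      · show σ (ev w (MvPolynomial.X 1)) ∈ _
        rw [ev_X1, sig_ee, hσa, ee_comp]
        exact (LL w).div_mem (ee_mem_LL h hn hn3 _) (ee_mem_LL h hn hn3 _)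
  obtain ⟨p, s, hs, hp⟩ := (mem_LL_iff w z).1 hz
  have hz' : z = ev w p / ev w s := by
    rw [← hp, mul_div_cancel_right₀ _ hs]
  rw [hz', map_div₀]
  exact (LL w).div_mem (hev p) (hev s)

end

theorem pid_sub {n : k[X]} (hnm : n.Monic) (hn3 : n.natDegree = 3)
    {w : Om k} (h : IsGen n w) :
    IsPrincipalIdealRing ↥(OO k ⊓ (K0 w).toSubfield.toSubring) := by
  have halgK : ∀ p : (RatFunc k)[X], algebraMap (RatFunc k)[X] (Om k) p ∈ (K0 w).toSubfield :=
    fun p => (K0 w).algebraMap_mem _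
  refine descent (OO k) (K0 w).toSubfield (LL w) (fun z hz => K0_le h hnm hn3 z hz) ?_
    (BL_pid h hnm hn3)
    {τ | ∃ σ ∈ MulAction.stabilizer (Om k ≃ₐ[RatFunc (RatFunc k)] Om k) (cyc w),
      τ = (σ : Om k ≃ₐ[RatFunc (RatFunc k)] Om k).toRingEquiv} ?_ ?_ ?_ ?_
  · intro z hz _
    obtain ⟨f, hf, hfz⟩ : IsIntegral (RatFunc k)[X] z := hz
    refine ⟨f.map (algebraMap (RatFunc k)[X] (Om k)), hf.map _, ?_, ?_⟩
    · intro i
      rw [coeff_map]
      exact ⟨alg_mem_OO _, halgK _⟩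
    · rw [eval_map]
      exact hfz
  · rintro _ ⟨σ, hσ, rfl⟩ z hz
    exact (IntermediateField.mem_fixedField_iff _ _).1 hz σ hσ
  · rintro _ ⟨σ, hσ, rfl⟩ z hz
    refine ⟨sig_mem_LL h hnm hn3 σ hσ z hz, ?_⟩
    exact sig_mem_LL h hnm hn3 σ⁻¹ (Subgroup.inv_mem _ hσ) z hz
  · rintro _ ⟨σ, hσ, rfl⟩ z hz
    exact ⟨sig_mem_OO σ z hz, sig_mem_OO σ⁻¹ z hz⟩
  · intro f hf hfL hf0 hst
    obtain ⟨p, s, hs, hp⟩ := BL_frac h hnm hn3 f hf hfL
    have hp0 : p ≠ 0 := by
      rintro rfl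
      rw [map_zero] at hp
      exact (mul_ne_zero hf0 hs.1) hp
    obtain ⟨u, r, hpr, hu, hr, hrp⟩ := exists_good h hnm hn3 p hp0
    have hr0 : ev w r ≠ 0 := ev_ne_zero h hnm hn3 r hr
    have hfr : f = ev w u * (ev w s)⁻¹ * ev w r := by
      rw [hpr, map_mul] at hp
      have hs0 := hs.1
      field_simp
      linear_combination hp
    have hfU : IsU (ev w u * (ev w s)⁻¹) := hu.mul hs.inv
    obtain ⟨v, hv, hvL, hvK⟩ := coreG hnm hn3 h r hr hrp (by
      intro σ hσ
      obtain ⟨h1, h2⟩ := hst _ ⟨σ, hσ, rfl⟩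
      have h1' : σ f / f ∈ OO k := h1
      have h2' : f / σ f ∈ OO k := h2
      have hfU2 : IsU (σ (ev w u * (ev w s)⁻¹)) := by
        refine ⟨by rw [Ne, map_eq_zero]; exact hfU.1, sig_mem_OO σ _ hfU.2.1, ?_⟩
        rw [← map_inv₀]
        exact sig_mem_OO σ _ hfU.2.2
      have hff : IsU (σ f / f) := by
        refine ⟨div_ne_zero (by rw [Ne, map_eq_zero]; exact hf0) hf0, h1', ?_⟩
        rw [inv_div]
        exact h2'
      have : σ (ev w r) / ev w r = σ f / f * (ev w u * (ev w s)⁻¹)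
          * (σ (ev w u * (ev w s)⁻¹))⁻¹ := by
        have e1 := hfU2.1
        have e2 := hfU.1
        rw [hfr, map_mul (σ : Om k ≃ₐ[RatFunc (RatFunc k)] Om k) (ev w u * (ev w s)⁻¹) (ev w r)]
        generalize σ (ev w u * (ev w s)⁻¹) = A at *
        generalize ev w u * (ev w s)⁻¹ = B at *
        field_simp
      rw [this]
      exact (hff.mul hfU).mul hfU2.inv)
    have hfL' : (ev w u * (ev w s)⁻¹)⁻¹ ∈ LL w :=
      (LL w).inv_mem ((LL w).mul_mem (ev_mem_LL h hnm hn3 _)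
        ((LL w).inv_mem (ev_mem_LL h hnm hn3 _)))
    refine ⟨v * (ev w u * (ev w s)⁻¹)⁻¹, (hv.mul hfU.inv).1, (hv.mul hfU.inv).2.1,
      (LL w).mul_mem hvL hfL', (hv.mul hfU.inv).2.2, ?_⟩
    have : v * (ev w u * (ev w s)⁻¹)⁻¹ * f = v * ev w r := by
      rw [hfr]
      have e2 := hfU.1
      generalize ev w u * (ev w s)⁻¹ = B at *
      field_simp
    rw [this]
    exact hvK

theorem isInt_iff (w : Om k) (z : K0 w) : IsIntegral (RatFunc k)[X] z ↔ (z : Om k) ∈ OO k := by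
  let f : K0 w →ₐ[(RatFunc k)[X]] Om k :=
    { toRingHom := (K0 w).val.toRingHom
      commutes' := fun _ => rfl }
  have hf : Function.Injective f := Subtype.val_injective
  exact (isIntegral_algHom_iff f hf).symm

theorem pid_int {n : k[X]} (hnm : n.Monic) (hn3 : n.natDegree = 3)
    {w : Om k} (h : IsGen n w) :
    IsPrincipalIdealRing (integralClosure (RatFunc k)[X] (K0 w)) := by
  have h1 := pid_sub hnm hn3 h
  let e : ↥(OO k ⊓ (K0 w).toSubfield.toSubring) →+* integralClosure (RatFunc k)[X] (K0 w) :=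
    { toFun := fun z => ⟨⟨z, z.2.2⟩, (isInt_iff w _).2 z.2.1⟩
      map_one' := rfl
      map_mul' := fun _ _ => rfl
      map_zero' := rfl
      map_add' := fun _ _ => rfl }
  apply IsPrincipalIdealRing.of_surjective e
  intro z
  exact ⟨⟨((z : K0 w) : Om k), ⟨(isInt_iff w _).1 z.2, (z : K0 w).2⟩⟩, rfl⟩

theorem int_mem_V (w : Om k) (V : ValuationSubring (K0 w)) (hV : IsPlace (K0 w) V)
    (hj : algebraMap (RatFunc (RatFunc k)) (K0 w) RatFunc.X ∈ V) (b : K0 w)
    (hb : IsIntegral (RatFunc k)[X] b) : b ∈ V := by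
  have hp : ∀ p : (RatFunc k)[X], algebraMap (RatFunc k)[X] (K0 w) p ∈ V := by
    intro p
    induction p using Polynomial.induction_on' with
    | add p q hp hq => rw [map_add]; exact V.add_mem _ _ hp hq
    | monomial m c =>
      rw [← C_mul_X_pow_eq_monomial, map_mul, map_pow]
      refine V.mul_mem _ _ ?_ ?_
      · have : algebraMap (RatFunc k)[X] (K0 w) (C c) = algebraMap (RatFunc k) (K0 w) c := by
          apply Subtype.val_injective
          exact algF_apply c
        rw [this]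
        exact hV.1 c
      · have : algebraMap (RatFunc k)[X] (K0 w) X
            = algebraMap (RatFunc (RatFunc k)) (K0 w) RatFunc.X := by
          apply Subtype.val_injective
          exact algX_apply
        rw [this]
        exact pow_mem hj _
  obtain ⟨f, hf, hfb⟩ := hb
  have hint : IsIntegral V.toSubring b := by
    refine ⟨f.map ((algebraMap (RatFunc k)[X] (K0 w)).codRestrict V.toSubring hp), hf.map _, ?_⟩
    rw [eval₂_map]
    exact hfb
  have := (IsIntegrallyClosed.isIntegral_iff (R := V) (K := K0 w) (x := b)).1 hint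
  obtain ⟨y, hy⟩ := this
  rw [← hy]
  exact y.2

theorem frac_int (w : Om k) (z : K0 w) : ∃ a ∈ (integralClosure (RatFunc k)[X] (K0 w)).toSubring,
    ∃ b ∈ (integralClosure (RatFunc k)[X] (K0 w)).toSubring, b ≠ 0 ∧ z = a / b := by
  have hinj : Function.Injective (algebraMap (RatFunc k)[X] (K0 w)) := by
    intro p q hpq
    have h1 : algebraMap (RatFunc (RatFunc k)) (Om k) (algebraMap (RatFunc k)[X] (RatFunc (RatFunc k)) p)
      = algebraMap (RatFunc (RatFunc k)) (Om k) (algebraMap (RatFunc k)[X] (RatFunc (RatFunc k)) q) :=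
      congrArg Subtype.val hpq
    exact IsFractionRing.injective (RatFunc k)[X] (RatFunc (RatFunc k))
      ((algebraMap (RatFunc (RatFunc k)) (Om k)).injective h1)
  have hz : IsAlgebraic (RatFunc (RatFunc k)) z := Algebra.IsAlgebraic.isAlgebraic z
  have hz' : IsAlgebraic (RatFunc k)[X] z :=
    (IsFractionRing.isAlgebraic_iff (RatFunc k)[X] (RatFunc (RatFunc k)) (K0 w)).2 hz
  obtain ⟨y, hy0, hy⟩ := hz'.exists_integral_multiple
  refine ⟨y • z, hy, algebraMap (RatFunc k)[X] (K0 w) y, isIntegral_algebraMap, ?_, ?_⟩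
  · intro h0
    exact hy0 (hinj (by rw [h0, map_zero]))
  · rw [Algebra.smul_def, mul_div_cancel_left₀]
    intro h0
    exact hy0 (hinj (by rw [h0, map_zero]))

/-- the main theorem -/
theorem main (n : k[X]) (hnm : n.Monic) (hn3 : n.natDegree = 3)
    (w : Om k) (h : IsGen n w) :
    IsPrincipalIdealRing (integralClosure (RatFunc k)[X] (K0 w)) ∧
    ∀ D : ValuationSubring (K0 w) →₀ ℤ, ∃ f : K0 w, f ≠ 0 ∧
      ∀ V : ValuationSubring (K0 w), IsPlace (K0 w) V →
        algebraMap (RatFunc (RatFunc k)) (K0 w) RatFunc.X ∈ V → HasOrd V f (D V) := by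
  refine ⟨pid_int hnm hn3 h, fun D => ?_⟩
  obtain ⟨f, hf, hfV⟩ := div_form (integralClosure (RatFunc k)[X] (K0 w)).toSubring
    (pid_int hnm hn3 h) (frac_int w) D
  exact ⟨f, hf, fun V hV hj => hfV V (fun b hb => int_mem_V w V hV hj b hb) hV.2⟩

end Pool.Agent.Helper23.DM
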