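import Pool.Agent.Helper23.DM.Alg
set_option autoImplicit false
open Polynomial
open scoped Pointwise
namespace Pool.Agent.Helper23.DM

/-!
DM-AUT (automorphisms). `LL w` is the subfield `k(x, y)` of `Ω`, `x = ee w X`, `y = ee w (X^2)`.

(1) `mem_LL_iff`: `IntermediateField.mem_adjoin_iff_div` or similar.
(2) `exists_sig`: `w, w'` two generators. `ev w` and `ev w'` are injective (`ev_inj`), so
`ev w p / ev w s ↦ ev w' p / ev w' s` is a ring homomorphism `LL w → Ω`; by `base_frac` (same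
formula for all generators) it is the identity on `F(j)`. `Ω` is normal algebraic over `F(j)`, so
it extends to an automorphism `σ` of `Ω` over `F(j)` (`AlgHom.liftNormal`, with `LL w` made an
intermediate field of `Ω / F(j)`; an `F(j)`-endomorphism of an algebraic extension is bijective).
By `ev_NG`, `ev_MM_ne`: `σ (GG w) = GG w'`, that is `σ(w)^(q-1) = w'^(q-1)` (`jj k ≠ 0`), so
`(σ w / w')^q = σ w / w'` and `σ w / w' ∈ k` (the `q` elements of `k` are all the roots of
`X^q - X`).
(3) `K0_le`: if `σ` is an automorphism of `Ω / F(j)` fixing `LL w`, it fixes `GG w` (`ev_NG`), so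
`σ w = c • w` with `c ∈ k` nonzero as in (2), so `σ` maps `cyc w` onto itself, so `σ` is in the
stabiliser and fixes `K0 w`. By Galois theory of `Ω / F(j)`
(`InfiniteGalois.fixedField_fixingSubgroup`), `K0 w ⊂ LL w`.
-/

variable {k : Type} [Field k] [Fintype k]

private lemma fix_h85 {r : Om k} (hr : r ^ Fintype.card k = r) :
    ∃ c : k, algebraMap k (Om k) c = r := by
  classical
  by_contra hcon
  push Not at hcon
  have hf0 : (X ^ Fintype.card k - X : (Om k)[X]) ≠ 0 :=
    FiniteField.X_pow_card_sub_X_ne_zero (Om k) Fintype.one_lt_card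
  have hdeg : (X ^ Fintype.card k - X : (Om k)[X]).natDegree = Fintype.card k :=
    FiniteField.X_pow_card_sub_X_natDegree_eq (Om k) Fintype.one_lt_card
  have hT : insert r (Finset.univ.image (algebraMap k (Om k))) ⊆
      (X ^ Fintype.card k - X : (Om k)[X]).roots.toFinset := by
    intro z hz
    rw [Multiset.mem_toFinset, Polynomial.mem_roots hf0, Polynomial.IsRoot.def]
    rcases Finset.mem_insert.1 hz with rfl | hz
    · simp [hr]
    · obtain ⟨c, -, rfl⟩ := Finset.mem_image.1 hz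
      have h1 : algebraMap k (Om k) c ^ Fintype.card k = algebraMap k (Om k) c := by
        rw [← map_pow, FiniteField.pow_card]
      simp [h1]
  have h2 := Finset.card_le_card hT
  have h3 : (insert r (Finset.univ.image (algebraMap k (Om k)))).card = Fintype.card k + 1 := by
    rw [Finset.card_insert_of_notMem, Finset.card_image_of_injective _ (algebraMap k (Om k)).injective,
      Finset.card_univ]
    intro h
    obtain ⟨c, -, hc⟩ := Finset.mem_image.1 h
    exact hcon c hc
  have h4 := Multiset.toFinset_card_le (X ^ Fintype.card k - X : (Om k)[X]).roots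
  have h5 := Polynomial.card_roots' (X ^ Fintype.card k - X : (Om k)[X])
  omega

private lemma jj_ne_h85 : jj k ≠ 0 := by
  unfold jj
  rw [Ne, map_eq_zero]
  exact RatFunc.X_ne_zero

private lemma scal_h85 {v w : Om k} (hw : w ≠ 0) (h : GG v = GG w) : ∃ c : k, c ≠ 0 ∧ v = c • w := by
  have hq : 1 < Fintype.card k := Fintype.one_lt_card
  have h1 : v ^ (Fintype.card k - 1) = w ^ (Fintype.card k - 1) := mul_left_cancel₀ jj_ne_h85 h
  have hv : v ≠ 0 := by
    rintro rfl
    rw [zero_pow (by omega)] at h1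
    exact hw (pow_eq_zero_iff (by omega) |>.1 h1.symm)
  obtain ⟨c, hc⟩ := fix_h85 (r := v / w) (by
    have h2 : (v / w) ^ (Fintype.card k - 1) = 1 := by
      rw [div_pow, h1, div_self (pow_ne_zero _ hw)]
    calc (v / w) ^ Fintype.card k = (v / w) ^ (Fintype.card k - 1 + 1) := by
          rw [Nat.sub_add_cancel hq.le]
      _ = v / w := by rw [pow_succ, h2, one_mul])
  have hvc : v = c • w := by
    rw [Algebra.smul_def, hc, div_mul_cancel₀ _ hw]
  refine ⟨c, ?_, hvc⟩
  rintro rfl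
  exact hv (by rw [hvc, zero_smul])

/-- the field `k(x, y)` -/
noncomputable def LL (w : Om k) : Subfield (Om k) :=
  (IntermediateField.adjoin k {ee w X, ee w (X ^ 2)}).toSubfield

theorem mem_LL_iff (w z : Om k) : z ∈ LL w ↔ ∃ p s : MvPolynomial (Fin 2) k, ev w s ≠ 0 ∧
    z * ev w s = ev w p := by
  have h1 : ({ee w X, ee w (X ^ 2)} : Set (Om k)) = Set.range ![ee w X, ee w (X ^ 2)] := by
    rw [Matrix.range_cons, Matrix.range_cons, Matrix.range_empty, Set.union_empty]
    rfl
  have h2 : z ∈ LL w ↔ z ∈ IntermediateField.adjoin k (Set.range ![ee w X, ee w (X ^ 2)]) := by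
    rw [← h1]
    exact Iff.rfl
  rw [h2, IntermediateField.mem_adjoin_range_iff]
  constructor
  · rintro ⟨r, s, hz⟩
    have hz' : z = ev w r / ev w s := hz
    by_cases hs : ev w s = 0
    · refine ⟨0, 1, ?_, ?_⟩
      · rw [map_one]
        exact one_ne_zero
      · rw [hz', hs, div_zero, zero_mul, map_zero]
    · exact ⟨r, s, hs, by rw [hz', div_mul_cancel₀ _ hs]⟩
  · rintro ⟨p, s, hs, h⟩
    refine ⟨p, s, ?_⟩
    have h3 : z = ev w p / ev w s := by rw [eq_div_iff hs, h]
    exact h3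

theorem base_mem_LL {n : k[X]} {w : Om k} (h : IsGen n w) (hn : n.Monic) (hn3 : n.natDegree = 3)
    (e : RatFunc (RatFunc k)) : algebraMap (RatFunc (RatFunc k)) (Om k) e ∈ LL w := by
  obtain ⟨p, s, hps⟩ := base_frac hn hn3 e
  exact (mem_LL_iff w _).2 ⟨p, s, (hps w h).1, (hps w h).2⟩

private lemma emb_h85 {n : k[X]} {w w' : Om k} (h : IsGen n w) (h' : IsGen n w') (hn : n.Monic)
    (hn3 : n.natDegree = 3) : ∃ σ : Om k ≃ₐ[RatFunc (RatFunc k)] Om k, ∀ p, σ (ev w p) = ev w' p := by
  have hi : Function.Injective ((ev w : MvPolynomial (Fin 2) k →ₐ[k] Om k) :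
      MvPolynomial (Fin 2) k →+* Om k) := ev_inj h hn hn3
  have hi' : Function.Injective ((ev w' : MvPolynomial (Fin 2) k →ₐ[k] Om k) :
      MvPolynomial (Fin 2) k →+* Om k) := ev_inj h' hn hn3
  let Q := FractionRing (MvPolynomial (Fin 2) k)
  let φ : Q →+* Om k := IsFractionRing.lift hi
  let φ' : Q →+* Om k := IsFractionRing.lift hi'
  have hφ : ∀ p, φ (algebraMap _ Q p) = ev w p := fun p => IsFractionRing.lift_algebraMap hi p
  have hφ' : ∀ p, φ' (algebraMap _ Q p) = ev w' p := fun p => IsFractionRing.lift_algebraMap hi' p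
  let E : IntermediateField (RatFunc (RatFunc k)) (Om k) :=
    (LL w).toIntermediateField (fun e => base_mem_LL h hn hn3 e)
  have hE : ∀ z, z ∈ E ↔ z ∈ LL w := fun z => Iff.rfl
  have hmem : ∀ q : Q, φ q ∈ E := by
    intro q
    obtain ⟨a, b, hb, rfl⟩ := IsFractionRing.div_surjective (A := MvPolynomial (Fin 2) k) q
    rw [hE, mem_LL_iff]
    have hb0 : ev w b ≠ 0 := by
      intro h0
      have h1 : b = 0 := hi (by rw [map_zero]; exact h0)
      exact nonZeroDivisors.ne_zero hb h1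
    refine ⟨a, b, hb0, ?_⟩
    rw [map_div₀, hφ, hφ, div_mul_cancel₀ _ hb0]
  let φE : Q →+* E := φ.codRestrict E hmem
  have hb : Function.Bijective φE := by
    refine ⟨φE.injective, ?_⟩
    rintro ⟨z, hz⟩
    obtain ⟨p, s, hs, hps⟩ := (mem_LL_iff w z).1 ((hE z).1 hz)
    refine ⟨algebraMap _ Q p / algebraMap _ Q s, Subtype.ext ?_⟩
    have h1 : φ (algebraMap _ Q p / algebraMap _ Q s) = z := by
      rw [map_div₀, hφ, hφ, div_eq_iff hs, hps]
    exact h1
  let g : E →+* Om k := φ'.comp ((RingEquiv.ofBijective φE hb).symm : E →+* Q)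
  have hg : ∀ q : Q, g (φE q) = φ' q := by
    intro q
    have h1 : (RingEquiv.ofBijective φE hb).symm (φE q) = q :=
      (RingEquiv.ofBijective φE hb).symm_apply_apply q
    exact congrArg φ' h1
  have hcomm : ∀ e : RatFunc (RatFunc k), g (algebraMap _ E e) = algebraMap _ (Om k) e := by
    intro e
    obtain ⟨p, s, hps⟩ := base_frac hn hn3 e
    have h1 : algebraMap _ E e = φE (algebraMap _ Q p / algebraMap _ Q s) := by
      apply Subtype.ext
      have h2 : φ (algebraMap _ Q p / algebraMap _ Q s) = algebraMap _ (Om k) e := by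
        rw [map_div₀, hφ, hφ, div_eq_iff (hps w h).1, (hps w h).2]
      exact h2.symm
    rw [h1, hg, map_div₀, hφ', hφ', div_eq_iff (hps w' h').1, (hps w' h').2]
  let f : E →ₐ[RatFunc (RatFunc k)] Om k := { g with commutes' := hcomm }
  have hf : ∀ q : Q, f (φE q) = φ' q := hg
  let σ0 : Om k →ₐ[RatFunc (RatFunc k)] Om k := f.liftNormal (Om k)
  have hσ0 : ∀ x : E, σ0 (x : Om k) = f x := fun x => AlgHom.liftNormal_commutes f (Om k) x
  refine ⟨AlgEquiv.ofBijective σ0 (AlgHom.normal_bijective _ _ _ σ0), fun p => ?_⟩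
  rw [AlgEquiv.ofBijective_apply]
  have h1 : ((φE (algebraMap _ Q p) : E) : Om k) = ev w p := hφ p
  rw [← h1, hσ0, hf, hφ']

private lemma sigGG_h85 {n : k[X]} {w w' : Om k} (h : IsGen n w) (h' : IsGen n w') (hn : n.Monic)
    (hn3 : n.natDegree = 3) (σ : Om k ≃ₐ[RatFunc (RatFunc k)] Om k)
    (hσ : ∀ p, σ (ev w p) = ev w' p) : GG (σ w) = GG w' := by
  have h1 : σ (GG w) = GG (σ w) := by
    unfold GG
    rw [map_mul, map_pow]
    congr 1
    exact σ.commutes _
  have h2 := congrArg σ (ev_NG h hn hn3)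
  rw [hσ, map_mul, hσ, h1, ev_NG h' hn hn3] at h2
  exact (mul_left_cancel₀ (ev_MM_ne h' hn hn3) h2).symm

theorem exists_sig {n : k[X]} {w w' : Om k} (h : IsGen n w) (h' : IsGen n w') (hn : n.Monic)
    (hn3 : n.natDegree = 3) : ∃ σ : Om k ≃ₐ[RatFunc (RatFunc k)] Om k, ∃ c : k, c ≠ 0 ∧
      σ w = c • w' := by
  obtain ⟨σ, hσ⟩ := emb_h85 h h' hn hn3
  obtain ⟨c, hc, hc2⟩ := scal_h85 (gen_ne_zero h' (by omega)) (sigGG_h85 h h' hn hn3 σ hσ)
  exact ⟨σ, c, hc, hc2⟩

theorem K0_le {n : k[X]} {w : Om k} (h : IsGen n w) (hn : n.Monic) (hn3 : n.natDegree = 3)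
    (z : Om k) (hz : z ∈ K0 w) : z ∈ LL w := by
  let E : IntermediateField (RatFunc (RatFunc k)) (Om k) :=
    (LL w).toIntermediateField (fun e => base_mem_LL h hn hn3 e)
  have hE : ∀ z, z ∈ E ↔ z ∈ LL w := fun z => Iff.rfl
  rw [← hE, ← InfiniteGalois.fixedField_fixingSubgroup E, IntermediateField.mem_fixedField_iff]
  intro σ hσ
  have hσ1 : ∀ x ∈ E, σ x = x := (IntermediateField.mem_fixingSubgroup_iff E σ).1 hσ
  have hσ2 : ∀ p, σ (ev w p) = ev w p := by
    intro p
    refine hσ1 _ ((hE _).2 ((mem_LL_iff w _).2 ⟨p, 1, ?_, ?_⟩))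
    · rw [map_one]
      exact one_ne_zero
    · rw [map_one, mul_one]
  have hw : w ≠ 0 := gen_ne_zero h (by omega)
  obtain ⟨c, hc, hc2⟩ := scal_h85 hw (sigGG_h85 h h hn hn3 σ hσ2)
  have hst : σ ∈ MulAction.stabilizer (Om k ≃ₐ[RatFunc (RatFunc k)] Om k) (cyc w) := by
    rw [MulAction.mem_stabilizer_iff]
    have key : ∀ a : k[X], σ (aeval (phi k) a w) = aeval (phi k) (C c * a) w := by
      intro a
      rw [aeval_sig, hc2, map_smul, map_mul, Module.End.mul_apply, aeval_C,
        Module.algebraMap_end_apply]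
    apply Set.Subset.antisymm
    · rintro _ ⟨_, ⟨a, rfl⟩, rfl⟩
      exact ⟨C c * a, (key a).symm⟩
    · rintro _ ⟨a, rfl⟩
      refine ⟨aeval (phi k) (C c⁻¹ * a) w, ⟨_, rfl⟩, ?_⟩
      have h1 := key (C c⁻¹ * a)
      rw [← mul_assoc, ← C_mul, mul_inv_cancel₀ hc, C_1, one_mul] at h1
      exact h1
  exact (IntermediateField.mem_fixedField_iff _ _).1 hz σ hst

end Pool.Agent.Helper23.DM
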