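import Mathlib
set_option autoImplicit false
open Polynomial
namespace Pool.Agent.Helper23.DM

/-!
DM-UFD (two lemmas on rings of fractions of factorial rings; only Mathlib).

(1) `pid_of_ufd`. `R` factorial, `R → B` injective, `B` a domain of dimension `≤ 1`, every
`b ∈ B` is of the form `r / s` with `r, s ∈ R` and `s` a unit of `B`. Then `B` is principal.
Proof. By `IsPrincipalIdealRing.of_prime_ne_bot` (every nonzero prime ideal principal suffices).
Let `P ≠ 0` be prime, `b = r/s ∈ P` nonzero, so `r ∈ P`; factor `r` in primes of `R`; some prime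
`π ∣ r` lies in `P`. `(π) ⊂ B` is a prime ideal: if `π ∣ b b'` in `B`, `b = r/s`, `b' = r'/s'`,
`b b' = π r''/s''`, then `π ∣ r r' s''` in `R`, and `π ∤ s''` since `π` is not a unit of `B`; so
`π ∣ r` or `π ∣ r'`. So `(π) ⊂ P` is a nonzero prime ideal, maximal, and `P = (π)`.

(2) `frac_of_int`. `R` factorial, `R → L` injective to a field, `U` a subset of `R` closed under
products, containing `1`, `0 ∉ U`, and divisors of elements of `U` are in `U`. If `z ∈ L` is a
fraction of elements of `R` and a root of a monic polynomial with coefficients of the form `r/s`,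
`s ∈ U`, then `z = r/s` with `s ∈ U`. Proof. `z = a/b` with `a, b` relatively prime (factorial);
clear denominators: `s a^m + r_{m-1} a^(m-1) b + ... + r_0 b^m = 0` with `s ∈ U`, so `b ∣ s a^m`,
`b ∣ s`, `b ∈ U`.
-/

theorem pid_of_ufd {R B : Type*} [CommRing R] [IsDomain R] [UniqueFactorizationMonoid R]
    [CommRing B] [IsDomain B] [Algebra R B] (hinj : Function.Injective (algebraMap R B))
    (hfrac : ∀ b : B, ∃ r s : R, IsUnit (algebraMap R B s) ∧
      b * algebraMap R B s = algebraMap R B r)
    (hdim : Ring.DimensionLEOne B) : IsPrincipalIdealRing B := by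
  refine IsPrincipalIdealRing.of_prime_ne_bot fun P hP hP0 => ?_
  have hQ : (P.comap (algebraMap R B)).IsPrime := Ideal.comap_isPrime _ _
  have hQ0 : P.comap (algebraMap R B) ≠ ⊥ := by
    obtain ⟨b, hb, hb0⟩ := Submodule.exists_mem_ne_zero_of_ne_bot hP0
    obtain ⟨r, s, hs, hrs⟩ := hfrac b
    intro hbot
    have hr : r ∈ P.comap (algebraMap R B) := by
      rw [Ideal.mem_comap, ← hrs]
      exact P.mul_mem_right _ hb
    rw [hbot, Ideal.mem_bot] at hr
    rw [hr, map_zero] at hrs
    rcases mul_eq_zero.1 hrs with h | h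
    · exact hb0 h
    · exact hs.ne_zero h
  obtain ⟨π, hπ, hpr⟩ := hQ.exists_mem_prime_of_ne_bot hQ0
  rw [Ideal.mem_comap] at hπ
  have hπ0 : algebraMap R B π ≠ 0 := by
    intro h
    exact hpr.ne_zero (hinj (by rw [h, map_zero]))
  have hnu : ¬ IsUnit (algebraMap R B π) := fun h => hP.ne_top (P.eq_top_of_isUnit_mem hπ h)
  have hprime : Prime (algebraMap R B π) := by
    refine ⟨hπ0, hnu, fun b b' hdvd => ?_⟩
    obtain ⟨c, hc⟩ := hdvd
    obtain ⟨r, s, hs, hrs⟩ := hfrac b
    obtain ⟨r', s', hs', hrs'⟩ := hfrac b'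
    obtain ⟨u, t, ht, hut⟩ := hfrac c
    have h1 : r * r' * t = π * (u * s * s') := by
      apply hinj
      rw [map_mul, map_mul, map_mul, map_mul, map_mul, ← hrs, ← hrs', ← hut]
      linear_combination (algebraMap R B s) * (algebraMap R B s') * (algebraMap R B t) * hc
    have h2 : π ∣ r * r' * t := ⟨_, h1⟩
    rcases hpr.dvd_or_dvd h2 with h3 | h3
    · rcases hpr.dvd_or_dvd h3 with h4 | h4
      · left
        have h5 : algebraMap R B π ∣ b * algebraMap R B s := by
          rw [hrs]
          exact map_dvd _ h4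
        exact (hs.dvd_mul_right).1 h5
      · right
        have h5 : algebraMap R B π ∣ b' * algebraMap R B s' := by
          rw [hrs']
          exact map_dvd _ h4
        exact (hs'.dvd_mul_right).1 h5
    · exact absurd (isUnit_of_dvd_unit (map_dvd (algebraMap R B) h3) ht) hnu
  have hsp : (Ideal.span {algebraMap R B π}).IsPrime := (Ideal.span_singleton_prime hπ0).2 hprime
  have hsp0 : Ideal.span {algebraMap R B π} ≠ ⊥ := by
    rw [Ne, Ideal.span_singleton_eq_bot]
    exact hπ0
  have hmax : (Ideal.span {algebraMap R B π}).IsMaximal :=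
    Ring.DimensionLEOne.maximalOfPrime hsp0 hsp
  have hle : Ideal.span {algebraMap R B π} ≤ P := by
    rw [Ideal.span_singleton_le_iff_mem]
    exact hπ
  have heq := hmax.eq_of_le hP.ne_top hle
  exact ⟨⟨algebraMap R B π, heq.symm⟩⟩

theorem frac_of_int {R L : Type*} [CommRing R] [IsDomain R] [UniqueFactorizationMonoid R]
    [Field L] [Algebra R L] (hinj : Function.Injective (algebraMap R L)) (U : Set R)
    (h1 : (1 : R) ∈ U) (h0 : (0 : R) ∉ U) (hmul : ∀ a ∈ U, ∀ b ∈ U, a * b ∈ U)
    (hdiv : ∀ a ∈ U, ∀ b, b ∣ a → b ∈ U) (z : L)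
    (hz : ∃ a b : R, b ≠ 0 ∧ z * algebraMap R L b = algebraMap R L a)
    (hint : ∃ f : L[X], f.Monic ∧ f.eval z = 0 ∧
      ∀ i, ∃ r : R, ∃ s ∈ U, f.coeff i * algebraMap R L s = algebraMap R L r) :
    ∃ r : R, ∃ s ∈ U, z * algebraMap R L s = algebraMap R L r := by
  obtain ⟨a, b, hb, hab⟩ := hz
  obtain ⟨f, hf, hfz, hc⟩ := hint
  obtain ⟨a', b', c', hrel, ha', hb'⟩ := UniqueFactorizationMonoid.exists_reduced_factors' a b hb
  have hc0 : c' ≠ 0 := by
    rintro rfl
    rw [zero_mul] at hb'
    exact hb hb'.symm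
  have hcL : algebraMap R L c' ≠ 0 := by
    intro h
    exact hc0 (hinj (by rw [h, map_zero]))
  have hz' : z * algebraMap R L b' = algebraMap R L a' := by
    rw [← ha', ← hb', map_mul, map_mul] at hab
    apply mul_left_cancel₀ hcL
    rw [← hab]
    ring
  choose r s hs hrs using hc
  set m := f.natDegree with hm
  -- common denominator
  set S : R := ∏ i ∈ Finset.range m, s i with hS
  have hSU : S ∈ U := by
    rw [hS]
    refine Finset.prod_induction _ (fun x => x ∈ U) (fun x y hx hy => hmul x hx y hy) h1 ?_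
    intro i _
    exact hs i
  have hcoef : ∀ i ∈ Finset.range m, ∃ q : R, f.coeff i * algebraMap R L S = algebraMap R L q := by
    intro i hi
    refine ⟨r i * ∏ j ∈ (Finset.range m).erase i, s j, ?_⟩
    rw [hS, ← Finset.mul_prod_erase _ _ hi, map_mul, map_mul, ← mul_assoc, hrs i]
  choose! q hq using hcoef
  have hev : f.eval z = z ^ m + ∑ i ∈ Finset.range m, f.coeff i * z ^ i := by
    rw [Polynomial.eval_eq_sum_range, ← hm, Finset.sum_range_succ, add_comm]
    congr 1
    have : f.coeff m = 1 := hf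
    rw [this, one_mul]
  have hkey : algebraMap R L (S * a' ^ m + ∑ i ∈ Finset.range m, q i * a' ^ i * b' ^ (m - i)) = 0 := by
    have h2 : algebraMap R L S * (algebraMap R L b') ^ m * f.eval z = 0 := by rw [hfz, mul_zero]
    rw [hev, mul_add, Finset.mul_sum] at h2
    rw [map_add, map_mul, map_pow, map_sum, ← h2]
    congr 1
    · rw [← hz']
      ring
    · refine Finset.sum_congr rfl fun i hi => ?_
      rw [map_mul, map_mul, map_pow, map_pow, ← hq i hi, ← hz']
      have hle : i ≤ m := (Finset.mem_range.1 hi).le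
      have h3 : (algebraMap R L b') ^ m = (algebraMap R L b') ^ i * (algebraMap R L b') ^ (m - i) := by
        rw [← pow_add, Nat.add_sub_cancel' hle]
      rw [h3]
      ring
  have hkey' : S * a' ^ m + ∑ i ∈ Finset.range m, q i * a' ^ i * b' ^ (m - i) = 0 := by
    apply hinj
    rw [hkey, map_zero]
  have hdvd : b' ∣ S * a' ^ m := by
    have h4 : b' ∣ ∑ i ∈ Finset.range m, q i * a' ^ i * b' ^ (m - i) := by
      refine Finset.dvd_sum fun i hi => ?_
      refine Dvd.dvd.mul_left (dvd_pow_self _ ?_) _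
      have := Finset.mem_range.1 hi
      omega
    have h5 : S * a' ^ m = -∑ i ∈ Finset.range m, q i * a' ^ i * b' ^ (m - i) :=
      eq_neg_of_add_eq_zero_left hkey'
    rw [h5]
    exact (dvd_neg).2 h4
  have hrel' : IsRelPrime b' (a' ^ m) := (hrel.symm).pow_right
  have hbS : b' ∣ S := hrel'.dvd_of_dvd_mul_right hdvd
  exact ⟨a', b', hdiv S hSU b' hbS, hz'⟩

end Pool.Agent.Helper23.DM
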