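import Pool.Agent.Helper23.DM.Hom
import Pool.Agent.Helper23.DM.Ufd
set_option autoImplicit false
open Polynomial
namespace Pool.Agent.Helper23.DM

variable {k : Type} [Field k] [Fintype k]

theorem algF_apply (c : RatFunc k) : algebraMap (RatFunc k)[X] (Om k) (C c)
    = algebraMap (RatFunc k) (Om k) c := by
  show algebraMap (RatFunc (RatFunc k)) (Om k)
    (algebraMap (RatFunc k)[X] (RatFunc (RatFunc k)) (C c)) = _
  rw [RatFunc.algebraMap_C]
  rfl

theorem algX_apply : algebraMap (RatFunc k)[X] (Om k) X = jj k := by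
  show algebraMap (RatFunc (RatFunc k)) (Om k)
    (algebraMap (RatFunc k)[X] (RatFunc (RatFunc k)) X) = _
  rw [RatFunc.algebraMap_X]
  rfl

theorem alg_mem_OO (p : (RatFunc k)[X]) : algebraMap (RatFunc k)[X] (Om k) p ∈ OO k :=
  (integralClosure (RatFunc k)[X] (Om k)).algebraMap_mem p

theorem F_mem_OO (c : RatFunc k) : algebraMap (RatFunc k) (Om k) c ∈ OO k := by
  rw [← algF_apply]
  exact alg_mem_OO _

theorem k_mem_OO (c : k) : algebraMap k (Om k) c ∈ OO k := by
  rw [IsScalarTower.algebraMap_apply k (RatFunc k) (Om k)]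
  exact F_mem_OO _

theorem F_isU (c : RatFunc k) (hc : c ≠ 0) : IsU (algebraMap (RatFunc k) (Om k) c) := by
  refine ⟨by rwa [Ne, map_eq_zero], F_mem_OO c, ?_⟩
  rw [← map_inv₀]
  exact F_mem_OO _

theorem IsU.mul {a b : Om k} (ha : IsU a) (hb : IsU b) : IsU (a * b) := by
  refine ⟨mul_ne_zero ha.1 hb.1, (OO k).mul_mem ha.2.1 hb.2.1, ?_⟩
  rw [mul_inv]
  exact (OO k).mul_mem ha.2.2 hb.2.2

theorem isU_one : IsU (1 : Om k) := ⟨one_ne_zero, (OO k).one_mem, by
  rw [inv_one]; exact (OO k).one_mem⟩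

theorem IsU.inv {a : Om k} (ha : IsU a) : IsU a⁻¹ :=
  ⟨inv_ne_zero ha.1, ha.2.2, by rw [inv_inv]; exact ha.2.1⟩

theorem IsU.pow {a : Om k} (ha : IsU a) (m : ℕ) : IsU (a ^ m) := by
  induction m with
  | zero => rw [pow_zero]; exact isU_one
  | succ m ih => rw [pow_succ]; exact ih.mul ha

theorem IsU.zpow {a : Om k} (ha : IsU a) (m : ℤ) : IsU (a ^ m) := by
  cases m with
  | ofNat m => rw [Int.ofNat_eq_natCast, zpow_natCast]; exact ha.pow m
  | negSucc m => rw [zpow_negSucc]; exact (ha.pow _).inv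

theorem isU_of_val (z : Om k) (h0 : z ≠ 0)
    (h : ∀ V : ValuationSubring (Om k), VV V → V.valuation z = 1) : IsU z := by
  refine ⟨h0, ?_, ?_⟩
  · rw [mem_OO_iff]
    intro V hV
    rw [← V.valuation_le_one_iff, h V hV]
  · rw [mem_OO_iff]
    intro V hV
    rw [← V.valuation_le_one_iff, map_inv₀, h V hV, inv_one]

section
variable {n : k[X]} {w : Om k} (h : IsGen n w) (hn : n.Monic) (hn3 : n.natDegree = 3)
include h hn hn3

theorem ee_isU (a : k[X]) (ha : ¬ n ∣ a) : IsU (ee w a) :=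
  isU_of_val _ (by rwa [Ne, ee_eq_zero h (gen_ne_zero h (by omega))])
    fun V hV => val_ee hn (by omega) h a ha V hV

theorem DD_isU : IsU (DD w) :=
  isU_of_val _ (DD_ne_zero (gen_ne_zero h (by omega)))
    fun V hV => (val_unit hn (by omega) h V hV).1

theorem MM_isU : IsU (ev w (MM k)) :=
  isU_of_val _ (ev_MM_ne h hn hn3) fun V hV => by
    rw [ev_MM]
    exact val_moore hn hn3 h V hV

theorem ev_mem_OO (p : MvPolynomial (Fin 2) k) : ev w p ∈ OO k := by
  have hx : ∀ i, ee w (X ^ i) ∈ OO k := by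
    intro i
    rw [mem_OO_iff]
    intro V hV
    rw [← V.valuation_le_one_iff]
    exact (val_unit hn (by omega) h V hV).2.2 i
  induction p using MvPolynomial.induction_on with
  | C a => rw [ev_C]; exact k_mem_OO a
  | add p q hp hq => rw [map_add]; exact (OO k).add_mem hp hq
  | mul_X p i hp =>
    rw [map_mul]
    refine (OO k).mul_mem hp ?_
    fin_cases i
    · show ev w (MvPolynomial.X 0) ∈ _
      rw [ev_X0]
      simpa using hx 1
    · show ev w (MvPolynomial.X 1) ∈ _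
      rw [ev_X1]
      exact hx 2

theorem U_div (a b : MvPolynomial (Fin 2) k) (ha : IsU (ev w a)) (hb : b ∣ a) :
    IsU (ev w b) := by
  obtain ⟨c, rfl⟩ := hb
  rw [map_mul] at ha
  have hb0 : ev w b ≠ 0 := fun h0 => ha.1 (by rw [h0, zero_mul])
  refine ⟨hb0, ev_mem_OO h hn hn3 b, ?_⟩
  have hc0 : ev w c ≠ 0 := fun h0 => ha.1 (by rw [h0, mul_zero])
  have : (ev w b)⁻¹ = ev w c * (ev w b * ev w c)⁻¹ := by
    field_simp
  rw [this]
  exact (OO k).mul_mem (ev_mem_OO h hn hn3 c) ha.2.2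

/-- fractions with denominators which are units -/
def FR (w : Om k) : Set (Om k) :=
  {z | ∃ r s : MvPolynomial (Fin 2) k, IsU (ev w s) ∧ z * ev w s = ev w r}

omit h hn hn3 in
theorem FR_add {a b : Om k} (ha : a ∈ FR w) (hb : b ∈ FR w) : a + b ∈ FR w := by
  obtain ⟨r, s, hs, hr⟩ := ha
  obtain ⟨r', s', hs', hr'⟩ := hb
  refine ⟨r * s' + r' * s, s * s', by rw [map_mul]; exact hs.mul hs', ?_⟩
  rw [map_mul, map_add, map_mul, map_mul, ← hr, ← hr']
  ring

omit h hn hn3 in
theorem FR_mul {a b : Om k} (ha : a ∈ FR w) (hb : b ∈ FR w) : a * b ∈ FR w := by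
  obtain ⟨r, s, hs, hr⟩ := ha
  obtain ⟨r', s', hs', hr'⟩ := hb
  refine ⟨r * r', s * s', by rw [map_mul]; exact hs.mul hs', ?_⟩
  rw [map_mul, map_mul, ← hr, ← hr']
  ring

omit h hn hn3 in
theorem FR_k (c : k) : algebraMap k (Om k) c ∈ FR w :=
  ⟨MvPolynomial.C c, 1, by rw [map_one]; exact isU_one, by rw [map_one, mul_one, ev_C]⟩

theorem FR_tt : tt k ∈ FR w :=
  ⟨NT n, MM k, MM_isU h hn hn3, by rw [ev_NT h hn hn3, mul_comm]⟩

theorem FR_jj : jj k ∈ FR w := by
  refine ⟨NG n ^ (Fintype.card k + 1), MM k ^ Fintype.card k * ND n, ?_, ?_⟩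
  · rw [map_mul, map_pow, ev_ND h hn hn3]
    exact ((MM_isU h hn hn3).pow _).mul ((MM_isU h hn hn3).mul (DD_isU h hn hn3))
  · rw [mul_comm, ev_j h hn hn3]

theorem FR_poly (a : k[X]) : algebraMap (RatFunc k) (Om k) (algebraMap k[X] (RatFunc k) a)
    ∈ FR w := by
  induction a using Polynomial.induction_on' with
  | add p q hp hq => rw [map_add, map_add]; exact FR_add hp hq
  | monomial m c =>
    rw [← C_mul_X_pow_eq_monomial, map_mul, map_mul, map_pow, map_pow, RatFunc.algebraMap_X]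
    refine FR_mul ?_ ?_
    · rw [RatFunc.algebraMap_C]
      exact FR_k c
    · have : algebraMap (RatFunc k) (Om k) RatFunc.X = tt k := rfl
      rw [this]
      induction m with
      | zero => rw [pow_zero, ← map_one (algebraMap k (Om k))]; exact FR_k 1
      | succ m ih => rw [pow_succ]; exact FR_mul ih (FR_tt h hn hn3)

theorem FR_F (c : RatFunc k) : algebraMap (RatFunc k) (Om k) c ∈ FR w := by
  obtain ⟨a, b, hb, rfl⟩ := IsFractionRing.div_surjective (A := k[X]) c
  have hb0 : b ≠ 0 := nonZeroDivisors.ne_zero hb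
  rw [map_div₀, div_eq_mul_inv]
  refine FR_mul (FR_poly h hn hn3 a) ?_
  obtain ⟨r, s, hs, hr⟩ := FR_poly h hn hn3 b
  have hbU : IsU (algebraMap (RatFunc k) (Om k) (algebraMap k[X] (RatFunc k) b)) :=
    F_isU _ (by
      rw [Ne, map_eq_zero_iff _ (IsFractionRing.injective k[X] (RatFunc k))]
      exact hb0)
  refine ⟨s, r, ?_, ?_⟩
  · rw [← hr]
    exact hbU.mul hs
  · rw [← hr, ← mul_assoc, inv_mul_cancel₀ hbU.1, one_mul]

theorem FR_alg (p : (RatFunc k)[X]) : algebraMap (RatFunc k)[X] (Om k) p ∈ FR w := by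
  induction p using Polynomial.induction_on' with
  | add p q hp hq => rw [map_add]; exact FR_add hp hq
  | monomial m c =>
    rw [← C_mul_X_pow_eq_monomial, map_mul, map_pow, algF_apply, algX_apply]
    refine FR_mul (FR_F h hn hn3 c) ?_
    induction m with
    | zero => rw [pow_zero, ← map_one (algebraMap k (Om k))]; exact FR_k 1
    | succ m ih => rw [pow_succ]; exact FR_mul ih (FR_jj h hn hn3)

theorem BL_frac : ∀ z, z ∈ OO k → z ∈ LL w → ∃ p s : MvPolynomial (Fin 2) k,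
    IsU (ev w s) ∧ z * ev w s = ev w p := by
  intro z hz hzL
  letI : Algebra (MvPolynomial (Fin 2) k) (Om k) := (ev w).toRingHom.toAlgebra
  have hal : ∀ p, algebraMap (MvPolynomial (Fin 2) k) (Om k) p = ev w p := fun _ => rfl
  have := frac_of_int (R := MvPolynomial (Fin 2) k) (L := Om k) (ev_inj h hn hn3)
    {s | IsU (ev w s)} (by
      show IsU (ev w 1)
      rw [map_one]; exact isU_one) (by
      intro h0
      have : IsU (ev w 0) := h0
      rw [map_zero] at this
      exact this.1 rfl) (by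
      intro a ha b hb
      show IsU (ev w (a * b))
      rw [map_mul]
      exact IsU.mul ha hb) (by
      intro a ha b hb
      exact U_div h hn hn3 a b ha hb) z (by
      obtain ⟨p, s, hs, hp⟩ := (mem_LL_iff w z).1 hzL
      refine ⟨p, s, ?_, hp⟩
      rintro rfl
      exact hs (map_zero _)) (by
      obtain ⟨f, hf, hfz⟩ : IsIntegral (RatFunc k)[X] z := hz
      refine ⟨f.map (algebraMap (RatFunc k)[X] (Om k)), hf.map _, ?_, ?_⟩
      · rw [eval_map]
        exact hfz
      · intro i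
        rw [coeff_map]
        obtain ⟨r, s, hs, hr⟩ := FR_alg h hn hn3 (f.coeff i)
        exact ⟨r, s, hs, hr⟩)
  obtain ⟨r, s, hs, hr⟩ := this
  exact ⟨r, s, hs, hr⟩

theorem alg_mem_LL (p : (RatFunc k)[X]) : algebraMap (RatFunc k)[X] (Om k) p ∈ LL w :=
  base_mem_LL h hn hn3 _

theorem ev_mem_LL (p : MvPolynomial (Fin 2) k) : ev w p ∈ LL w := by
  rw [mem_LL_iff]
  exact ⟨p, 1, by rw [map_one]; exact one_ne_zero, by rw [map_one, mul_one]⟩

theorem BL_pid : IsPrincipalIdealRing ↥(OO k ⊓ (LL w).toSubring) := by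
  let f : MvPolynomial (Fin 2) k →+* ↥(OO k ⊓ (LL w).toSubring) :=
    (ev w).toRingHom.codRestrict _ fun p =>
      ⟨ev_mem_OO h hn hn3 p, ev_mem_LL h hn hn3 p⟩
  letI : Algebra (MvPolynomial (Fin 2) k) ↥(OO k ⊓ (LL w).toSubring) := f.toAlgebra
  have hal : ∀ p, ((algebraMap (MvPolynomial (Fin 2) k) ↥(OO k ⊓ (LL w).toSubring) p :
    ↥(OO k ⊓ (LL w).toSubring)) : Om k) = ev w p := fun _ => rfl
  let g : (RatFunc k)[X] →+* ↥(OO k ⊓ (LL w).toSubring) :=
    (algebraMap (RatFunc k)[X] (Om k)).codRestrict _ fun p =>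
      ⟨alg_mem_OO p, alg_mem_LL h hn hn3 p⟩
  have hcomp : ∀ p, ((g p : ↥(OO k ⊓ (LL w).toSubring)) : Om k)
      = algebraMap (RatFunc k)[X] (Om k) p := fun _ => rfl
  have hgc : (Subring.subtype (OO k ⊓ (LL w).toSubring)).comp g
      = algebraMap (RatFunc k)[X] (Om k) := rfl
  have hint : ∀ b : ↥(OO k ⊓ (LL w).toSubring), ∃ p : (RatFunc k)[X][X], p.Monic ∧
      p.eval₂ g b = 0 := by
    intro b
    obtain ⟨p, hp, hpb⟩ : IsIntegral (RatFunc k)[X] (b : Om k) := b.2.1
    refine ⟨p, hp, ?_⟩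
    apply Subtype.val_injective
    have := Polynomial.hom_eval₂ p g (Subring.subtype (OO k ⊓ (LL w).toSubring)) b
    rw [hgc] at this
    rw [← Subring.subtype_apply, this]
    exact hpb
  apply pid_of_ufd (R := MvPolynomial (Fin 2) k)
  · intro p q hpq
    apply ev_inj h hn hn3
    rw [← hal, ← hal, hpq]
  · intro b
    obtain ⟨p, s, hs, hp⟩ := BL_frac h hn hn3 b b.2.1 b.2.2
    refine ⟨p, s, ?_, ?_⟩
    · refine IsUnit.of_mul_eq_one ⟨(ev w s)⁻¹, hs.2.2, (LL w).inv_mem (ev_mem_LL h hn hn3 s)⟩ ?_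
      apply Subtype.val_injective
      show ev w s * (ev w s)⁻¹ = 1
      exact mul_inv_cancel₀ hs.1
    · apply Subtype.val_injective
      exact hp
  · refine ⟨fun {P} hP0 hPp => ?_⟩
    apply Ideal.isMaximal_of_isIntegral_of_isMaximal_comap' g (fun b => hint b) P
    apply Ring.DimensionLEOne.maximalOfPrime
    · obtain ⟨b, hb, hb0⟩ := (Submodule.ne_bot_iff P).1 hP0
      obtain ⟨p, hp, hpb⟩ := hint b
      exact Ideal.comap_ne_bot_of_root_mem hb0 hb hp.ne_zero hpb
    · exact Ideal.comap_isPrime g P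

end

end Pool.Agent.Helper23.DM
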