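import Pool.Agent.Helper23.DM.Defs
set_option autoImplicit false
open Polynomial
open scoped Pointwise
namespace Pool.Agent.Helper23.DM

variable {k : Type} [Field k] [Fintype k]

/-- `φ_a(w) / w` -/
noncomputable def ee (w : Om k) (a : k[X]) : Om k := aeval (phi k) a w / w

/-- `G_w = j w^(q-1)` -/
noncomputable def GG (w : Om k) : Om k := jj k * w ^ (Fintype.card k - 1)

/-- `D_w = j^q w^(q^2-1)` -/
noncomputable def DD (w : Om k) : Om k :=
  jj k ^ Fintype.card k * w ^ (Fintype.card k ^ 2 - 1)

theorem phi_apply (v : Om k) : phi k v = tt k * v + jj k * v ^ Fintype.card k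
    + jj k ^ Fintype.card k * (v ^ Fintype.card k) ^ Fintype.card k := rfl

theorem phi_sig (σ : Om k ≃ₐ[RatFunc (RatFunc k)] Om k) (v : Om k) :
    σ (phi k v) = phi k (σ v) := by
  have h1 : σ (tt k) = tt k := by
    unfold tt
    rw [IsScalarTower.algebraMap_apply (RatFunc k) (RatFunc (RatFunc k)) (Om k)]
    exact σ.commutes _
  have h2 : σ (jj k) = jj k := σ.commutes _
  simp only [phi_apply, map_add, map_mul, map_pow, h1, h2]

theorem sig_smul (σ : Om k ≃ₐ[RatFunc (RatFunc k)] Om k) (c : k) (v : Om k) :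
    σ (c • v) = c • σ v := by
  rw [Algebra.smul_def, Algebra.smul_def, map_mul,
    IsScalarTower.algebraMap_apply k (RatFunc (RatFunc k)) (Om k), σ.commutes]

theorem aeval_sig (σ : Om k ≃ₐ[RatFunc (RatFunc k)] Om k) (a : k[X]) (v : Om k) :
    σ (aeval (phi k) a v) = aeval (phi k) a (σ v) := by
  induction a using Polynomial.induction_on' generalizing v with
  | add p r hp hr => simp only [map_add, LinearMap.add_apply, hp, hr]
  | monomial m c =>
    simp only [aeval_monomial, Module.End.mul_apply, Module.algebraMap_end_apply]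
    rw [sig_smul]
    congr 1
    induction m generalizing v with
    | zero => simp
    | succ m ih =>
      rw [pow_succ, Module.End.mul_apply, Module.End.mul_apply, ih, phi_sig]

theorem gen_ne_zero {n : k[X]} {w : Om k} (h : IsGen n w) (hn : 0 < n.natDegree) : w ≠ 0 := by
  intro h0
  have := (h 1).1 (by rw [h0, map_zero])
  rw [← isUnit_iff_dvd_one] at this
  have := natDegree_eq_zero_of_isUnit this
  omega

theorem aeval_mul_apply' (a b : k[X]) (w : Om k) :
    aeval (phi k) (a * b) w = aeval (phi k) a (aeval (phi k) b w) := by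
  rw [map_mul, Module.End.mul_apply]

/-- images of a generator under elements prime to `n` are generators -/
theorem gen_coprime {n a : k[X]} {w : Om k} (h : IsGen n w) (ha : IsCoprime a n) :
    IsGen n (aeval (phi k) a w) := by
  intro b
  rw [← aeval_mul_apply', h]
  exact ⟨fun h' => (IsCoprime.dvd_of_dvd_mul_right ha.symm h'), fun h' => Dvd.dvd.mul_right h' a⟩

theorem gen_smul {n : k[X]} {w : Om k} (h : IsGen n w) (c : k) (hc : c ≠ 0) :
    IsGen n (c • w) := by
  intro b
  rw [map_smul, smul_eq_zero, h]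
  simp [hc]

theorem gen_sig {n : k[X]} {w : Om k} (h : IsGen n w)
    (σ : Om k ≃ₐ[RatFunc (RatFunc k)] Om k) : IsGen n (σ w) := by
  intro b
  rw [← aeval_sig, EmbeddingLike.map_eq_zero_iff, h]

/-- an element of `C` which is a generator is `φ_a(w)` with `a` prime to `n` -/
theorem coprime_of_gen {n a : k[X]} {w : Om k} (h : IsGen n w) (hn : n ≠ 0)
    (h' : IsGen n (aeval (phi k) a w)) : IsCoprime a n := by
  classical
  obtain ⟨c, hc⟩ := gcd_dvd_right a n
  have h1 : n ∣ c := by
    rw [← h' c, ← aeval_mul_apply', h]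
    obtain ⟨e, he⟩ := gcd_dvd_left a n
    refine ⟨e, ?_⟩
    calc c * a = c * (gcd a n * e) := by rw [← he]
      _ = (gcd a n * c) * e := by ring
      _ = n * e := by rw [← hc]
  obtain ⟨e, he⟩ := h1
  have hc0 : c ≠ 0 := by
    rintro rfl
    exact hn (by rw [hc, mul_zero])
  have h2 : gcd a n * e = 1 := by
    have : (gcd a n * e) * c = 1 * c := by
      calc (gcd a n * e) * c = (gcd a n * c) * e := by ring
        _ = n * e := by rw [← hc]
        _ = 1 * c := by rw [one_mul, ← he]
    exact mul_right_cancel₀ hc0 this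
  have h3 : IsUnit (gcd a n) := IsUnit.of_mul_eq_one e h2
  exact (gcd_isUnit_iff a n).1 h3

/-- if `n` does not divide `a` then `φ_a(w)` generates a module `k[T]/(n')` with `n'` of
positive degree -/
theorem gen_of_not_dvd {n a : k[X]} {w : Om k} (h : IsGen n w) (hn : n ≠ 0)
    (ha : ¬ n ∣ a) : ∃ n' : k[X], n'.Monic ∧ 0 < n'.natDegree ∧
      IsGen n' (aeval (phi k) a w) := by
  classical
  obtain ⟨c, hc⟩ := gcd_dvd_right a n
  obtain ⟨e, he⟩ := gcd_dvd_left a n
  have hg0 : gcd a n ≠ 0 := by
    intro h0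
    exact hn (by rw [hc, h0, zero_mul])
  have hc0 : c ≠ 0 := by
    rintro rfl
    exact hn (by rw [hc, mul_zero])
  have hce : IsCoprime e c := by
    have h1 : gcd a n * gcd e c ∣ gcd a n := by
      refine dvd_gcd ?_ ?_
      · conv_rhs => rw [he]
        exact mul_dvd_mul_left _ (gcd_dvd_left e c)
      · conv_rhs => rw [hc]
        exact mul_dvd_mul_left _ (gcd_dvd_right e c)
    have h2 : gcd e c ∣ 1 := by
      have : gcd a n * gcd e c ∣ gcd a n * 1 := by rwa [mul_one]
      exact (mul_dvd_mul_iff_left hg0).1 this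
    exact (gcd_isUnit_iff e c).1 (isUnit_of_dvd_one h2)
  refine ⟨normalize c, monic_normalize hc0, ?_, ?_⟩
  · rw [Nat.pos_iff_ne_zero]
    intro h0
    apply ha
    have h1 : IsUnit (normalize c) := by
      rw [isUnit_iff_degree_eq_zero, degree_eq_natDegree (by simpa using hc0), h0]
      rfl
    have h2 : IsUnit c := (normalize_associated c).isUnit h1
    obtain ⟨u, hu⟩ := h2
    rw [hc, ← hu]
    exact (Units.mul_right_dvd).2 ⟨e, he⟩
  · intro b
    rw [← aeval_mul_apply', h]
    rw [normalize_dvd_iff]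
    constructor
    · rintro ⟨f, hf⟩
      have h1 : b * e = c * f := by
        apply mul_left_cancel₀ hg0
        calc gcd a n * (b * e) = b * (gcd a n * e) := by ring
          _ = b * a := by rw [← he]
          _ = n * f := hf
          _ = gcd a n * c * f := by rw [← hc]
          _ = gcd a n * (c * f) := by ring
      exact IsCoprime.dvd_of_dvd_mul_right hce.symm ⟨f, h1⟩
    · rintro ⟨f, hf⟩
      refine ⟨f * e, ?_⟩
      calc b * a = c * f * (gcd a n * e) := by rw [hf, ← he]
        _ = (gcd a n * c) * (f * e) := by ring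
        _ = n * (f * e) := by rw [← hc]

theorem ee_one {w : Om k} (hw : w ≠ 0) : ee w 1 = 1 := by
  unfold ee
  rw [map_one, Module.End.one_apply, div_self hw]

theorem ee_mul_self {w : Om k} (hw : w ≠ 0) (a : k[X]) :
    ee w a * w = aeval (phi k) a w := by
  unfold ee
  rw [div_mul_cancel₀ _ hw]

theorem ee_add (w : Om k) (a b : k[X]) : ee w (a + b) = ee w a + ee w b := by
  unfold ee
  rw [map_add, LinearMap.add_apply, add_div]

theorem ee_smul (w : Om k) (c : k) (a : k[X]) : ee w (c • a) = c • ee w a := by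
  unfold ee
  rw [map_smul, LinearMap.smul_apply, smul_div_assoc]

/-- the recursion for `φ_T^i(w)/w` -/
theorem ee_succ {w : Om k} (hw : w ≠ 0) (a : k[X]) :
    ee w (X * a) = tt k * ee w a + GG w * ee w a ^ Fintype.card k
      + DD w * (ee w a ^ Fintype.card k) ^ Fintype.card k := by
  have hq : 1 ≤ Fintype.card k := Fintype.card_pos
  have h1 : aeval (phi k) (X * a) w = phi k (ee w a * w) := by
    rw [ee_mul_self hw, aeval_mul_apply', aeval_X]
  have e1 : w ^ Fintype.card k = w ^ (Fintype.card k - 1) * w := by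
    rw [← pow_succ]
    congr 1
    omega
  have e2 : (w ^ Fintype.card k) ^ Fintype.card k = w ^ (Fintype.card k ^ 2 - 1) * w := by
    rw [← pow_mul, ← pow_two, ← pow_succ]
    congr 1
    have : 1 ≤ Fintype.card k ^ 2 := Nat.one_le_pow _ _ hq
    omega
  rw [ee, h1, phi_apply, mul_pow, mul_pow, e2, e1, div_eq_iff hw]
  unfold GG DD
  ring

theorem GG_pow (w : Om k) : GG w ^ (Fintype.card k + 1) = jj k * DD w := by
  have hq : 1 ≤ Fintype.card k := Fintype.card_pos
  unfold GG DD
  rw [mul_pow, ← pow_mul, pow_succ']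
  have : (Fintype.card k - 1) * (Fintype.card k + 1) = Fintype.card k ^ 2 - 1 := by
    obtain ⟨m, hm⟩ := Nat.exists_eq_add_of_le hq
    rw [hm]
    have : 1 + m - 1 = m := by omega
    rw [this]
    have : (1 + m) ^ 2 = m * (1 + m + 1) + 1 := by ring
    omega
  rw [this]
  ring

theorem jj_ne_zero : jj k ≠ 0 := by
  unfold jj
  rw [Ne, map_eq_zero]
  exact RatFunc.X_ne_zero

theorem GG_ne_zero {w : Om k} (hw : w ≠ 0) : GG w ≠ 0 :=
  mul_ne_zero jj_ne_zero (pow_ne_zero _ hw)

theorem DD_ne_zero {w : Om k} (hw : w ≠ 0) : DD w ≠ 0 :=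
  mul_ne_zero (pow_ne_zero _ jj_ne_zero) (pow_ne_zero _ hw)

/-- the relation `n(φ)(w) = 0` -/
theorem ee_sum (w : Om k) (a : k[X]) :
    ee w a = ∑ i ∈ Finset.range (a.natDegree + 1), algebraMap k (Om k) (a.coeff i) * ee w (X ^ i) := by
  conv_lhs => rw [a.as_sum_range_C_mul_X_pow]
  generalize Finset.range (a.natDegree + 1) = s
  classical
  induction s using Finset.induction_on with
  | empty => simp [ee]
  | insert i s hi ih =>
    rw [Finset.sum_insert hi, Finset.sum_insert hi, ee_add, ih, ← smul_eq_C_mul, ee_smul,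
      Algebra.smul_def]

/-- `φ_a(w)/w` only depends on `a` modulo `n` and is a linear combination of `1`, `x`, `y` -/
theorem ee_lin {n : k[X]} {w : Om k} (h : IsGen n w) (hn : n.Monic) (hn3 : n.natDegree = 3)
    (a : k[X]) : ee w a = algebraMap k (Om k) ((a %ₘ n).coeff 0)
      + algebraMap k (Om k) ((a %ₘ n).coeff 1) * ee w X
      + algebraMap k (Om k) ((a %ₘ n).coeff 2) * ee w (X ^ 2) := by
  have hw : w ≠ 0 := gen_ne_zero h (by omega)
  have h1 : ee w a = ee w (a %ₘ n) := by
    conv_lhs => rw [← modByMonic_add_div a n, ee_add]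
    have : ee w (n * (a /ₘ n)) = 0 := by
      unfold ee
      rw [(h _).2 (dvd_mul_right _ _), zero_div]
    rw [this, add_zero]
  have h2 : (a %ₘ n).degree < 3 := by
    have := degree_modByMonic_lt a hn
    rwa [degree_eq_natDegree hn.ne_zero, hn3] at this
  have h3 : a %ₘ n = (a %ₘ n).coeff 0 • (1 : k[X]) + (a %ₘ n).coeff 1 • (X : k[X])
      + (a %ₘ n).coeff 2 • (X ^ 2 : k[X]) := by
    conv_lhs => rw [(a %ₘ n).as_sum_range' 3 (by
      rw [Nat.lt_iff_add_one_le, Nat.succ_le_iff]
      by_cases h0 : a %ₘ n = 0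
      · rw [h0]; simp
      · rw [degree_eq_natDegree h0] at h2
        exact_mod_cast h2)]
    simp only [Finset.sum_range_succ, Finset.sum_range_zero, zero_add, smul_eq_C_mul,
      ← C_mul_X_pow_eq_monomial, pow_zero, pow_one]
  rw [h1]
  conv_lhs => rw [h3]
  rw [ee_add, ee_add, ee_smul, ee_smul, ee_smul, ee_one hw]
  simp only [Algebra.smul_def, mul_one]

theorem ee_eq_zero {n : k[X]} {w : Om k} (h : IsGen n w) (hw : w ≠ 0) (a : k[X]) :
    ee w a = 0 ↔ n ∣ a := by
  unfold ee
  rw [div_eq_zero_iff, h]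
  simp [hw]

theorem ee_comp {w : Om k} (a b : k[X]) :
    ee (aeval (phi k) a w) b = ee w (b * a) / ee w a := by
  by_cases hw : w = 0
  · subst hw
    simp [ee]
  · unfold ee
    rw [aeval_mul_apply', div_div_div_cancel_right₀ hw]

theorem ee_smul_left (w : Om k) (c : k) (hc : c ≠ 0) (a : k[X]) :
    ee (c • w) a = ee w a := by
  unfold ee
  rw [map_smul, Algebra.smul_def, Algebra.smul_def, mul_div_mul_left]
  rwa [Ne, map_eq_zero]

theorem sig_ee (σ : Om k ≃ₐ[RatFunc (RatFunc k)] Om k) (w : Om k) (a : k[X]) :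
    σ (ee w a) = ee (σ w) a := by
  unfold ee
  rw [map_div₀, aeval_sig]

end Pool.Agent.Helper23.DM
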