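import Mathlib
set_option autoImplicit false
open Polynomial
namespace Pool.Agent.Helper23.DM

/-!
DM-CHR (characters of `(k[X]/n)^×` with values in `k^×`, `n` a product of three linear factors;
only Mathlib). `χ : k[X] → k` is multiplicative on the polynomials prime to
`n = (X - a₁)(X - a₂)(X - a₃)`, nonzero there, depends only on the class modulo `n`, and
`χ(c) = c^d` for constants. Then `χ(a) = ∏_{α ∈ {a₁,a₂,a₃}} a(α)^(i_α)` with `∑ i_α = d`.

Proof. (1) If `a(α) = 1` for all `α ∈ {a₁, a₂, a₃}` then `χ(a) = 1`: `X - α ∣ a - 1` for each of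
the three, so `n ∣ (a - 1)^3 ∣ (a - 1)^(q²) = a^(q²) - 1` (`q² ≥ 3`, Frobenius: `k[X]` is a ring
of characteristic `p`, `q² = p^m`, `sub_pow_char_pow`), so `χ(a)^(q²) = χ(a^(q²)) = χ(1) = 1` and
`χ(a)^(q²) = χ(a)` (`FiniteField.pow_card`). (2) Let `g` be a generator of `k^×` and for each
`α ∈ S = {a₁,a₂,a₃}` choose (Lagrange interpolation) `e_α ∈ k[X]` with `e_α(α) = g`,
`e_α(β) = 1` for `β ∈ S`, `β ≠ α`; `χ(e_α) = g^(i_α)`. For `a` prime to `n` write
`a(α) = g^(m_α)`, `m_α ∈ ℕ`; then `a` and `b = ∏ e_α^(m_α)` have the same values on `S`; with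
`c = a^(q-2)`-like inverse (choose `c` with `b c ≡ 1` on `S`, e.g. `c = b^(q²-q-1)...` or
`c = b^(2(q-1)-1)`: `b^(2(q-1)) = 1` on `S`) `χ(a c) = 1 = χ(b c)`, so
`χ(a) = χ(b) = ∏ g^(i_α m_α) = ∏ a(α)^(i_α)`. (3) `χ(g) = g^d = g^(∑ i_α)`, so
`∑ i_α = d + (q-1) z`; replace `i_α` by `i_α - (q-1) z` for one `α ∈ S`.
-/

theorem chr {k : Type*} [Field k] [Fintype k] [DecidableEq k] (a₁ a₂ a₃ : k) (n : k[X])
    (hn : n = (X - C a₁) * (X - C a₂) * (X - C a₃)) (χ : k[X] → k)
    (hmul : ∀ a b, IsCoprime a n → IsCoprime b n → χ (a * b) = χ a * χ b)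
    (hne : ∀ a, IsCoprime a n → χ a ≠ 0)
    (hmod : ∀ a b, IsCoprime a n → n ∣ a - b → χ a = χ b)
    (d : ℕ) (hd : ∀ c : k, c ≠ 0 → χ (C c) = c ^ d) :
    ∃ i : k → ℤ, (∑ α ∈ ({a₁, a₂, a₃} : Finset k), i α = d) ∧
      ∀ a, IsCoprime a n → χ a = ∏ α ∈ ({a₁, a₂, a₃} : Finset k), (a.eval α) ^ (i α) := by
  classical
  set S : Finset k := {a₁, a₂, a₃} with hS
  have hcop : ∀ a : k[X], IsCoprime a n ↔ ∀ α ∈ S, a.eval α ≠ 0 := by
    intro a
    have h1 : ∀ α : k, IsCoprime a (X - C α) ↔ a.eval α ≠ 0 := by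
      intro α
      rw [isCoprime_comm, (irreducible_X_sub_C α).coprime_iff_not_dvd, dvd_iff_isRoot]
      rfl
    rw [hn, IsCoprime.mul_right_iff, IsCoprime.mul_right_iff, h1, h1, h1]
    simp [hS, and_assoc]
  have hmemd : ∀ a : k[X], (∀ α ∈ S, a.eval α = 0) → n ∣ a ^ 3 := by
    intro a ha
    have h1 : ∀ α ∈ S, X - C α ∣ a := fun α hα => dvd_iff_isRoot.2 (ha α hα)
    have e : a ^ 3 = a * a * a := by ring
    rw [hn, e]
    exact mul_dvd_mul (mul_dvd_mul (h1 _ (by simp [hS])) (h1 _ (by simp [hS])))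
      (h1 _ (by simp [hS]))
  have hone : χ 1 = 1 := by
    have := hd 1 one_ne_zero
    simpa using this
  have hpowm : ∀ a : k[X], IsCoprime a n → ∀ m : ℕ, χ (a ^ m) = χ a ^ m := by
    intro a ha m
    induction m with
    | zero => simpa using hone
    | succ m ih => rw [pow_succ, hmul _ _ (ha.pow_left) ha, ih, pow_succ]
  have hprod : ∀ (T : Finset k) (f : k → k[X]), (∀ α ∈ T, IsCoprime (f α) n) →
      χ (∏ α ∈ T, f α) = ∏ α ∈ T, χ (f α) := by
    intro T f
    induction T using Finset.induction_on with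
    | empty => intro _; simpa using hone
    | insert α T hα ih =>
      intro h
      rw [Finset.prod_insert hα, Finset.prod_insert hα,
        hmul _ _ (h _ (Finset.mem_insert_self _ _))
          (IsCoprime.prod_left fun β hβ => h _ (Finset.mem_insert_of_mem hβ)),
        ih fun β hβ => h _ (Finset.mem_insert_of_mem hβ)]
  obtain ⟨p, hp⟩ := CharP.exists k
  obtain ⟨m, hpr, hcard⟩ := FiniteField.card k p
  have : Fact p.Prime := ⟨hpr⟩
  have key1 : ∀ a : k[X], (∀ α ∈ S, a.eval α = 1) → χ a = 1 := by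
    intro a ha
    have hca : IsCoprime a n := (hcop a).2 fun α hα => by rw [ha α hα]; exact one_ne_zero
    have h3 : n ∣ (a - 1) ^ 3 := hmemd _ fun α hα => by simp [ha α hα]
    have hq : 3 ≤ Fintype.card k ^ 2 := by
      have : 2 ≤ Fintype.card k := Fintype.one_lt_card
      nlinarith
    have h4 : n ∣ a ^ (Fintype.card k ^ 2) - 1 := by
      have e : a ^ (Fintype.card k ^ 2) - 1 = (a - 1) ^ (Fintype.card k ^ 2) := by
        rw [hcard, ← pow_mul, sub_pow_char_pow, one_pow]
      rw [e]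
      exact h3.trans (pow_dvd_pow _ hq)
    have h5 := hmod _ _ (hca.pow_left (m := Fintype.card k ^ 2)) h4
    rw [hpowm a hca, hone, FiniteField.pow_card_pow] at h5
    exact h5
  have key2 : ∀ a b : k[X], IsCoprime a n → (∀ α ∈ S, a.eval α = b.eval α) → χ a = χ b := by
    intro a b ha hab
    have ha' := (hcop a).1 ha
    have hb : IsCoprime b n := (hcop b).2 fun α hα => by rw [← hab α hα]; exact ha' α hα
    set c : k[X] := Lagrange.interpolate S id (fun β => (a.eval β)⁻¹) with hc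
    have hce : ∀ α ∈ S, c.eval α = (a.eval α)⁻¹ := by
      intro α hα
      have := Lagrange.eval_interpolate_at_node (s := S) (v := id) (fun β => (a.eval β)⁻¹)
        (Set.injOn_id _) hα
      simpa [hc] using this
    have hcc : IsCoprime c n := (hcop c).2 fun α hα => by
      rw [hce α hα]; exact inv_ne_zero (ha' α hα)
    have e1 : χ (a * c) = 1 := key1 _ fun α hα => by
      rw [eval_mul, hce α hα, mul_inv_cancel₀ (ha' α hα)]
    have e2 : χ (b * c) = 1 := key1 _ fun α hα => by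
      rw [eval_mul, hce α hα, ← hab α hα, mul_inv_cancel₀ (ha' α hα)]
    rw [hmul _ _ ha hcc] at e1
    rw [hmul _ _ hb hcc] at e2
    exact mul_right_cancel₀ (hne c hcc) (e1.trans e2.symm)
  obtain ⟨g, hg⟩ := IsCyclic.exists_generator (α := kˣ)
  have hpow : ∀ x : k, x ≠ 0 → ∃ r : ℕ, x = (g : k) ^ r := by
    intro x hx
    obtain ⟨r, hr⟩ := (mem_powers_iff_mem_zpowers).2 (hg (Units.mk0 x hx))
    refine ⟨r, ?_⟩
    have := congrArg (fun u : kˣ => (u : k)) hr
    simpa using this.symm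
  set e : k → k[X] := fun α => Lagrange.interpolate S id (fun β => if β = α then (g : k) else 1)
    with he
  have hee : ∀ α, ∀ β ∈ S, (e α).eval β = if β = α then (g : k) else 1 := by
    intro α β hβ
    have := Lagrange.eval_interpolate_at_node (s := S) (v := id)
      (fun β => if β = α then (g : k) else 1) (Set.injOn_id _) hβ
    simpa [he] using this
  have hec : ∀ α, IsCoprime (e α) n := fun α => (hcop _).2 fun β hβ => by
    rw [hee α β hβ]
    split_ifs
    · exact g.ne_zero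
    · exact one_ne_zero
  choose j hj using fun α => hpow (χ (e α)) (hne _ (hec α))
  have main : ∀ a : k[X], IsCoprime a n → χ a = ∏ α ∈ S, (a.eval α) ^ (j α) := by
    intro a ha
    have ha' := (hcop a).1 ha
    have hex : ∀ α : k, ∃ r : ℕ, α ∈ S → a.eval α = (g : k) ^ r := by
      intro α
      by_cases hα : α ∈ S
      · obtain ⟨r, hr⟩ := hpow _ (ha' α hα)
        exact ⟨r, fun _ => hr⟩
      · exact ⟨0, fun h => absurd h hα⟩
    choose r hr using hex
    have hb : ∀ β ∈ S, a.eval β = (∏ α ∈ S, (e α) ^ (r α)).eval β := by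
      intro β hβ
      rw [eval_prod, Finset.prod_eq_single β]
      · rw [eval_pow, hee β β hβ, if_pos rfl, hr β hβ]
      · intro α _ hαβ
        rw [eval_pow, hee α β hβ, if_neg (fun h => hαβ h.symm), one_pow]
      · intro h
        exact absurd hβ h
    rw [key2 _ _ ha hb, hprod _ _ fun α _ => (hec α).pow_left]
    refine Finset.prod_congr rfl fun α hα => ?_
    rw [hpowm _ (hec α), hj α, hr α hα, ← pow_mul, ← pow_mul, mul_comm]
  set s : ℤ := (∑ α ∈ S, (j α : ℤ)) - d with hs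
  have hgs : g ^ s = 1 := by
    have h1 := main (C (g : k)) ((hcop _).2 fun α _ => by
      rw [eval_C]; exact g.ne_zero)
    rw [hd _ g.ne_zero] at h1
    simp only [eval_C] at h1
    rw [Finset.prod_pow_eq_pow_sum] at h1
    have h2 : g ^ d = g ^ (∑ α ∈ S, j α) := Units.ext (by push_cast; exact h1)
    have h3 : (∑ α ∈ S, (j α : ℤ)) = ((∑ α ∈ S, j α : ℕ) : ℤ) := by push_cast; rfl
    rw [hs, h3, zpow_sub, zpow_natCast, zpow_natCast, ← h2, mul_inv_cancel]
  have hxs : ∀ x : k, x ≠ 0 → x ^ s = 1 := by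
    intro x hx
    obtain ⟨r, hr⟩ := hpow x hx
    have h1 : (g : k) ^ s = 1 := by
      have := congrArg (fun u : kˣ => (u : k)) hgs
      simpa using this
    rw [hr, ← zpow_natCast, ← zpow_mul, mul_comm, zpow_mul, h1, one_zpow]
  refine ⟨fun α => (j α : ℤ) - (if α = a₁ then s else 0), ?_, ?_⟩
  · rw [Finset.sum_sub_distrib, Finset.sum_ite_eq' S a₁ (fun _ => s), if_pos (by simp [hS]), hs]
    ring
  · intro a ha
    have ha' := (hcop a).1 ha
    rw [main a ha]
    refine Finset.prod_congr rfl fun α hα => ?_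
    rw [zpow_sub₀ (ha' α hα), zpow_natCast]
    split_ifs
    · rw [hxs _ (ha' α hα), div_one]
    · rw [zpow_zero, div_one]

end Pool.Agent.Helper23.DM
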