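import Mathlib
set_option autoImplicit false
open Polynomial
namespace Pool.Agent.Helper23.DM

/-!
DM-MOO (Moore's lemma; only Mathlib). `k` finite with `q` elements, `κ ⊇ k` a field, `u, v, w ∈ κ`
linearly independent over `k`. Then `det (u, v, w; u^q, ...; u^(q²), ...) ≠ 0`.

Proof. If the determinant vanishes, there is `(b0, b1, b2) ≠ 0` in `κ³` with
`b0 z + b1 z^q + b2 (z^q)^q = 0` for `z = u, v, w` (`Matrix.exists_mulVec_eq_zero_iff`), hence for
every `z = a u + b v + c w` with `a, b, c ∈ k` (`z ↦ z^q` is `k`-linear,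
`FiniteField.frobeniusAlgHom k κ`). These are `q³` different elements, all roots of the nonzero
polynomial `b0 X + b1 X^q + b2 X^(q²)` of degree `≤ q² < q³`.
-/

theorem moore {k κ : Type*} [Field k] [Fintype k] [Field κ] [Algebra k κ] (u v w : κ)
    (h : ∀ a b c : k, algebraMap k κ a * u + algebraMap k κ b * v + algebraMap k κ c * w = 0 →
      a = 0 ∧ b = 0 ∧ c = 0) :
    Matrix.det !![u, u ^ Fintype.card k, (u ^ Fintype.card k) ^ Fintype.card k;
      v, v ^ Fintype.card k, (v ^ Fintype.card k) ^ Fintype.card k;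
      w, w ^ Fintype.card k, (w ^ Fintype.card k) ^ Fintype.card k] ≠ 0 := by
  classical
  set q := Fintype.card k with hq
  have hq1 : 1 < q := Fintype.one_lt_card
  intro hdet
  obtain ⟨b, hb0, hb⟩ := Matrix.exists_mulVec_eq_zero_iff.2 hdet
  -- the additive map
  let Fr : κ →ₐ[k] κ := FiniteField.frobeniusAlgHom k κ
  have hFr : ∀ z : κ, Fr z = z ^ q := fun z => rfl
  let g : κ → κ := fun z => b 0 * z + b 1 * Fr z + b 2 * Fr (Fr z)
  have hg : ∀ z, g z = b 0 * z + b 1 * z ^ q + b 2 * (z ^ q) ^ q := by
    intro z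
    simp only [g, hFr]
  have hrow : ∀ i : Fin 3, (Matrix.mulVec !![u, u ^ q, (u ^ q) ^ q; v, v ^ q, (v ^ q) ^ q;
      w, w ^ q, (w ^ q) ^ q] b) i = 0 := fun i => congrFun hb i
  have hu : g u = 0 := by
    have h1 := hrow 0
    simp [Matrix.mulVec, dotProduct, Fin.sum_univ_three] at h1
    rw [hg]
    linear_combination h1
  have hv : g v = 0 := by
    have h1 := hrow 1
    simp [Matrix.mulVec, dotProduct, Fin.sum_univ_three] at h1
    rw [hg]
    linear_combination h1
  have hw : g w = 0 := by
    have h1 := hrow 2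
    simp [Matrix.mulVec, dotProduct, Fin.sum_univ_three] at h1
    rw [hg]
    linear_combination h1
  let φ : k × k × k → κ := fun t =>
    algebraMap k κ t.1 * u + algebraMap k κ t.2.1 * v + algebraMap k κ t.2.2 * w
  have hφ : Function.Injective φ := by
    rintro ⟨a, b', c⟩ ⟨a', b'', c'⟩ he
    have h1 : algebraMap k κ (a - a') * u + algebraMap k κ (b' - b'') * v +
        algebraMap k κ (c - c') * w = 0 := by
      rw [map_sub, map_sub, map_sub]
      simp only [φ] at he
      linear_combination he
    obtain ⟨h2, h3, h4⟩ := h _ _ _ h1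
    rw [sub_eq_zero] at h2 h3 h4
    rw [h2, h3, h4]
  have hgφ : ∀ t, g (φ t) = 0 := by
    rintro ⟨a, b', c⟩
    have h1 : g (φ (a, b', c)) = algebraMap k κ a * g u + algebraMap k κ b' * g v +
        algebraMap k κ c * g w := by
      simp only [g, φ, map_add, map_mul, AlgHom.commutes]
      ring
    rw [h1, hu, hv, hw]
    ring
  let P : κ[X] := C (b 0) * X + C (b 1) * X ^ q + C (b 2) * X ^ (q * q)
  have hPe : ∀ z, P.eval z = g z := by
    intro z
    rw [hg]
    simp only [P, eval_add, eval_mul, eval_C, eval_X, eval_pow, pow_mul]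
  have hqq : q < q * q := by nlinarith
  have hP0 : P ≠ 0 := by
    intro hP
    apply hb0
    have hc : ∀ m, P.coeff m = 0 := fun m => by rw [hP, coeff_zero]
    have hco : ∀ m, P.coeff m = (if m = 1 then b 0 else 0) + (if m = q then b 1 else 0) +
        (if m = q * q then b 2 else 0) := by
      intro m
      simp only [P, coeff_add, coeff_C_mul, coeff_X, coeff_X_pow, mul_ite, mul_one, mul_zero]
      congr 1
      congr 1
      simp only [eq_comm]
    have h0 := hc 1
    rw [hco, if_pos rfl, if_neg (by omega), if_neg (by omega), add_zero, add_zero] at h0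
    have h1 := hc q
    rw [hco, if_neg (by omega), if_pos rfl, if_neg (by omega), zero_add, add_zero] at h1
    have h2 := hc (q * q)
    rw [hco, if_neg (by omega), if_neg (by omega), if_pos rfl, zero_add, zero_add] at h2
    funext i
    fin_cases i
    · exact h0
    · exact h1
    · exact h2
  have hdeg : P.natDegree ≤ q * q := by
    refine (natDegree_add_le _ _).trans (max_le ((natDegree_add_le _ _).trans (max_le ?_ ?_)) ?_)
    · refine (natDegree_C_mul_le _ _).trans ?_
      rw [natDegree_X]
      nlinarith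
    · refine (natDegree_C_mul_le _ _).trans ?_
      rw [natDegree_X_pow]
      exact hqq.le
    · refine (natDegree_C_mul_le _ _).trans ?_
      rw [natDegree_X_pow]
  have hsub : Finset.univ.image φ ⊆ P.roots.toFinset := by
    intro z hz
    rw [Finset.mem_image] at hz
    obtain ⟨t, _, rfl⟩ := hz
    rw [Multiset.mem_toFinset, mem_roots hP0, IsRoot, hPe, hgφ]
  have hcard := Finset.card_le_card hsub
  rw [Finset.card_image_of_injective _ hφ, Finset.card_univ, Fintype.card_prod, Fintype.card_prod,
    ← hq] at hcard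
  have h1 := (hcard.trans (Multiset.toFinset_card_le _)).trans (P.card_roots'.trans hdeg)
  nlinarith [Nat.mul_lt_mul_of_pos_left hqq (show 0 < q by omega)]

end Pool.Agent.Helper23.DM
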