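import Pool.Agent.Helper23.DM.Bas
import Pool.Agent.Helper23.DM.Moore
set_option autoImplicit false
open Polynomial
namespace Pool.Agent.Helper23.DM

/-!
DM-CRA (Cramer's rule). With `x = ee w X`, `y = ee w (X^2)`, `z = ee w (X^3)`:
`T + G + D = x`, `x T + x^q G + x^(q^2) D = y`, `y T + y^q G + y^(q^2) D = z`.
-/

variable {k : Type} [Field k] [Fintype k]

/-- evaluation of polynomials in two variables at `(x, y)` -/
noncomputable def ev (w : Om k) : MvPolynomial (Fin 2) k →ₐ[k] Om k :=
  MvPolynomial.aeval ![ee w X, ee w (X ^ 2)]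

/-- the linear form attached to `a` modulo `n` -/
noncomputable def ll (n a : k[X]) : MvPolynomial (Fin 2) k :=
  MvPolynomial.C ((a %ₘ n).coeff 0) + MvPolynomial.C ((a %ₘ n).coeff 1) * MvPolynomial.X 0
    + MvPolynomial.C ((a %ₘ n).coeff 2) * MvPolynomial.X 1

variable (k) in
/-- the Moore determinant of `(1, x, y)` -/
noncomputable def MM : MvPolynomial (Fin 2) k :=
  Matrix.det !![1, 1, 1;
    MvPolynomial.X 0, MvPolynomial.X 0 ^ Fintype.card k,
      (MvPolynomial.X 0 ^ Fintype.card k) ^ Fintype.card k;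
    MvPolynomial.X 1, MvPolynomial.X 1 ^ Fintype.card k,
      (MvPolynomial.X 1 ^ Fintype.card k) ^ Fintype.card k]

noncomputable def NT (n : k[X]) : MvPolynomial (Fin 2) k :=
  Matrix.det !![MvPolynomial.X 0, 1, 1;
    MvPolynomial.X 1, MvPolynomial.X 0 ^ Fintype.card k,
      (MvPolynomial.X 0 ^ Fintype.card k) ^ Fintype.card k;
    ll n (X ^ 3), MvPolynomial.X 1 ^ Fintype.card k,
      (MvPolynomial.X 1 ^ Fintype.card k) ^ Fintype.card k]

noncomputable def NG (n : k[X]) : MvPolynomial (Fin 2) k :=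
  Matrix.det !![1, MvPolynomial.X 0, 1;
    MvPolynomial.X 0, MvPolynomial.X 1,
      (MvPolynomial.X 0 ^ Fintype.card k) ^ Fintype.card k;
    MvPolynomial.X 1, ll n (X ^ 3),
      (MvPolynomial.X 1 ^ Fintype.card k) ^ Fintype.card k]

noncomputable def ND (n : k[X]) : MvPolynomial (Fin 2) k :=
  Matrix.det !![1, 1, MvPolynomial.X 0;
    MvPolynomial.X 0, MvPolynomial.X 0 ^ Fintype.card k, MvPolynomial.X 1;
    MvPolynomial.X 1, MvPolynomial.X 1 ^ Fintype.card k, ll n (X ^ 3)]

theorem ev_X0 (w : Om k) : ev w (MvPolynomial.X 0) = ee w X := by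
  simp [ev]

theorem ev_X1 (w : Om k) : ev w (MvPolynomial.X 1) = ee w (X ^ 2) := by
  simp [ev]

theorem ev_C (w : Om k) (c : k) : ev w (MvPolynomial.C c) = algebraMap k (Om k) c := by
  simp [ev]

theorem ev_ll {n : k[X]} {w : Om k} (h : IsGen n w) (hn : n.Monic) (hn3 : n.natDegree = 3)
    (a : k[X]) : ev w (ll n a) = ee w a := by
  rw [ee_lin h hn hn3 a]
  simp only [ll, map_add, map_mul, ev_X0, ev_X1, ev_C]

theorem ev_MM (w : Om k) : ev w (MM k) = Matrix.det !![1, 1, 1;
      ee w X, ee w X ^ Fintype.card k, (ee w X ^ Fintype.card k) ^ Fintype.card k;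
      ee w (X ^ 2), ee w (X ^ 2) ^ Fintype.card k,
        (ee w (X ^ 2) ^ Fintype.card k) ^ Fintype.card k] := by
  simp only [MM, Matrix.det_fin_three, Matrix.of_apply, Matrix.cons_val', Matrix.cons_val_zero,
    Matrix.cons_val_one, Matrix.cons_val, map_add, map_sub, map_mul, map_pow, map_one, ev_X0, ev_X1]

theorem ev_MM_ne {n : k[X]} {w : Om k} (h : IsGen n w) (hn : n.Monic) (hn3 : n.natDegree = 3) :
    ev w (MM k) ≠ 0 := by
  have hw : w ≠ 0 := gen_ne_zero h (by omega)
  have h1 := moore (k := k) (1 : Om k) (ee w X) (ee w (X ^ 2)) (by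
    intro a b c habc
    have h2 : ee w (C a + C b * X + C c * X ^ 2) = 0 := by
      have : (C a + C b * X + C c * X ^ 2 : k[X]) = a • 1 + b • X + c • X ^ 2 := by
        simp only [smul_eq_C_mul, mul_one]
      rw [this, ee_add, ee_add, ee_smul, ee_smul, ee_smul, ee_one hw]
      simpa only [Algebra.smul_def] using habc
    rw [ee_eq_zero h hw] at h2
    have h3 : (C a + C b * X + C c * X ^ 2 : k[X]) = 0 := by
      apply eq_zero_of_dvd_of_natDegree_lt h2
      rw [hn3]
      have : (C a + C b * X + C c * X ^ 2 : k[X]).natDegree ≤ 2 := by compute_degree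
      omega
    have e0 := congrArg (fun p => coeff p 0) h3
    have e1 := congrArg (fun p => coeff p 1) h3
    have e2 := congrArg (fun p => coeff p 2) h3
    simp [coeff_X, coeff_C] at e0 e1 e2
    exact ⟨e0, e1, e2⟩)
  rw [ev_MM]
  simpa only [one_pow] using h1

theorem eqs {n : k[X]} {w : Om k} (h : IsGen n w) (hn : n.Monic) (hn3 : n.natDegree = 3) :
    ee w X = tt k + GG w + DD w ∧
    ee w (X ^ 2) = tt k * ee w X + GG w * ee w X ^ Fintype.card k
      + DD w * (ee w X ^ Fintype.card k) ^ Fintype.card k ∧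
    ev w (ll n (X ^ 3)) = tt k * ee w (X ^ 2) + GG w * ee w (X ^ 2) ^ Fintype.card k
      + DD w * (ee w (X ^ 2) ^ Fintype.card k) ^ Fintype.card k := by
  have hw : w ≠ 0 := gen_ne_zero h (by omega)
  refine ⟨?_, ?_, ?_⟩
  · have := ee_succ hw (1 : k[X])
    rw [mul_one, ee_one hw] at this
    rw [this, one_pow, one_pow, mul_one, mul_one, mul_one]
  · have := ee_succ hw (X : k[X])
    rw [← pow_two] at this
    exact this
  · have := ee_succ hw (X ^ 2 : k[X])
    rw [← pow_succ'] at this
    rw [ev_ll h hn hn3]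
    exact this

theorem ev_NT {n : k[X]} {w : Om k} (h : IsGen n w) (hn : n.Monic) (hn3 : n.natDegree = 3) :
    ev w (NT n) = ev w (MM k) * tt k := by
  obtain ⟨h1, h2, h3⟩ := eqs h hn hn3
  simp only [NT, MM, Matrix.det_fin_three, Matrix.of_apply, Matrix.cons_val', Matrix.cons_val_zero,
    Matrix.cons_val_one, Matrix.cons_val, map_add, map_sub, map_mul, map_pow, map_one, ev_X0, ev_X1]
  rw [h3]
  generalize tt k = t at *
  generalize GG w = g at *
  generalize DD w = d at *
  generalize ee w X = x at *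
  generalize ee w (X ^ 2) = y at *
  generalize (x ^ Fintype.card k) ^ Fintype.card k = x2 at *
  generalize x ^ Fintype.card k = x1 at *
  generalize (y ^ Fintype.card k) ^ Fintype.card k = y2 at *
  generalize y ^ Fintype.card k = y1 at *
  linear_combination (x1 * y2 - x2 * y1) * h1 + (-y2 + y1) * h2

theorem ev_NG {n : k[X]} {w : Om k} (h : IsGen n w) (hn : n.Monic) (hn3 : n.natDegree = 3) :
    ev w (NG n) = ev w (MM k) * GG w := by
  obtain ⟨h1, h2, h3⟩ := eqs h hn hn3
  simp only [NG, MM, Matrix.det_fin_three, Matrix.of_apply, Matrix.cons_val', Matrix.cons_val_zero,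
    Matrix.cons_val_one, Matrix.cons_val, map_add, map_sub, map_mul, map_pow, map_one, ev_X0, ev_X1]
  rw [h3]
  generalize tt k = t at *
  generalize GG w = g at *
  generalize DD w = d at *
  generalize ee w X = x at *
  generalize ee w (X ^ 2) = y at *
  generalize (x ^ Fintype.card k) ^ Fintype.card k = x2 at *
  generalize x ^ Fintype.card k = x1 at *
  generalize (y ^ Fintype.card k) ^ Fintype.card k = y2 at *
  generalize y ^ Fintype.card k = y1 at *
  linear_combination (-x * y2 + x2 * y) * h1 + (y2 - y) * h2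

theorem ev_ND {n : k[X]} {w : Om k} (h : IsGen n w) (hn : n.Monic) (hn3 : n.natDegree = 3) :
    ev w (ND n) = ev w (MM k) * DD w := by
  obtain ⟨h1, h2, h3⟩ := eqs h hn hn3
  simp only [ND, MM, Matrix.det_fin_three, Matrix.of_apply, Matrix.cons_val', Matrix.cons_val_zero,
    Matrix.cons_val_one, Matrix.cons_val, map_add, map_sub, map_mul, map_pow, map_one, ev_X0, ev_X1]
  rw [h3]
  generalize tt k = t at *
  generalize GG w = g at *
  generalize DD w = d at *
  generalize ee w X = x at *
  generalize ee w (X ^ 2) = y at *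
  generalize (x ^ Fintype.card k) ^ Fintype.card k = x2 at *
  generalize x ^ Fintype.card k = x1 at *
  generalize (y ^ Fintype.card k) ^ Fintype.card k = y2 at *
  generalize y ^ Fintype.card k = y1 at *
  linear_combination (x * y1 - x1 * y) * h1 + (y - y1) * h2

theorem ev_j {n : k[X]} {w : Om k} (h : IsGen n w) (hn : n.Monic) (hn3 : n.natDegree = 3) :
    ev w (MM k ^ Fintype.card k * ND n) * jj k = ev w (NG n ^ (Fintype.card k + 1)) := by
  rw [map_pow, ev_NG h hn hn3, mul_pow, GG_pow, map_mul, map_pow, ev_ND h hn hn3]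
  ring

end Pool.Agent.Helper23.DM
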