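import Mathlib
set_option autoImplicit false
open Polynomial
open scoped Pointwise
namespace Pool.Agent.Helper23.DM

section
variable (k : Type) [Field k] [Fintype k]

/-- A separable closure `Ω` of the field `F(j)`, where `F = k(T)` and `T`, `j` are
indeterminates. -/
def Om : Type := SeparableClosure (RatFunc (RatFunc k))

/-- the field structure of `Ω` -/
noncomputable def omField : Field (SeparableClosure (RatFunc (RatFunc k))) := inferInstance

/-- the algebra structure of `Ω` -/
noncomputable def omAlg : Algebra (RatFunc (RatFunc k)) (SeparableClosure (RatFunc (RatFunc k))) :=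
  inferInstance

noncomputable instance instFieldOm : Field (Om k) := omField k

noncomputable instance instAlgOm : Algebra (RatFunc (RatFunc k)) (Om k) := omAlg k

theorem omSep : IsSepClosed (SeparableClosure (RatFunc (RatFunc k))) := inferInstance

theorem omGal : IsGalois (RatFunc (RatFunc k)) (SeparableClosure (RatFunc (RatFunc k))) :=
  inferInstance

instance instSepOm : IsSepClosed (Om k) := omSep k

instance instGalOm : IsGalois (RatFunc (RatFunc k)) (Om k) := omGal k

noncomputable instance : Algebra (RatFunc k) (Om k) :=
  ((algebraMap (RatFunc (RatFunc k)) (Om k)).comp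
    (algebraMap (RatFunc k) (RatFunc (RatFunc k)))).toAlgebra

noncomputable instance : IsScalarTower (RatFunc k) (RatFunc (RatFunc k)) (Om k) :=
  IsScalarTower.of_algebraMap_eq fun _ => rfl

noncomputable instance : Algebra k (Om k) :=
  ((algebraMap (RatFunc (RatFunc k)) (Om k)).comp
    (algebraMap k (RatFunc (RatFunc k)))).toAlgebra

noncomputable instance : IsScalarTower k (RatFunc (RatFunc k)) (Om k) :=
  IsScalarTower.of_algebraMap_eq fun _ => rfl

noncomputable instance : IsScalarTower k (RatFunc k) (Om k) :=
  IsScalarTower.of_algebraMap_eq fun _ => rfl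

noncomputable instance : Algebra (RatFunc k)[X] (Om k) :=
  ((algebraMap (RatFunc (RatFunc k)) (Om k)).comp
    (algebraMap (RatFunc k)[X] (RatFunc (RatFunc k)))).toAlgebra

noncomputable instance : IsScalarTower (RatFunc k)[X] (RatFunc (RatFunc k)) (Om k) :=
  IsScalarTower.of_algebraMap_eq fun _ => rfl

/-- The element `T` of `F = k(T)`, seen in `Ω`. -/
noncomputable def tt : Om k := algebraMap (RatFunc k) (Om k) RatFunc.X

/-- The element `j` of `F(j)`, seen in `Ω`. -/
noncomputable def jj : Om k := algebraMap (RatFunc (RatFunc k)) (Om k) RatFunc.X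

theorem frob_add (v w : Om k) :
    (v + w) ^ Fintype.card k = v ^ Fintype.card k + w ^ Fintype.card k :=
  map_add (FiniteField.frobeniusAlgHom k (Om k)) v w

theorem frob_smul (c : k) (v : Om k) :
    (c • v) ^ Fintype.card k = c • v ^ Fintype.card k :=
  map_smul (FiniteField.frobeniusAlgHom k (Om k)) c v

/-- The map `φ_T : v ↦ T v + j v^q + j^q v^(q²)` of `Ω`, where `q` is the number of elements
of `k`; this is the action of `T` through the Drinfeld `k[T]`-module of rank `2` with
`j`-invariant `j`. -/
noncomputable def phi : Module.End k (Om k) where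
  toFun v := tt k * v + jj k * v ^ Fintype.card k
    + jj k ^ Fintype.card k * (v ^ Fintype.card k) ^ Fintype.card k
  map_add' v w := by
    rw [frob_add, frob_add]
    ring
  map_smul' c v := by
    rw [frob_smul, frob_smul]
    simp only [RingHom.id_apply, mul_smul_comm, smul_add]

end

section
variable {k : Type} [Field k] [Fintype k]

/-- `λ` generates a submodule of `Ω` isomorphic to `k[T]/(n)` for the action `φ` of `k[T]`:
its annihilator is the ideal `(n)`. -/
def IsGen (n : k[X]) (lam : Om k) : Prop :=
  ∀ a : k[X], aeval (phi k) a lam = 0 ↔ n ∣ a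

/-- The submodule `C = k[T]·λ` of `Ω`. -/
def cyc (lam : Om k) : Set (Om k) := Set.range fun a : k[X] => aeval (phi k) a lam

/-- The function field of `X_0(n)` (over `F`), for `λ` with `IsGen n λ`: the subfield of `Ω`
fixed by all automorphisms of `Ω` over `F(j)` which map the submodule `C = k[T]·λ` onto
itself. -/
noncomputable def K0 (lam : Om k) : IntermediateField (RatFunc (RatFunc k)) (Om k) :=
  IntermediateField.fixedField
    (MulAction.stabilizer (Om k ≃ₐ[RatFunc (RatFunc k)] Om k) (cyc lam))

/-- A place of the function field `K ⊇ F(j)` over `F`: a valuation ring of `K`, containing `F`,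
different from `K`. -/
def IsPlace (K : IntermediateField (RatFunc (RatFunc k)) (Om k))
    (V : ValuationSubring K) : Prop :=
  (∀ c : RatFunc k, algebraMap (RatFunc k) K c ∈ V) ∧ V ≠ ⊤

/-- `f` has order `m` at the place `V`: for some uniformiser `π` of `V` (that is, `π ≠ 0` and
`π V` is the maximal ideal of `V`), `f / π ^ m` is a unit of `V`. -/
def HasOrd {K : Type*} [Field K] (V : ValuationSubring K) (f : K) (m : ℤ) : Prop :=
  ∃ π : K, π ≠ 0 ∧ (∀ z : K, V.valuation z < 1 ↔ z / π ∈ V) ∧
    V.valuation (f / π ^ m) = 1

end

end Pool.Agent.Helper23.DM
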