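import Pool.Agent.Helper23.DM.Bas
set_option autoImplicit false
open Polynomial
namespace Pool.Agent.Helper23.DM

/-!
DM-EXI (existence of a generator). `n = (X - a₁)(X - a₂)(X - a₃)`. Then there is `w` with
annihilator `(n)`.

Proof. For `a ∈ k` the map `φ_{X-a} : v ↦ (T - a) v + j v^q + j^q v^(q^2)` of `Ω` is `k`-linear; for
`u ∈ Ω` the polynomial `j^q Y^(q^2) + j Y^q + (T - a) Y - u` of degree `q^2` is separable (derivative
`T - a ≠ 0`, as `q = 0` in `Ω`) and `Ω` is separably closed, so it has exactly `q^2` roots. So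
`φ_{X-a}` is surjective with a kernel of `q^2` elements. So the kernel of a product of `m` such maps
has `q^(2m)` elements. The kernel of `φ_n` has `q^6` elements, and the kernels of `φ_{n/(X-a_i)}`,
`i = 1, 2, 3`, have `q^4` elements; `3 q^4 < q^6`. Take `w` in the kernel of `φ_n` and in none of
the three others. If `φ_a(w) = 0` and `n ∤ a`, then `g = gcd(a, n)` (a combination of `a` and `n`)
kills `w` and is a proper divisor of `n`, so it divides some `n/(X - a_i)`: contradiction.
-/

variable {k : Type} [Field k] [Fintype k]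

private theorem tt_ne75 (a : k) : tt k - algebraMap k (Om k) a ≠ 0 := by
  intro h
  have h1 : algebraMap (RatFunc k) (Om k) RatFunc.X = algebraMap (RatFunc k) (Om k) (algebraMap k (RatFunc k) a) := by
    rw [← IsScalarTower.algebraMap_apply k (RatFunc k) (Om k)]
    exact sub_eq_zero.1 h
  have h2 := (algebraMap (RatFunc k) (Om k)).injective h1
  have h3 : algebraMap k[X] (RatFunc k) X = algebraMap k[X] (RatFunc k) (C a) := by
    rw [RatFunc.algebraMap_X, RatFunc.algebraMap_C]
    exact h2
  exact X_ne_C a ((RatFunc.algebraMap_injective k) h3)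

private theorem jj_ne75 : jj k ≠ 0 := by
  intro h
  have h1 : algebraMap (RatFunc (RatFunc k)) (Om k) RatFunc.X = algebraMap (RatFunc (RatFunc k)) (Om k) 0 := by
    rw [map_zero]
    exact h
  exact RatFunc.X_ne_zero ((algebraMap (RatFunc (RatFunc k)) (Om k)).injective h1)

private theorem q0_75 : ((Fintype.card k : ℕ) : Om k) = 0 := by
  have h1 := congrArg (algebraMap k (Om k)) (FiniteField.cast_card_eq_zero k)
  rwa [map_natCast, map_zero] at h1

/-- the polynomial whose roots are the preimages of `u` -/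
private noncomputable def pu75 (a : k) (u : Om k) : (Om k)[X] :=
  C (jj k ^ Fintype.card k) * X ^ (Fintype.card k * Fintype.card k) +
    (C (jj k) * X ^ Fintype.card k + C (tt k - algebraMap k (Om k) a) * X - C u)

private theorem aeval75 (a : k) (v : Om k) : aeval (phi k) (X - C a) v = phi k v - algebraMap k (Om k) a * v := by
  rw [map_sub, aeval_X, aeval_C, LinearMap.sub_apply, Module.algebraMap_end_apply, Algebra.smul_def]

private theorem eval75 (a : k) (u v : Om k) : (pu75 a u).eval v = aeval (phi k) (X - C a) v - u := by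
  rw [aeval75, phi_apply]
  unfold pu75
  simp only [eval_add, eval_sub, eval_mul, eval_pow, eval_X, eval_C]
  rw [pow_mul]
  ring

private theorem deg75 (a : k) (u : Om k) : (pu75 a u).natDegree = Fintype.card k * Fintype.card k := by
  have hq : 1 < Fintype.card k := Fintype.one_lt_card
  have h1 : (C (jj k ^ Fintype.card k) * X ^ (Fintype.card k * Fintype.card k) : (Om k)[X]).natDegree =
      Fintype.card k * Fintype.card k := natDegree_C_mul_X_pow _ _ (pow_ne_zero _ jj_ne75)
  have h2 : (C (jj k) * X ^ Fintype.card k + C (tt k - algebraMap k (Om k) a) * X - C u : (Om k)[X]).natDegree ≤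
      Fintype.card k := by
    refine (natDegree_sub_le _ _).trans (max_le ((natDegree_add_le _ _).trans (max_le ?_ ?_)) ?_)
    · exact natDegree_C_mul_X_pow_le _ _
    · exact (natDegree_C_mul_le _ _).trans (natDegree_X_le.trans hq.le)
    · rw [natDegree_C]
      exact Nat.zero_le _
  unfold pu75
  rw [natDegree_add_eq_left_of_natDegree_lt, h1]
  rw [h1]
  refine h2.trans_lt ?_
  calc Fintype.card k = Fintype.card k * 1 := (mul_one _).symm
    _ < Fintype.card k * Fintype.card k := Nat.mul_lt_mul_of_pos_left hq (by omega)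

private theorem isCoprime_of_isUnit75 {R : Type} [CommRing R] {x y : R} (h : IsUnit x) : IsCoprime x y := by
  obtain ⟨u, rfl⟩ := h
  exact ⟨((u⁻¹ : Rˣ) : R), 0, by rw [zero_mul, add_zero, Units.inv_mul]⟩

private theorem sep75 (a : k) (u : Om k) : (pu75 a u).Separable := by
  have h1 : derivative (pu75 a u) = C (tt k - algebraMap k (Om k) a) := by
    unfold pu75
    simp only [derivative_add, derivative_sub, derivative_mul, derivative_C, derivative_X_pow, derivative_X, zero_mul,
      Nat.cast_mul, q0_75, map_zero, mul_zero, zero_add, mul_one, sub_zero, C_0]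
  unfold Separable
  rw [h1]
  have h2 : IsUnit (C (tt k - algebraMap k (Om k) a) : (Om k)[X]) := isUnit_C.2 (isUnit_iff_ne_zero.2 (tt_ne75 a))
  exact (IsCoprime.symm (isCoprime_of_isUnit75 h2))

private theorem roots75 (a : k) (u : Om k) :
    {v : Om k | aeval (phi k) (X - C a) v = u}.ncard = Fintype.card k * Fintype.card k := by
  classical
  have h0 : pu75 a u ≠ 0 := by
    intro h
    have h1 := deg75 a u
    rw [h, natDegree_zero] at h1
    have hq : 1 < Fintype.card k := Fintype.one_lt_card
    have h2 : 0 < Fintype.card k * Fintype.card k := Nat.mul_pos (by omega) (by omega)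
    omega
  have h1 := (IsSepClosed.splits_of_separable _ (sep75 a u)).natDegree_eq_card_roots
  have h2 := nodup_roots (sep75 a u)
  have h3 : {v : Om k | aeval (phi k) (X - C a) v = u} = ((pu75 a u).roots.toFinset : Set (Om k)) := by
    ext v
    rw [Set.mem_setOf_eq, Finset.mem_coe, Multiset.mem_toFinset, mem_roots h0, IsRoot.def, eval75, sub_eq_zero]
  rw [h3, Set.ncard_coe_finset, Multiset.toFinset_card_of_nodup h2, ← h1, deg75]

private theorem surj75 (a : k) : Function.Surjective (aeval (phi k) (X - C a) : Module.End k (Om k)) := by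
  intro u
  have h1 := roots75 a u
  have hq : 1 < Fintype.card k := Fintype.one_lt_card
  have h2 : 0 < Fintype.card k * Fintype.card k := Nat.mul_pos (by omega) (by omega)
  have h3 : {v : Om k | aeval (phi k) (X - C a) v = u}.Nonempty := by
    rw [Set.nonempty_iff_ne_empty]
    intro h
    rw [h, Set.ncard_empty] at h1
    omega
  obtain ⟨v, hv⟩ := h3
  exact ⟨v, hv⟩

private theorem ker75 (a : k) : Nat.card (LinearMap.ker (aeval (phi k) (X - C a) : Module.End k (Om k))) =
    Fintype.card k ^ 2 := by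
  rw [sq, ← roots75 a 0, ← Nat.card_coe_set_eq]
  rfl

private theorem kermul75 {V : Type} [AddCommGroup V] [Module k V] (f g : Module.End k V)
    (hg : Function.Surjective g) :
    Nat.card (LinearMap.ker (f * g)) = Nat.card (LinearMap.ker g) * Nat.card (LinearMap.ker f) := by
  have hr : ∀ x ∈ LinearMap.ker (f * g), g x ∈ LinearMap.ker f := by
    intro x hx
    rw [LinearMap.mem_ker] at hx ⊢
    exact hx
  obtain ⟨h, hh⟩ : ∃ h : LinearMap.ker (f * g) →ₗ[k] LinearMap.ker f, h = g.restrict hr := ⟨_, rfl⟩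
  have hs : Function.Surjective h := by
    rintro ⟨y, hy⟩
    obtain ⟨x, hx⟩ := hg y
    refine ⟨⟨x, ?_⟩, ?_⟩
    · rw [LinearMap.mem_ker] at hy ⊢
      change f (g x) = 0
      rw [hx, hy]
    · rw [hh]
      exact Subtype.ext hx
  have hval : ∀ x, ((h x : LinearMap.ker f) : V) = g x := by
    intro x
    rw [hh]
    rfl
  have e1 := Submodule.card_eq_card_quotient_mul_card (LinearMap.ker h)
  rw [e1, Nat.card_congr (LinearMap.quotKerEquivOfSurjective h hs).toEquiv]
  congr 1
  refine Nat.card_congr ⟨fun x => ⟨x.1.1, ?_⟩, fun x => ⟨⟨x.1, ?_⟩, ?_⟩, fun x => ?_, fun x => ?_⟩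
  · have h2 : h x.1 = 0 := LinearMap.mem_ker.1 x.2
    rw [LinearMap.mem_ker, ← hval, h2]
    rfl
  · have h2 := x.2
    rw [LinearMap.mem_ker] at h2 ⊢
    change f (g x.1) = 0
    rw [h2, map_zero]
  · rw [LinearMap.mem_ker]
    exact Subtype.ext ((hval _).trans x.2)
  · rfl
  · rfl

private theorem ker2_75 (a b : k) : Nat.card (LinearMap.ker (aeval (phi k) ((X - C a) * (X - C b)) : Module.End k (Om k))) =
    Fintype.card k ^ 4 := by
  rw [map_mul, kermul75 _ _ (surj75 b), ker75, ker75, ← pow_add]

private theorem ker3_75 (a b c : k) :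
    Nat.card (LinearMap.ker (aeval (phi k) ((X - C a) * (X - C b) * (X - C c)) : Module.End k (Om k))) =
    Fintype.card k ^ 6 := by
  rw [map_mul, kermul75 _ _ (surj75 c), ker75, ker2_75, ← pow_add]

private theorem dvd75 {g m c : k[X]} {a : k} (hm : m * (X - C a) = g * c) (hc : (X - C a) ∣ c) : g ∣ m := by
  obtain ⟨d, rfl⟩ := hc
  refine ⟨d, ?_⟩
  have h0 : (X - C a : k[X]) ≠ 0 := X_sub_C_ne_zero a
  apply mul_right_cancel₀ h0
  rw [hm]
  ring

theorem exists_gen (a₁ a₂ a₃ : k) :
    ∃ w : Om k, IsGen ((X - C a₁) * (X - C a₂) * (X - C a₃)) w := by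
  classical
  have hq : 1 < Fintype.card k := Fintype.one_lt_card
  -- the point
  obtain ⟨w, hw, hw1, hw2, hw3⟩ : ∃ w : Om k, aeval (phi k) ((X - C a₁) * (X - C a₂) * (X - C a₃)) w = 0 ∧
      aeval (phi k) ((X - C a₁) * (X - C a₂)) w ≠ 0 ∧ aeval (phi k) ((X - C a₁) * (X - C a₃)) w ≠ 0 ∧
      aeval (phi k) ((X - C a₂) * (X - C a₃)) w ≠ 0 := by
    by_contra hcon
    push Not at hcon
    have c12 := ker2_75 a₁ a₂
    have c13 := ker2_75 a₁ a₃
    have c23 := ker2_75 a₂ a₃
    have c123 := ker3_75 a₁ a₂ a₃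
    obtain ⟨K12, h12⟩ : ∃ K, K = LinearMap.ker (aeval (phi k) ((X - C a₁) * (X - C a₂)) : Module.End k (Om k)) := ⟨_, rfl⟩
    obtain ⟨K13, h13⟩ : ∃ K, K = LinearMap.ker (aeval (phi k) ((X - C a₁) * (X - C a₃)) : Module.End k (Om k)) := ⟨_, rfl⟩
    obtain ⟨K23, h23⟩ : ∃ K, K = LinearMap.ker (aeval (phi k) ((X - C a₂) * (X - C a₃)) : Module.End k (Om k)) := ⟨_, rfl⟩
    obtain ⟨K, h123⟩ : ∃ K, K = LinearMap.ker (aeval (phi k) ((X - C a₁) * (X - C a₂) * (X - C a₃)) : Module.End k (Om k)) :=
      ⟨_, rfl⟩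
    rw [← h12] at c12
    rw [← h13] at c13
    rw [← h23] at c23
    rw [← h123] at c123
    have hsub : (K : Set (Om k)) ⊆ (K12 : Set (Om k)) ∪ ((K13 : Set (Om k)) ∪ (K23 : Set (Om k))) := by
      intro w hw
      rw [SetLike.mem_coe, h123, LinearMap.mem_ker] at hw
      by_cases h1 : w ∈ K12
      · exact Or.inl h1
      by_cases h2 : w ∈ K13
      · exact Or.inr (Or.inl h2)
      · refine Or.inr (Or.inr ?_)
        rw [SetLike.mem_coe, h23, LinearMap.mem_ker]
        exact hcon w hw (fun h => h1 (by rw [h12, LinearMap.mem_ker]; exact h))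
          (fun h => h2 (by rw [h13, LinearMap.mem_ker]; exact h))
    have q4 : 0 < Fintype.card k ^ 4 := pow_pos (by omega) 4
    have f12 : (K12 : Set (Om k)).Finite := by
      have : Finite K12 := Nat.finite_of_card_ne_zero (by rw [c12]; exact q4.ne')
      exact Set.toFinite _
    have f13 : (K13 : Set (Om k)).Finite := by
      have : Finite K13 := Nat.finite_of_card_ne_zero (by rw [c13]; exact q4.ne')
      exact Set.toFinite _
    have f23 : (K23 : Set (Om k)).Finite := by
      have : Finite K23 := Nat.finite_of_card_ne_zero (by rw [c23]; exact q4.ne')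
      exact Set.toFinite _
    have h1 := Set.ncard_le_ncard hsub (f12.union (f13.union f23))
    have h2 := Set.ncard_union_le (K12 : Set (Om k)) ((K13 : Set (Om k)) ∪ (K23 : Set (Om k)))
    have h3 := Set.ncard_union_le (K13 : Set (Om k)) (K23 : Set (Om k))
    have n12 : (K12 : Set (Om k)).ncard = Fintype.card k ^ 4 := by rw [← Nat.card_coe_set_eq]; exact c12
    have n13 : (K13 : Set (Om k)).ncard = Fintype.card k ^ 4 := by rw [← Nat.card_coe_set_eq]; exact c13
    have n23 : (K23 : Set (Om k)).ncard = Fintype.card k ^ 4 := by rw [← Nat.card_coe_set_eq]; exact c23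
    have n123 : (K : Set (Om k)).ncard = Fintype.card k ^ 6 := by rw [← Nat.card_coe_set_eq]; exact c123
    have h4 : 3 * Fintype.card k ^ 4 < Fintype.card k ^ 6 := by
      have h5 : 3 < Fintype.card k ^ 2 := by nlinarith
      calc 3 * Fintype.card k ^ 4 < Fintype.card k ^ 2 * Fintype.card k ^ 4 := Nat.mul_lt_mul_of_pos_right h5 q4
        _ = Fintype.card k ^ 6 := by rw [← pow_add]
    omega
  refine ⟨w, fun a => ⟨fun ha => ?_, fun ha => ?_⟩⟩
  · by_contra hna
    obtain ⟨n, hn⟩ : ∃ n, n = (X - C a₁) * (X - C a₂) * (X - C a₃) := ⟨_, rfl⟩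
    rw [← hn] at hna hw
    have hn0 : n ≠ 0 := by
      rw [hn]
      exact mul_ne_zero (mul_ne_zero (X_sub_C_ne_zero _) (X_sub_C_ne_zero _)) (X_sub_C_ne_zero _)
    obtain ⟨g, hg⟩ : ∃ g, g = EuclideanDomain.gcd a n := ⟨_, rfl⟩
    have hga : g ∣ a := by rw [hg]; exact EuclideanDomain.gcd_dvd_left a n
    have hgn : g ∣ n := by rw [hg]; exact EuclideanDomain.gcd_dvd_right a n
    have hgw : aeval (phi k) g w = 0 := by
      rw [hg, EuclideanDomain.gcd_eq_gcd_ab, mul_comm a, mul_comm n, map_add, LinearMap.add_apply, aeval_mul_apply',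
        aeval_mul_apply', ha, hw, map_zero, map_zero, add_zero]
    have kill : ∀ m, g ∣ m → aeval (phi k) m w = 0 := by
      rintro m ⟨d, rfl⟩
      rw [mul_comm, aeval_mul_apply', hgw, map_zero]
    obtain ⟨c, hc⟩ := hgn
    have hc0 : c ≠ 0 := by
      rintro rfl
      exact hn0 (by rw [hc, mul_zero])
    have hcu : ¬ IsUnit c := by
      intro hu
      apply hna
      obtain ⟨u, hu⟩ := hu
      refine dvd_trans ?_ hga
      rw [hc, ← hu]
      exact (Units.mul_right_dvd).2 dvd_rfl
    obtain ⟨p, hp, hpc⟩ := WfDvdMonoid.exists_irreducible_factor hcu hc0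
    have hpn : p ∣ (X - C a₁) * (X - C a₂) * (X - C a₃) := by
      rw [← hn, hc]
      exact Dvd.dvd.mul_left hpc g
    have key : ∀ a : k, p ∣ (X - C a) → (X - C a) ∣ c := by
      intro a h
      exact (((hp.dvd_irreducible_iff_associated (irreducible_X_sub_C a)).1 h).symm.dvd).trans hpc
    rcases hp.prime.dvd_or_dvd hpn with h | h3
    · rcases hp.prime.dvd_or_dvd h with h1 | h2
      · refine hw3 (kill _ (dvd75 (a := a₁) (c := c) ?_ (key a₁ h1)))
        rw [← hc, hn]
        ring
      · refine hw2 (kill _ (dvd75 (a := a₂) (c := c) ?_ (key a₂ h2)))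
        rw [← hc, hn]
        ring
    · refine hw1 (kill _ (dvd75 (a := a₃) (c := c) ?_ (key a₃ h3)))
      rw [← hc, hn]
  · obtain ⟨d, rfl⟩ := ha
    rw [mul_comm, aeval_mul_apply', hw, map_zero]

end Pool.Agent.Helper23.DM
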