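import Mathlib
set_option autoImplicit false
open Polynomial
namespace Pool.Agent.Helper23.DM.Gen

/-!
Definitions for the final statement. `k` is a finite field with `q` elements, `RatFunc k` is
`F = k(T)` and `RatFunc (RatFunc k)` is `F(j)`; `Ω` is any extension field of `F(j)`.
-/

section
variable (k : Type) [Field k] [Fintype k] (Ω : Type) [Field Ω] [Algebra (RatFunc (RatFunc k)) Ω]

/-- The element `T`, seen in `Ω`. -/
noncomputable def elT : Ω := algebraMap (RatFunc (RatFunc k)) Ω (RatFunc.C RatFunc.X)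

/-- The element `j`, seen in `Ω`. -/
noncomputable def elj : Ω := algebraMap (RatFunc (RatFunc k)) Ω RatFunc.X

/-- `φ_T(v) = T v + j v^q + j^q v^(q^2)`, `q` the number of elements of `k`: the action of `T`
through the Drinfeld `k[T]`-module of rank `2` over `F(j)` with `j`-invariant `j`. -/
noncomputable def phiT (v : Ω) : Ω :=
  elT k Ω * v + elj k Ω * v ^ Fintype.card k
    + elj k Ω ^ Fintype.card k * v ^ (Fintype.card k ^ 2)

variable {k} {Ω}

/-- `φ_a(v) = ∑ a_i φ_T^i(v)` for `a = ∑ a_i T^i ∈ k[T]`. -/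
noncomputable def phiA (a : k[X]) (v : Ω) : Ω :=
  ∑ i ∈ Finset.range (a.natDegree + 1),
    algebraMap (RatFunc (RatFunc k)) Ω (RatFunc.C (RatFunc.C (a.coeff i))) * (phiT k Ω)^[i] v

/-- The annihilator of `lam` in `k[T]` is `(n)`: `lam` generates a `k[T]`-submodule of `Ω`
isomorphic to `k[T]/(n)`. -/
def IsGenerator (n : k[X]) (lam : Ω) : Prop := ∀ a : k[X], phiA a lam = 0 ↔ n ∣ a

variable (k) in
/-- The submodule `C = {φ_a(lam)}` generated by `lam`. -/
def submod (lam : Ω) : Set Ω := Set.range fun a : k[X] => phiA a lam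

/-- `ι : K → Ω` identifies `K` with the subfield of `Ω` fixed by all automorphisms of `Ω` over
`F(j)` mapping the submodule `C` generated by `lam` onto itself. For a generator `lam`, this
subfield is the function field of `X_0(n)`. -/
def IsFunField {K : Type} [Field K] [Algebra (RatFunc (RatFunc k)) K] (lam : Ω)
    (ι : K →ₐ[RatFunc (RatFunc k)] Ω) : Prop :=
  ∀ z : Ω, z ∈ Set.range ι ↔
    ∀ σ : Ω ≃ₐ[RatFunc (RatFunc k)] Ω, σ '' submod k lam = submod k lam → σ z = z

end

section
variable (k : Type) [Field k] {K : Type} [Field K] [Algebra (RatFunc (RatFunc k)) K]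

/-- `B` is the set of elements of `K` which are integral over `F[j]`: the coordinate ring of
`Y_0(n)`, if `K` is the function field of `X_0(n)`. -/
def IsCoord (B : Subring K) : Prop :=
  ∀ z : K, z ∈ B ↔ ((algebraMap (RatFunc (RatFunc k)) K).comp
    (algebraMap (RatFunc k)[X] (RatFunc (RatFunc k)))).IsIntegralElem z

/-- A place of `K` over `F`: a valuation ring of `K` which contains `F` and is not `K`. -/
def IsPlc (V : ValuationSubring K) : Prop :=
  (∀ c : RatFunc k, algebraMap (RatFunc (RatFunc k)) K (RatFunc.C c) ∈ V) ∧ V ≠ ⊤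

/-- The place `V` is a cusp: `j ∉ V`. -/
def IsCusp (V : ValuationSubring K) : Prop :=
  algebraMap (RatFunc (RatFunc k)) K RatFunc.X ∉ V

end

/-- `f` has order `m` at the place `V`: for some uniformiser `π` of `V` (that is, `π ≠ 0` and
`π V` is the maximal ideal of `V`), `f / π ^ m` is a unit of `V`. -/
def HasOrder {K : Type} [Field K] (V : ValuationSubring K) (f : K) (m : ℤ) : Prop :=
  ∃ π : K, π ≠ 0 ∧ (∀ z : K, V.valuation z < 1 ↔ z / π ∈ V) ∧
    V.valuation (f / π ^ m) = 1

end Pool.Agent.Helper23.DM.Gen
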