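import Pool.Agent.Helper23.DM.Bas
set_option autoImplicit false
open Polynomial
namespace Pool.Agent.Helper23.DM

/-!
DM-GEX (existence of a generator, any monic `n` of degree 3; only Bas.lean). (Exi.lean does the
case of three linear factors.)

Proof. Let `Q_0 = X`, `Q_{i+1} = C T * Q_i + C j * Q_i^q + C j^q * (Q_i^q)^q` in `Ω[X]`;
`Q_i(v) = φ_{T^i}(v)` for `v ∈ Ω`, `Q_i` has degree exactly `q^(2i)`, and its derivative is the
constant `T^i` (`q = 0` in `Ω`). For `a ∈ k[X]` of degree `m`, `a ≠ 0`, let
`P_a = ∑ C a_i * Q_i`: degree exactly `q^(2m)`, derivative the constant `a(T) ≠ 0`, so `P_a` is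
separable; `Ω` is separably closed; so `ker φ_a = {roots of P_a}` has exactly `q^(2m)` elements.
Let `n` be monic of degree 3; the monic prime factors `p` of `n` are at most 3 in number, and
`ker φ_{n/p}` has `q^(2(3 - deg p)) ≤ q^4` elements; `3 q^4 < q^6`. Take `w` in `ker φ_n` and in none
of the `ker φ_{n/p}`. If `φ_a(w) = 0` and `n ∤ a`, then `g = gcd(a, n)` (a combination of `a` and `n`)
kills `w` and is a proper divisor of `n`, so it divides some `n/p`: contradiction.
-/

variable {k : Type} [Field k] [Fintype k]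

private theorem jj_neH : jj k ≠ 0 := by
  intro h
  have h1 : algebraMap (RatFunc (RatFunc k)) (Om k) RatFunc.X = algebraMap (RatFunc (RatFunc k)) (Om k) 0 := by
    rw [map_zero]
    exact h
  exact RatFunc.X_ne_zero ((algebraMap (RatFunc (RatFunc k)) (Om k)).injective h1)

private theorem q0H : ((Fintype.card k : ℕ) : Om k) = 0 := by
  have h1 := congrArg (algebraMap k (Om k)) (FiniteField.cast_card_eq_zero k)
  rwa [map_natCast, map_zero] at h1

private theorem qposH : 1 < Fintype.card k := Fintype.one_lt_card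

/-- the polynomial of `φ_{T^i}` -/
private noncomputable def QH (k : Type) [Field k] [Fintype k] : ℕ → (Om k)[X]
  | 0 => X
  | i + 1 => C (tt k) * QH k i + C (jj k) * QH k i ^ Fintype.card k +
      C (jj k ^ Fintype.card k) * (QH k i ^ Fintype.card k) ^ Fintype.card k

private theorem evalQH (i : ℕ) (v : Om k) : (QH k i).eval v = ((phi k) ^ i) v := by
  induction i with
  | zero => simp [QH]
  | succ i ih =>
    rw [pow_succ', Module.End.mul_apply, ← ih, phi_apply]
    simp only [QH, eval_add, eval_mul, eval_pow, eval_C]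

private theorem degQH (i : ℕ) : (QH k i).natDegree = Fintype.card k ^ (2 * i) := by
  have hq : 1 < Fintype.card k := qposH
  induction i with
  | zero => simp [QH]
  | succ i ih =>
    have hp : 0 < Fintype.card k ^ (2 * i) := pow_pos (by omega) _
    have h3 : (C (jj k ^ Fintype.card k) * (QH k i ^ Fintype.card k) ^ Fintype.card k).natDegree =
        Fintype.card k ^ (2 * (i + 1)) := by
      rw [natDegree_C_mul (pow_ne_zero _ jj_neH), natDegree_pow, natDegree_pow, ih]
      ring
    have h1 : (C (tt k) * QH k i + C (jj k) * QH k i ^ Fintype.card k).natDegree ≤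
        Fintype.card k * Fintype.card k ^ (2 * i) := by
      refine (natDegree_add_le _ _).trans (max_le ?_ ?_)
      · refine (natDegree_C_mul_le _ _).trans ?_
        rw [ih]
        nlinarith
      · refine (natDegree_C_mul_le _ _).trans ?_
        rw [natDegree_pow, ih]
    have h4 : Fintype.card k * Fintype.card k ^ (2 * i) < Fintype.card k ^ (2 * (i + 1)) := by
      have : Fintype.card k ^ (2 * (i + 1)) = Fintype.card k * (Fintype.card k * Fintype.card k ^ (2 * i)) := by
        ring
      rw [this]
      have h5 : 0 < Fintype.card k * Fintype.card k ^ (2 * i) := Nat.mul_pos (by omega) hp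
      nlinarith
    rw [QH, natDegree_add_eq_right_of_natDegree_lt, h3]
    rw [h3]
    exact h1.trans_lt h4

private theorem derQH (i : ℕ) : derivative (QH k i) = C (tt k ^ i) := by
  induction i with
  | zero => simp [QH]
  | succ i ih =>
    simp only [QH, derivative_add, derivative_mul, derivative_C, derivative_pow, zero_mul, zero_add, ih,
      q0H, C_0, zero_mul, mul_zero, add_zero, pow_succ', C_mul]

/-- the polynomial of `φ_a` -/
private noncomputable def PH (a : k[X]) : (Om k)[X] :=
  ∑ i ∈ Finset.range (a.natDegree + 1), C (algebraMap k (Om k) (a.coeff i)) * QH k i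

private theorem evalPH (a : k[X]) (v : Om k) : (PH a).eval v = aeval (phi k) a v := by
  unfold PH
  rw [eval_finsetSum, aeval_eq_sum_range, LinearMap.sum_apply]
  refine Finset.sum_congr rfl fun i _ => ?_
  rw [eval_mul, eval_C, evalQH, LinearMap.smul_apply, Algebra.smul_def]

private theorem derPH (a : k[X]) :
    derivative (PH a) = C (algebraMap (RatFunc k) (Om k) (algebraMap k[X] (RatFunc k) a)) := by
  have h1 : algebraMap (RatFunc k) (Om k) (algebraMap k[X] (RatFunc k) a) =
      ∑ i ∈ Finset.range (a.natDegree + 1), algebraMap k (Om k) (a.coeff i) * tt k ^ i := by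
    conv_lhs => rw [a.as_sum_range_C_mul_X_pow]
    rw [map_sum, map_sum]
    refine Finset.sum_congr rfl fun i _ => ?_
    rw [map_mul, map_mul, map_pow, map_pow, RatFunc.algebraMap_X, RatFunc.algebraMap_C,
      IsScalarTower.algebraMap_apply k (RatFunc k) (Om k)]
    rfl
  rw [h1]
  unfold PH
  rw [derivative_sum, map_sum]
  refine Finset.sum_congr rfl fun i _ => ?_
  rw [derivative_mul, derivative_C, zero_mul, zero_add, derQH, C_mul]

private theorem degPH (a : k[X]) (ha : a ≠ 0) : (PH a).natDegree = Fintype.card k ^ (2 * a.natDegree) := by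
  have hq : 1 < Fintype.card k := qposH
  have hlt : ∀ i j : ℕ, i < j → Fintype.card k ^ (2 * i) < Fintype.card k ^ (2 * j) := fun i j h =>
    Nat.pow_lt_pow_right hq (by omega)
  have hlead : (C (algebraMap k (Om k) (a.coeff a.natDegree)) * QH k a.natDegree).natDegree =
      Fintype.card k ^ (2 * a.natDegree) := by
    rw [natDegree_C_mul, degQH]
    rw [Ne, map_eq_zero, coeff_natDegree, leadingCoeff_eq_zero]
    exact ha
  unfold PH
  rw [Finset.sum_range_succ]
  rcases Nat.eq_zero_or_pos a.natDegree with h0 | h0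
  · rw [h0] at hlead ⊢
    rw [Finset.sum_range_zero, zero_add]
    exact hlead
  · have hrest : (∑ i ∈ Finset.range a.natDegree, C (algebraMap k (Om k) (a.coeff i)) * QH k i).natDegree ≤
        Fintype.card k ^ (2 * (a.natDegree - 1)) := by
      refine natDegree_sum_le_of_forall_le _ _ fun i hi => ?_
      rw [Finset.mem_range] at hi
      refine (natDegree_C_mul_le _ _).trans ?_
      rw [degQH]
      exact Nat.pow_le_pow_right (by omega) (by omega)
    rw [natDegree_add_eq_right_of_natDegree_lt, hlead]
    rw [hlead]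
    exact hrest.trans_lt (hlt _ _ (by omega))

private theorem sepPH (a : k[X]) (ha : a ≠ 0) : (PH a).Separable := by
  unfold Separable
  rw [derPH]
  have h1 : algebraMap (RatFunc k) (Om k) (algebraMap k[X] (RatFunc k) a) ≠ 0 := by
    rw [Ne, map_eq_zero]
    intro h
    exact ha (RatFunc.algebraMap_injective k (by rw [h, map_zero]))
  have h2 : IsUnit (C (algebraMap (RatFunc k) (Om k) (algebraMap k[X] (RatFunc k) a)) : (Om k)[X]) :=
    isUnit_C.2 (isUnit_iff_ne_zero.2 h1)
  obtain ⟨u, hu⟩ := h2
  rw [← hu]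
  exact ⟨0, ((u⁻¹ : ((Om k)[X])ˣ) : (Om k)[X]), by rw [zero_mul, zero_add, Units.inv_mul]⟩

open Classical in
/-- the kernel of `φ_a` -/
private noncomputable def KH (a : k[X]) : Finset (Om k) := (PH a).roots.toFinset

private theorem memKH (a : k[X]) (ha : a ≠ 0) (v : Om k) : v ∈ KH a ↔ aeval (phi k) a v = 0 := by
  classical
  have h0 : PH a ≠ 0 := by
    intro h
    have h1 := degPH a ha
    rw [h, natDegree_zero] at h1
    have hq : 1 < Fintype.card k := qposH
    have : 0 < Fintype.card k ^ (2 * a.natDegree) := pow_pos (by omega) _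
    omega
  unfold KH
  rw [Multiset.mem_toFinset, mem_roots h0, IsRoot.def, evalPH]

private theorem cardKH (a : k[X]) (ha : a ≠ 0) : (KH a).card = Fintype.card k ^ (2 * a.natDegree) := by
  classical
  have h1 := (IsSepClosed.splits_of_separable _ (sepPH a ha)).natDegree_eq_card_roots
  have h2 := nodup_roots (sepPH a ha)
  unfold KH
  rw [Multiset.toFinset_card_of_nodup h2, ← h1, degPH a ha]

private theorem facH (n : k[X]) (hn0 : n ≠ 0) :
    Multiset.card (UniqueFactorizationMonoid.factors n) ≤ n.natDegree := by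
  have h0 : (0 : k[X]) ∉ UniqueFactorizationMonoid.factors n :=
    fun h => (UniqueFactorizationMonoid.irreducible_of_factor _ h).ne_zero rfl
  have h1 := UniqueFactorizationMonoid.factors_prod hn0
  have h2 : (UniqueFactorizationMonoid.factors n).prod.natDegree = n.natDegree :=
    natDegree_eq_of_degree_eq (degree_eq_degree_of_associated h1)
  rw [← h2, natDegree_multiset_prod _ h0]
  have h3 := Multiset.card_nsmul_le_sum (s := (UniqueFactorizationMonoid.factors n).map natDegree) (a := 1)
    (by
      intro x hx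
      obtain ⟨p, hp, rfl⟩ := Multiset.mem_map.1 hx
      exact Nat.succ_le_of_lt
        (UniqueFactorizationMonoid.irreducible_of_factor p hp).natDegree_pos)
  rw [Multiset.card_map, smul_eq_mul, mul_one] at h3
  exact h3

theorem exists_genG (n : k[X]) (hn : n.Monic) (hn3 : n.natDegree = 3) :
    ∃ w : Om k, IsGen n w := by
  classical
  have hq : 1 < Fintype.card k := qposH
  have hn0 : n ≠ 0 := hn.ne_zero
  obtain ⟨S, hS⟩ : ∃ S, S = (UniqueFactorizationMonoid.factors n).toFinset := ⟨_, rfl⟩
  have hSc : S.card ≤ 3 := by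
    rw [hS, ← hn3]
    exact (Multiset.toFinset_card_le _).trans (facH n hn0)
  have hSp : ∀ p ∈ S, Irreducible p ∧ p * (n / p) = n ∧ n / p ≠ 0 ∧ (n / p).natDegree ≤ 2 := by
    intro p hp
    rw [hS, Multiset.mem_toFinset] at hp
    have hi := UniqueFactorizationMonoid.irreducible_of_factor p hp
    have hd := UniqueFactorizationMonoid.dvd_of_mem_factors hp
    have h1 : p * (n / p) = n := EuclideanDomain.mul_div_cancel' hi.ne_zero hd
    have h2 : n / p ≠ 0 := by
      intro h
      rw [h, mul_zero] at h1
      exact hn0 h1.symm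
    refine ⟨hi, h1, h2, ?_⟩
    have h3 := congrArg natDegree h1
    rw [natDegree_mul hi.ne_zero h2, hn3] at h3
    have h4 := hi.natDegree_pos
    omega
  -- the point
  obtain ⟨w, hw, hw1⟩ : ∃ w : Om k, aeval (phi k) n w = 0 ∧ ∀ p ∈ S, aeval (phi k) (n / p) w ≠ 0 := by
    by_contra hcon
    push Not at hcon
    have hsub : KH n ⊆ S.biUnion fun p => KH (n / p) := by
      intro v hv
      rw [memKH n hn0] at hv
      obtain ⟨p, hp, hpv⟩ := hcon v hv
      rw [Finset.mem_biUnion]
      exact ⟨p, hp, (memKH _ (hSp p hp).2.2.1 v).2 hpv⟩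
    have h1 := Finset.card_le_card hsub
    have h2 : (S.biUnion fun p => KH (n / p)).card ≤ S.card * Fintype.card k ^ 4 := by
      refine Finset.card_biUnion_le_card_mul _ _ _ fun p hp => ?_
      rw [cardKH _ (hSp p hp).2.2.1]
      have := (hSp p hp).2.2.2
      exact Nat.pow_le_pow_right (by omega) (by omega)
    have h3 : S.card * Fintype.card k ^ 4 ≤ 3 * Fintype.card k ^ 4 := Nat.mul_le_mul_right _ hSc
    rw [cardKH n hn0, hn3] at h1
    have q4 : 0 < Fintype.card k ^ 4 := pow_pos (by omega) 4
    have h4 : 3 * Fintype.card k ^ 4 < Fintype.card k ^ (2 * 3) := by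
      have h5 : 3 < Fintype.card k ^ 2 := by nlinarith
      calc 3 * Fintype.card k ^ 4 < Fintype.card k ^ 2 * Fintype.card k ^ 4 := Nat.mul_lt_mul_of_pos_right h5 q4
        _ = Fintype.card k ^ (2 * 3) := by rw [← pow_add]
    omega
  refine ⟨w, fun a => ⟨fun ha => ?_, fun ha => ?_⟩⟩
  · by_contra hna
    obtain ⟨g, hg⟩ : ∃ g, g = EuclideanDomain.gcd a n := ⟨_, rfl⟩
    have hga : g ∣ a := by rw [hg]; exact EuclideanDomain.gcd_dvd_left a n
    have hgn : g ∣ n := by rw [hg]; exact EuclideanDomain.gcd_dvd_right a n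
    have hgw : aeval (phi k) g w = 0 := by
      rw [hg, EuclideanDomain.gcd_eq_gcd_ab, mul_comm a, mul_comm n, map_add, LinearMap.add_apply, aeval_mul_apply',
        aeval_mul_apply', ha, hw, map_zero, map_zero, add_zero]
    have kill : ∀ m, g ∣ m → aeval (phi k) m w = 0 := by
      rintro m ⟨d, rfl⟩
      rw [mul_comm, aeval_mul_apply', hgw, map_zero]
    obtain ⟨c, hc⟩ := hgn
    have hc0 : c ≠ 0 := by
      rintro rfl
      exact hn0 (by rw [hc, mul_zero])
    have hcu : ¬ IsUnit c := by
      intro hu
      apply hna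
      obtain ⟨u, hu⟩ := hu
      refine dvd_trans ?_ hga
      rw [hc, ← hu]
      exact (Units.mul_right_dvd).2 dvd_rfl
    obtain ⟨p', hp', hpc'⟩ := WfDvdMonoid.exists_irreducible_factor hcu hc0
    have hpn' : p' ∣ n := by
      rw [hc]
      exact Dvd.dvd.mul_left hpc' g
    obtain ⟨p, hpm, hpa⟩ := UniqueFactorizationMonoid.exists_mem_factors_of_dvd hn0 hp' hpn'
    have hpS : p ∈ S := by
      rw [hS, Multiset.mem_toFinset]
      exact hpm
    have hpc : p ∣ c := (hpa.symm.dvd).trans hpc'
    obtain ⟨hi, h1, -, -⟩ := hSp p hpS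
    refine hw1 p hpS (kill _ ?_)
    obtain ⟨d, hd⟩ := hpc
    refine ⟨d, ?_⟩
    apply mul_left_cancel₀ hi.ne_zero
    calc p * (n / p) = g * c := by rw [h1, ← hc]
      _ = g * (p * d) := by rw [← hd]
      _ = p * (g * d) := by ring
  · obtain ⟨d, rfl⟩ := ha
    rw [mul_comm, aeval_mul_apply', hw, map_zero]

end Pool.Agent.Helper23.DM
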