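import Pool.Agent.Helper23.DM.Asm
import Pool.Agent.Helper23.DM.GExi
import Pool.Agent.Helper23.DM.FinDefs
set_option autoImplicit false
open Polynomial
open scoped Pointwise
namespace Pool.Agent.Helper23.DM.Gen

section
variable {k : Type} [Field k] [Fintype k]

theorem phiT_eq (v : Om k) : phiT k (Om k) v = phi k v := by
  rw [phi_apply, phiT, pow_two, pow_mul]
  rfl

theorem iter_eq (i : ℕ) (v : Om k) :
    (phiT k (Om k))^[i] v = aeval (phi k) (X ^ i : k[X]) v := by
  have h : phiT k (Om k) = fun v => phi k v := funext phiT_eq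
  rw [h]
  induction i generalizing v with
  | zero => simp
  | succ i ih =>
    rw [Function.iterate_succ_apply', ih, pow_succ', aeval_mul_apply', aeval_X]

theorem phiA_eq (a : k[X]) (v : Om k) : phiA a v = aeval (phi k) a v := by
  conv_rhs => rw [a.as_sum_range_C_mul_X_pow]
  unfold phiA
  rw [map_sum, LinearMap.sum_apply]
  apply Finset.sum_congr rfl
  intro i _
  rw [iter_eq, aeval_mul_apply', aeval_C, Module.algebraMap_end_apply, Algebra.smul_def]
  rfl

theorem isGen_iff (n : k[X]) (lam : Om k) : IsGenerator n lam ↔ IsGen n lam := by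
  unfold IsGenerator IsGen
  simp only [phiA_eq]

theorem submod_eq (lam : Om k) : submod k lam = cyc lam := by
  unfold submod cyc
  simp only [phiA_eq]

section transport
variable {Ω Ω' : Type} [Field Ω] [Field Ω'] [Algebra (RatFunc (RatFunc k)) Ω]
  [Algebra (RatFunc (RatFunc k)) Ω'] (e : Ω ≃ₐ[RatFunc (RatFunc k)] Ω')

theorem phiT_map (v : Ω) : e (phiT k Ω v) = phiT k Ω' (e v) := by
  have h1 : e (elT k Ω) = elT k Ω' := e.commutes _
  have h2 : e (elj k Ω) = elj k Ω' := e.commutes _
  unfold phiT
  simp only [map_add, map_mul, map_pow, h1, h2]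

theorem iter_map (i : ℕ) (v : Ω) : e ((phiT k Ω)^[i] v) = (phiT k Ω')^[i] (e v) := by
  induction i generalizing v with
  | zero => rfl
  | succ i ih => rw [Function.iterate_succ_apply, Function.iterate_succ_apply, ih, phiT_map]

theorem phiA_map (a : k[X]) (v : Ω) : e (phiA a v) = phiA a (e v) := by
  unfold phiA
  rw [map_sum]
  apply Finset.sum_congr rfl
  intro i _
  rw [map_mul, e.commutes, iter_map]

theorem isGenerator_map (n : k[X]) (lam : Ω) : IsGenerator n lam ↔ IsGenerator n (e lam) := by
  unfold IsGenerator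
  refine forall_congr' fun a => ?_
  rw [← phiA_map, EmbeddingLike.map_eq_zero_iff]

theorem submod_map (lam : Ω) : e '' submod k lam = submod k (e lam) := by
  ext v
  constructor
  · rintro ⟨_, ⟨a, rfl⟩, rfl⟩
    exact ⟨a, (phiA_map e a lam).symm⟩
  · rintro ⟨a, rfl⟩
    exact ⟨phiA a lam, ⟨a, rfl⟩, phiA_map e a lam⟩

end transport

theorem mem_K0_iff (lam z : Om k) : z ∈ K0 lam ↔
    ∀ σ : Om k ≃ₐ[RatFunc (RatFunc k)] Om k, σ '' submod k lam = submod k lam → σ z = z := by
  unfold K0
  rw [IntermediateField.mem_fixedField_iff]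
  refine forall_congr' fun σ => ?_
  rw [submod_map, submod_eq, submod_eq, MulAction.mem_stabilizer_iff, smul_cyc]

instance isSepClosureOm : IsSepClosure (RatFunc (RatFunc k)) (Om k) :=
  ⟨inferInstance, inferInstance⟩

end

section general
variable {k : Type} [Field k] {K : Type} [Field K] [Algebra (RatFunc (RatFunc k)) K]

variable (k) in
/-- the structure map `F[X] → K`, `X ↦ j` -/
noncomputable def stm (K : Type) [Field K] [Algebra (RatFunc (RatFunc k)) K] :
    (RatFunc k)[X] →+* K :=
  (algebraMap (RatFunc (RatFunc k)) K).comp (algebraMap (RatFunc k)[X] (RatFunc (RatFunc k)))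

theorem stm_C (c : RatFunc k) : stm k K (C c)
    = algebraMap (RatFunc (RatFunc k)) K (RatFunc.C c) := by
  unfold stm
  rw [RingHom.comp_apply, RatFunc.algebraMap_C]

theorem stm_X : stm k K X = algebraMap (RatFunc (RatFunc k)) K RatFunc.X := by
  unfold stm
  rw [RingHom.comp_apply, RatFunc.algebraMap_X]

theorem stm_inj : Function.Injective (stm k K) :=
  (algebraMap (RatFunc (RatFunc k)) K).injective.comp
    (IsFractionRing.injective (RatFunc k)[X] (RatFunc (RatFunc k)))

theorem exists_coord : ∃ B : Subring K, IsCoord k B := by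
  let _ : Algebra (RatFunc k)[X] K := (stm k K).toAlgebra
  exact ⟨(integralClosure (RatFunc k)[X] K).toSubring, fun z => Iff.rfl⟩

theorem frac_gen (B : Subring K) (hB : IsCoord k B)
    (z : K) (hz : IsAlgebraic (RatFunc (RatFunc k)) z) :
    ∃ a ∈ B, ∃ b ∈ B, b ≠ 0 ∧ z = a / b := by
  let _ : Algebra (RatFunc k)[X] K := (stm k K).toAlgebra
  have : IsScalarTower (RatFunc k)[X] (RatFunc (RatFunc k)) K :=
    IsScalarTower.of_algebraMap_eq fun _ => rfl
  have hz' : IsAlgebraic (RatFunc k)[X] z :=
    (IsFractionRing.isAlgebraic_iff (RatFunc k)[X] (RatFunc (RatFunc k)) K).2 hz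
  obtain ⟨y, hy0, hy⟩ := hz'.exists_integral_multiple
  have hy1 : algebraMap (RatFunc k)[X] K y ≠ 0 := by
    intro h0
    exact hy0 (stm_inj (k := k) (K := K) (by rw [map_zero]; exact h0))
  refine ⟨y • z, (hB _).2 hy, algebraMap (RatFunc k)[X] K y,
    (hB _).2 (isIntegral_algebraMap : IsIntegral (RatFunc k)[X] _), hy1, ?_⟩
  rw [Algebra.smul_def, mul_div_cancel_left₀ _ hy1]

theorem int_mem_gen (B : Subring K) (hB : IsCoord k B) (V : ValuationSubring K)
    (hV : IsPlc k V) (hj : ¬ IsCusp k V) (b : K) (hb : b ∈ B) : b ∈ V := by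
  have hp : ∀ p : (RatFunc k)[X], stm k K p ∈ V := by
    intro p
    induction p using Polynomial.induction_on' with
    | add p q hp hq => rw [map_add]; exact V.add_mem _ _ hp hq
    | monomial m c =>
      rw [← C_mul_X_pow_eq_monomial, map_mul, map_pow, stm_C, stm_X]
      exact V.mul_mem _ _ (hV.1 c) (pow_mem (not_not.1 hj) _)
  obtain ⟨f, hf, hfb⟩ := (hB b).1 hb
  have hint : IsIntegral V.toSubring b := by
    refine ⟨f.map ((stm k K).codRestrict V.toSubring hp), hf.map _, ?_⟩
    rw [eval₂_map]
    exact hfb
  have := (IsIntegrallyClosed.isIntegral_iff (R := V) (K := K) (x := b)).1 hint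
  obtain ⟨y, hy⟩ := this
  rw [← hy]
  exact y.2

end general

section
variable {k : Type} [Field k] [Fintype k]

theorem final (Ω : Type) [Field Ω] [Algebra (RatFunc (RatFunc k)) Ω]
    [IsSepClosure (RatFunc (RatFunc k)) Ω] (n : k[X]) (hn : n.natDegree = 3) :
    (∃ lam : Ω, IsGenerator n lam) ∧
    ∀ lam : Ω, IsGenerator n lam →
      ∀ (K : Type) [Field K] [Algebra (RatFunc (RatFunc k)) K]
        (ι : K →ₐ[RatFunc (RatFunc k)] Ω), IsFunField lam ι →
      (∃ B : Subring K, IsCoord k B ∧ IsPrincipalIdealRing B) ∧
      ∀ D : ValuationSubring K →₀ ℤ, ∃ f : K, f ≠ 0 ∧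
        ∀ V : ValuationSubring K, IsPlc k V → ¬ IsCusp k V → HasOrder V f (D V) := by
  have hn0 : n ≠ 0 := by
    rintro rfl
    simp at hn
  have hl : n.leadingCoeff ≠ 0 := leadingCoeff_ne_zero.2 hn0
  have hm : (n * C n.leadingCoeff⁻¹).Monic := monic_mul_leadingCoeff_inv hn0
  have hm3 : (n * C n.leadingCoeff⁻¹).natDegree = 3 := by
    rw [natDegree_mul_C (inv_ne_zero hl), hn]
  have hdvd : ∀ a : k[X], n * C n.leadingCoeff⁻¹ ∣ a ↔ n ∣ a := by
    intro a
    have hu : IsUnit (C n.leadingCoeff⁻¹ : k[X]) :=
      isUnit_C.2 (isUnit_iff_ne_zero.2 (inv_ne_zero hl))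
    obtain ⟨u, hu⟩ := hu
    rw [← hu]
    exact Units.mul_right_dvd
  have hgen : ∀ lam : Om k, IsGen n lam ↔ IsGen (n * C n.leadingCoeff⁻¹) lam := by
    intro lam
    unfold IsGen
    exact forall_congr' fun a => by rw [hdvd]
  let e : Ω ≃ₐ[RatFunc (RatFunc k)] Om k := IsSepClosure.equiv (RatFunc (RatFunc k)) Ω (Om k)
  constructor
  · obtain ⟨lam, h⟩ := exists_genG (n * C n.leadingCoeff⁻¹) hm hm3
    refine ⟨e.symm lam, ?_⟩
    rw [isGenerator_map e, AlgEquiv.apply_symm_apply, isGen_iff, hgen]
    exact h
  · intro lam hlam K _ _ ι hι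
    have h : IsGen (n * C n.leadingCoeff⁻¹) (e lam) := by
      rw [← hgen, ← isGen_iff, ← isGenerator_map e]
      exact hlam
    have hpid := pid_int hm hm3 h
    -- the embedding of `K` in `Om k`
    have hrange : ∀ z : K, e (ι z) ∈ K0 (e lam) := by
      intro z
      rw [mem_K0_iff]
      intro σ hσ
      have h1 := (hι (ι z)).1 ⟨z, rfl⟩ ((e.trans σ).trans e.symm) (by
        have h2 : ((e.trans σ).trans e.symm) '' submod k lam
            = e.symm '' (σ '' (e '' submod k lam)) := by
          rw [Set.image_image, Set.image_image]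
          rfl
        rw [h2, submod_map e, hσ, submod_map e.symm, AlgEquiv.symm_apply_apply])
      have h3 : e.symm (σ (e (ι z))) = ι z := h1
      have h4 := congrArg e h3
      rwa [AlgEquiv.apply_symm_apply] at h4
    have hsurj : ∀ z ∈ K0 (e lam), ∃ y : K, e (ι y) = z := by
      intro z hz
      rw [mem_K0_iff] at hz
      have h1 : e.symm z ∈ Set.range ι := by
        rw [hι]
        intro σ hσ
        have h2 := hz ((e.symm.trans σ).trans e) (by
          have h2 : ((e.symm.trans σ).trans e) '' submod k (e lam)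
              = e '' (σ '' (e.symm '' submod k (e lam))) := by
            rw [Set.image_image, Set.image_image]
            rfl
          rw [h2, submod_map e.symm, AlgEquiv.symm_apply_apply, hσ, submod_map e])
        have h3 : e (σ (e.symm z)) = z := h2
        rw [← e.injective.eq_iff, h3, AlgEquiv.apply_symm_apply]
      obtain ⟨y, hy⟩ := h1
      exact ⟨y, by rw [hy, AlgEquiv.apply_symm_apply]⟩
    let κ : K →+* Om k := (e : Ω →+* Om k).comp (ι : K →+* Ω)
    have hκ : ∀ z, κ z = e (ι z) := fun _ => rfl
    have hκinj : Function.Injective κ := κ.injective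
    have hκs : κ.comp (stm k K) = algebraMap (RatFunc k)[X] (Om k) := by
      ext x
      · show e (ι (algebraMap (RatFunc (RatFunc k)) K _)) = _
        rw [ι.commutes, e.commutes]
        rfl
      · show e (ι (algebraMap (RatFunc (RatFunc k)) K _)) = _
        rw [ι.commutes, e.commutes]
        rfl
    have hint : ∀ z : K, (stm k K).IsIntegralElem z ↔ IsIntegral (RatFunc k)[X] (κ z) := by
      intro z
      constructor
      · rintro ⟨p, hp, hpz⟩
        refine ⟨p, hp, ?_⟩
        have := Polynomial.hom_eval₂ p (stm k K) κ z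
        rw [hpz, map_zero, hκs] at this
        exact this.symm
      · rintro ⟨p, hp, hpz⟩
        refine ⟨p, hp, ?_⟩
        apply hκinj
        rw [Polynomial.hom_eval₂, hκs, map_zero]
        exact hpz
    have hBpid : ∀ B : Subring K, IsCoord k B → IsPrincipalIdealRing B := by
      intro B hB
      let f : B →+* integralClosure (RatFunc k)[X] (K0 (e lam)) :=
        { toFun := fun b => ⟨⟨κ b, hrange b⟩, (isInt_iff (e lam) _).2
            ((hint b).1 ((hB b).1 b.2))⟩
          map_one' := by
            apply Subtype.val_injective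
            apply Subtype.val_injective
            exact map_one κ
          map_mul' := fun a b => by
            apply Subtype.val_injective
            apply Subtype.val_injective
            exact map_mul κ (a : K) (b : K)
          map_zero' := by
            apply Subtype.val_injective
            apply Subtype.val_injective
            exact map_zero κ
          map_add' := fun a b => by
            apply Subtype.val_injective
            apply Subtype.val_injective
            exact map_add κ (a : K) (b : K) }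
      have hf : Function.Bijective f := by
        constructor
        · intro a b hab
          apply Subtype.val_injective
          apply hκinj
          exact congrArg (fun t : integralClosure (RatFunc k)[X] (K0 (e lam)) =>
            ((t : K0 (e lam)) : Om k)) hab
        · intro t
          obtain ⟨y, hy⟩ := hsurj ((t : K0 (e lam)) : Om k) (t : K0 (e lam)).2
          have hyB : y ∈ B := by
            rw [hB]
            rw [← stm, hint]
            have : κ y = ((t : K0 (e lam)) : Om k) := hy
            rw [this]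
            exact (isInt_iff (e lam) _).1 t.2
          refine ⟨⟨y, hyB⟩, ?_⟩
          apply Subtype.val_injective
          apply Subtype.val_injective
          exact hy
      exact IsPrincipalIdealRing.of_surjective (RingEquiv.ofBijective f hf).symm.toRingHom
        (RingEquiv.ofBijective f hf).symm.surjective
    obtain ⟨B, hB⟩ := exists_coord (k := k) (K := K)
    refine ⟨⟨B, hB, hBpid B hB⟩, fun D => ?_⟩
    have halg : ∀ z : K, IsAlgebraic (RatFunc (RatFunc k)) z := by
      intro z
      have h1 : IsAlgebraic (RatFunc (RatFunc k)) (e (ι z)) :=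
        Algebra.IsAlgebraic.isAlgebraic _
      have h2 : IsAlgebraic (RatFunc (RatFunc k)) (((e : Ω →ₐ[RatFunc (RatFunc k)] Om k).comp ι) z) :=
        h1
      exact (isAlgebraic_algHom_iff _ (((e : Ω →ₐ[RatFunc (RatFunc k)] Om k).comp ι)).toRingHom.injective).1 h2
    obtain ⟨f, hf, hfV⟩ := div_form B (hBpid B hB)
      (fun z => frac_gen B hB z (halg z)) D
    exact ⟨f, hf, fun V hV hj => hfV V (fun b hb => int_mem_gen B hB V hV hj b hb) hV.2⟩

end

end Pool.Agent.Helper23.DM.Gen
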