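import Mathlib
set_option autoImplicit false
open Polynomial
namespace Pool.Agent.Helper23.DM

/-!
DM-GCH (characters of `(k[X]/n)^×` with values in `k^×`, any monic `n`; only Mathlib).
`nm p a` is the norm of `a` modulo `p` (from `k[X]/(p)` to `k`). `χ : k[X] → k` is multiplicative on
the polynomials prime to `n`, nonzero there, and depends only on the class modulo `n`. Then
`χ(a) = ∏_p nm(p, a)^(i_p)`, `p` over the different monic prime factors of `n`.

Proof. Let `S` be the set of monic prime factors. (1) If `a ≡ 1` modulo every `p ∈ S` then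
`χ(a) = 1`: `n ∣ (a - 1)^N` for large `N`; take `N = q^M`: `(a-1)^(q^M) = a^(q^M) - 1` (Frobenius), so
`χ(a)^(q^M) = χ(a^(q^M)) = χ(1) = 1`, and `χ(a)^(q^M) = χ(a)` (`FiniteField.pow_card`).
(2) For `p ∈ S` the field `k[X]/(p)` is finite; let `g_p` be a generator of its multiplicative
group. The norm `(k[X]/(p))^× → k^×` is surjective (Mathlib: search `norm_surjective`,
`FiniteField`), so `nm(p, g_p)` generates `k^×`. By the Chinese remainder theorem choose
`e_p ∈ k[X]`, `e_p ≡ g_p` modulo `p`, `e_p ≡ 1` modulo the other elements of `S`. `e_p` is prime to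
`n`, `χ(e_p) = nm(p, g_p)^(i_p)`. (3) For `a` prime to `n` let `a ≡ g_p^(m_p)` modulo `p` and
`b = ∏ e_p^(m_p)`; then `a ≡ b` modulo all `p ∈ S`; with `b'` such that `b b' ≡ 1` modulo `n`,
`χ(a b') = 1 = χ(b b')` by (1) (and `hmod`), so `χ(a) = χ(b) = ∏ nm(p, g_p)^(i_p m_p) = ∏ nm(p, a)^(i_p)`.
-/

/-- the norm of `a` modulo `p` -/
noncomputable def nm {k : Type*} [Field k] (p a : k[X]) : k :=
  Algebra.norm k (AdjoinRoot.mk p a)

section Aux56

variable {k : Type*} [Field k]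

private lemma multdvd56 (c : k[X]) (s : Multiset k[X]) (h : ∀ p ∈ s, p ∣ c) : s.prod ∣ c ^ (Multiset.card s) := by
  induction s using Multiset.induction_on with
  | empty => simp
  | cons p s ih =>
    rw [Multiset.prod_cons, Multiset.card_cons, pow_succ']
    exact mul_dvd_mul (h p (Multiset.mem_cons_self p s)) (ih fun q hq => h q (Multiset.mem_cons_of_mem hq))

private lemma pw56 {n : k[X]} {χ : k[X] → k}
    (hmul : ∀ a b, IsCoprime a n → IsCoprime b n → χ (a * b) = χ a * χ b)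
    (hne : ∀ a, IsCoprime a n → χ a ≠ 0) : χ 1 = 1 ∧ ∀ a, IsCoprime a n → ∀ m : ℕ, χ (a ^ m) = χ a ^ m := by
  have h1 : χ 1 = 1 := by
    have h2 := hmul 1 1 isCoprime_one_left isCoprime_one_left
    rw [one_mul] at h2
    have h3 := hne 1 isCoprime_one_left
    have h4 : χ 1 * (χ 1 - 1) = 0 := by linear_combination -h2
    rcases mul_eq_zero.1 h4 with h5 | h5
    · exact absurd h5 h3
    · linear_combination h5
  refine ⟨h1, fun a ha m => ?_⟩
  induction m with
  | zero => rw [pow_zero, pow_zero, h1]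
  | succ m ih => rw [pow_succ, pow_succ, hmul _ _ ha.pow_left ha, ih]

private lemma gen56 [Fintype k] (p : k[X]) (hp : Irreducible p) (hm : p.Monic) :
    ∃ g : k[X], ¬ p ∣ g ∧ (∀ a, ¬ p ∣ a → ∃ m : ℕ, AdjoinRoot.mk p a = AdjoinRoot.mk p g ^ m) ∧
      ∀ c : k, c ≠ 0 → ∃ i : ℕ, c = nm p g ^ i := by
  classical
  have : Fact (Irreducible p) := ⟨hp⟩
  have h1 : Module.Finite k (AdjoinRoot p) := hm.finite_adjoinRoot
  have h2 : Finite (AdjoinRoot p) := Module.finite_of_finite k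
  have h3 : IsCyclic (AdjoinRoot p)ˣ := inferInstance
  obtain ⟨u, hu⟩ := h3.exists_generator
  obtain ⟨g, hg⟩ := AdjoinRoot.mk_surjective (g := p) (u : AdjoinRoot p)
  have hpow : ∀ y : AdjoinRoot p, y ≠ 0 → ∃ m : ℕ, y = AdjoinRoot.mk p g ^ m := by
    intro y hy
    have h4 := hu (Units.mk0 y hy)
    rw [← mem_powers_iff_mem_zpowers] at h4
    obtain ⟨m, hm⟩ := h4
    refine ⟨m, ?_⟩
    have h5 := congrArg Units.val hm
    simp only [Units.val_pow_eq_pow_val, Units.val_mk0] at h5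
    rw [hg, ← h5]
  refine ⟨g, ?_, ?_, ?_⟩
  · intro hd
    rw [← AdjoinRoot.mk_eq_zero, hg] at hd
    exact u.ne_zero hd
  · intro a ha
    exact hpow _ fun h4 => ha (AdjoinRoot.mk_eq_zero.1 h4)
  · intro c hc
    obtain ⟨y, hy⟩ := FiniteField.norm_surjective k (AdjoinRoot p) c
    have hy0 : y ≠ 0 := by
      rintro rfl
      rw [Algebra.norm_zero] at hy
      exact hc hy.symm
    obtain ⟨m, hm⟩ := hpow y hy0
    refine ⟨m, ?_⟩
    rw [← hy, hm, map_pow]
    rfl

end Aux56

theorem chrG {k : Type*} [Field k] [Fintype k] [DecidableEq k] (n : k[X]) (hn : n.Monic)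
    (χ : k[X] → k)
    (hmul : ∀ a b, IsCoprime a n → IsCoprime b n → χ (a * b) = χ a * χ b)
    (hne : ∀ a, IsCoprime a n → χ a ≠ 0)
    (hmod : ∀ a b, IsCoprime a n → n ∣ a - b → χ a = χ b) :
    ∃ i : k[X] → ℕ, ∀ a, IsCoprime a n →
      χ a = ∏ p ∈ (UniqueFactorizationMonoid.normalizedFactors n).toFinset, nm p a ^ i p := by
  classical
  have hn0 : n ≠ 0 := hn.ne_zero
  obtain ⟨hχ1, hpw⟩ := pw56 hmul hne
  set S := (UniqueFactorizationMonoid.normalizedFactors n).toFinset with hS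
  have hSmem : ∀ p, p ∈ S ↔ p ∈ UniqueFactorizationMonoid.normalizedFactors n := fun p => Multiset.mem_toFinset
  have hirr : ∀ p ∈ S, Irreducible p := fun p hp =>
    UniqueFactorizationMonoid.irreducible_of_normalized_factor p ((hSmem p).1 hp)
  have hnorm : ∀ p ∈ S, normalize p = p := fun p hp =>
    UniqueFactorizationMonoid.normalize_normalized_factor p ((hSmem p).1 hp)
  have hmon : ∀ p ∈ S, p.Monic := by
    intro p hp
    rw [← hnorm p hp]
    exact Polynomial.monic_normalize (hirr p hp).ne_zero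
  have hdvd : ∀ p ∈ S, p ∣ n := fun p hp =>
    UniqueFactorizationMonoid.dvd_of_mem_normalizedFactors ((hSmem p).1 hp)
  have hcop : ∀ a, (∀ p ∈ S, ¬ p ∣ a) → IsCoprime a n := by
    intro a ha
    refine isCoprime_of_prime_dvd (fun h => hn0 h.2) fun z hz hza hzn => ?_
    obtain ⟨p, hp, hzp⟩ := UniqueFactorizationMonoid.exists_mem_normalizedFactors_of_dvd hn0 hz.irreducible hzn
    exact ha p ((hSmem p).2 hp) (hzp.symm.dvd.trans hza)
  have hcop' : ∀ a, IsCoprime a n → ∀ p ∈ S, ¬ p ∣ a := by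
    intro a ha p hp hpa
    exact (hirr p hp).not_isUnit (ha.isUnit_of_dvd' hpa (hdvd p hp))
  -- step 1
  have hone : ∀ a, IsCoprime a n → (∀ p ∈ S, p ∣ a - 1) → χ a = 1 := by
    intro a ha hp1
    obtain ⟨ℓ, hℓ⟩ := CharP.exists k
    obtain ⟨f, hℓp, hcard⟩ := FiniteField.card k ℓ
    have : Fact ℓ.Prime := ⟨hℓp⟩
    set s := UniqueFactorizationMonoid.normalizedFactors n with hs
    have h1 : s.prod ∣ (a - 1) ^ (Multiset.card s) := multdvd56 _ s fun p hp => hp1 p ((hSmem p).2 hp)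
    have h2 : n ∣ (a - 1) ^ (Multiset.card s) :=
      (UniqueFactorizationMonoid.prod_normalizedFactors hn0).symm.dvd.trans h1
    have hq1 : 1 < Fintype.card k := Fintype.one_lt_card
    have h3 : Multiset.card s ≤ Fintype.card k ^ (Multiset.card s) := (Nat.lt_pow_self hq1).le
    have h4 : n ∣ (a - 1) ^ (Fintype.card k ^ (Multiset.card s)) := h2.trans (pow_dvd_pow _ h3)
    have h5 : (a - 1) ^ (Fintype.card k ^ (Multiset.card s)) = a ^ (Fintype.card k ^ (Multiset.card s)) - 1 := by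
      rw [hcard, ← pow_mul, sub_pow_char_pow, one_pow]
    rw [h5] at h4
    have h6 := hmod _ 1 (ha.pow_left (m := Fintype.card k ^ (Multiset.card s))) h4
    rw [hpw a ha, FiniteField.pow_card_pow, hχ1] at h6
    exact h6
  -- step 2
  have hex : ∀ p : k[X], ∃ e : k[X], p ∈ S → (∀ p' ∈ S, p' ≠ p → AdjoinRoot.mk p' e = 1) ∧
      (¬ p ∣ e) ∧ (∀ a, ¬ p ∣ a → ∃ m : ℕ, AdjoinRoot.mk p a = AdjoinRoot.mk p e ^ m) ∧
      ∀ c : k, c ≠ 0 → ∃ i : ℕ, c = nm p e ^ i := by
    intro p
    by_cases hp : p ∈ S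
    · obtain ⟨g, hg1, hg2, hg3⟩ := gen56 p (hirr p hp) (hmon p hp)
      have hc : IsCoprime p (∏ p' ∈ S.erase p, p') := by
        refine IsCoprime.prod_right fun p' hp' => ?_
        rw [Finset.mem_erase] at hp'
        refine ((hirr p hp).coprime_iff_not_dvd).2 fun hd => ?_
        have h1 := (hirr p hp).associated_of_dvd (hirr p' hp'.2) hd
        apply hp'.1
        rw [← hnorm p hp, ← hnorm p' hp'.2]
        exact (normalize_eq_normalize_iff_associated.2 h1).symm
      obtain ⟨u, w, huw⟩ := hc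
      obtain ⟨e, he⟩ : ∃ e : k[X], e = 1 + w * (∏ p' ∈ S.erase p, p') * (g - 1) := ⟨_, rfl⟩
      have hep : AdjoinRoot.mk p e = AdjoinRoot.mk p g := by
        rw [AdjoinRoot.mk_eq_mk]
        refine ⟨-(u * (g - 1)), ?_⟩
        rw [he]
        linear_combination (g - 1) * huw
      refine ⟨e, fun _ => ⟨?_, ?_, ?_, ?_⟩⟩
      · intro p' hp' hne'
        have h1 : p' ∣ ∏ p' ∈ S.erase p, p' := Finset.dvd_prod_of_mem _ (Finset.mem_erase.2 ⟨hne', hp'⟩)
        have h2 : AdjoinRoot.mk p' e = AdjoinRoot.mk p' 1 := by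
          rw [AdjoinRoot.mk_eq_mk, he, add_sub_cancel_left]
          exact Dvd.dvd.mul_right (Dvd.dvd.mul_left h1 _) _
        rw [h2, map_one]
      · intro hd
        apply hg1
        rw [← AdjoinRoot.mk_eq_zero] at hd ⊢
        rw [← hep, hd]
      · intro a ha
        rw [hep]
        exact hg2 a ha
      · intro c hc
        have h1 : nm p e = nm p g := by
          unfold nm
          rw [hep]
        rw [h1]
        exact hg3 c hc
    · exact ⟨0, fun h => absurd h hp⟩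
  choose e he using hex
  have hec : ∀ p ∈ S, IsCoprime (e p) n := by
    intro p hp
    refine hcop _ fun p' hp' hd => ?_
    by_cases hpp : p' = p
    · rw [hpp] at hd
      exact (he p hp).2.1 hd
    · have h1 := (he p hp).1 p' hp' hpp
      rw [← AdjoinRoot.mk_eq_zero, h1] at hd
      have : Fact (Irreducible p') := ⟨hirr p' hp'⟩
      exact one_ne_zero hd
  have hi : ∀ p : k[X], ∃ i : ℕ, p ∈ S → χ (e p) = nm p (e p) ^ i := by
    intro p
    by_cases hp : p ∈ S
    · obtain ⟨i, hi⟩ := (he p hp).2.2.2 _ (hne _ (hec p hp))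
      exact ⟨i, fun _ => hi⟩
    · exact ⟨0, fun h => absurd h hp⟩
  choose i hi using hi
  refine ⟨i, fun a ha => ?_⟩
  have hm : ∀ p : k[X], ∃ m : ℕ, p ∈ S → AdjoinRoot.mk p a = AdjoinRoot.mk p (e p) ^ m := by
    intro p
    by_cases hp : p ∈ S
    · obtain ⟨m, hm⟩ := (he p hp).2.2.1 a (hcop' a ha p hp)
      exact ⟨m, fun _ => hm⟩
    · exact ⟨0, fun h => absurd h hp⟩
  choose m hm using hm
  obtain ⟨b, hb⟩ : ∃ b : k[X], b = ∏ p ∈ S, e p ^ m p := ⟨_, rfl⟩
  have hbmk : ∀ p ∈ S, AdjoinRoot.mk p b = AdjoinRoot.mk p a := by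
    intro p hp
    rw [hb, map_prod, hm p hp, Finset.prod_eq_single p, map_pow]
    · intro p' hp' hne'
      rw [map_pow, (he p' hp').1 p hp hne'.symm, one_pow]
    · intro h
      exact absurd hp h
  have hprod : ∀ T : Finset k[X], T ⊆ S → IsCoprime (∏ p ∈ T, e p ^ m p) n ∧
      χ (∏ p ∈ T, e p ^ m p) = ∏ p ∈ T, χ (e p) ^ m p := by
    intro T
    induction T using Finset.induction_on with
    | empty =>
      intro _
      rw [Finset.prod_empty, Finset.prod_empty]
      exact ⟨isCoprime_one_left, hχ1⟩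
    | insert p T hpT ih =>
      intro hT
      obtain ⟨h1, h2⟩ := ih (fun x hx => hT (Finset.mem_insert_of_mem hx))
      have h3 := hec p (hT (Finset.mem_insert_self p T))
      rw [Finset.prod_insert hpT, Finset.prod_insert hpT]
      refine ⟨(h3.pow_left).mul_left h1, ?_⟩
      rw [hmul _ _ h3.pow_left h1, hpw _ h3, h2]
  obtain ⟨hbc, hbχ⟩ := hprod S (Finset.Subset.refl S)
  rw [← hb] at hbc hbχ
  obtain ⟨b', w, hbw⟩ := hbc
  have hb'c : IsCoprime b' n := ⟨b, w, by rw [mul_comm]; exact hbw⟩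
  have hbc : IsCoprime b n := ⟨b', w, hbw⟩
  have h1 : χ (a * b') = 1 := by
    refine hone _ (ha.mul_left hb'c) fun p hp => ?_
    rw [← AdjoinRoot.mk_eq_mk, map_mul, ← hbmk p hp, ← map_mul, AdjoinRoot.mk_eq_mk]
    obtain ⟨d, hd⟩ := hdvd p hp
    refine ⟨-(w * d), ?_⟩
    linear_combination hbw - w * hd
  have h2 : χ (b * b') = 1 := by
    rw [hmod _ 1 (hbc.mul_left hb'c), hχ1]
    refine ⟨-w, ?_⟩
    linear_combination hbw
  rw [hmul _ _ ha hb'c] at h1
  rw [hmul _ _ hbc hb'c, ← h1] at h2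
  have h3 := mul_right_cancel₀ (hne _ hb'c) h2
  rw [← h3, hbχ]
  refine Finset.prod_congr rfl fun p hp => ?_
  have h4 : nm p a = nm p (e p) ^ m p := by
    unfold nm
    rw [hm p hp, map_pow]
  rw [h4, hi p hp, ← pow_mul, ← pow_mul, mul_comm]

end Pool.Agent.Helper23.DM
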