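import Mathlib
set_option autoImplicit false
open Polynomial
namespace Pool.Agent.Helper23.DM

/-!
DM-GMO (Moore's lemma, any size; only Mathlib). `k` finite with `q` elements, `κ ⊇ k` a field,
`v : Fin δ → κ` linearly independent over `k`. Then `det (v_i ^ (q^j)) ≠ 0`. (The case `δ = 3` is in
Moore.lean, the proof is the same.)

Proof. If the determinant vanishes, there is `b ≠ 0` in `κ^δ` with `∑_j v_i^(q^j) b_j = 0` for all
`i` (`Matrix.exists_mulVec_eq_zero_iff`), hence `∑_j b_j z^(q^j) = 0` for every `k`-linear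
combination `z` of the `v_i` (`z ↦ z^(q^j)` is `k`-linear: iterate `FiniteField.frobeniusAlgHom k κ`).
These are `q^δ` different elements, all roots of the nonzero polynomial `∑_j b_j X^(q^j)` of degree
`≤ q^(δ-1) < q^δ` (for `δ = 0` the determinant is `1`).
-/

/-- the Moore determinant -/
def moo {κ : Type*} [Field κ] (q δ : ℕ) (v : Fin δ → κ) : κ :=
  Matrix.det (Matrix.of fun i j : Fin δ => v i ^ q ^ (j : ℕ))

private lemma frob_pow_h12 (k κ : Type*) [Field k] [Fintype k] [Field κ] [Algebra k κ] (j : ℕ) :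
    ∃ F : κ →ₐ[k] κ, ∀ z, F z = z ^ Fintype.card k ^ j := by
  induction j with
  | zero => exact ⟨AlgHom.id k κ, fun z => by simp⟩
  | succ j ih =>
    obtain ⟨F, hF⟩ := ih
    refine ⟨(FiniteField.frobeniusAlgHom k κ).comp F, fun z => ?_⟩
    have h1 : (FiniteField.frobeniusAlgHom k κ) (F z) = (F z) ^ Fintype.card k := rfl
    rw [AlgHom.comp_apply, h1, hF, ← pow_mul, ← pow_succ]

private lemma lin_pow_h12 {k κ : Type*} [Field k] [Fintype k] [Field κ] [Algebra k κ] {δ : ℕ}
    (v : Fin δ → κ) (a : Fin δ → k) (j : ℕ) :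
    (∑ l, algebraMap k κ (a l) * v l) ^ Fintype.card k ^ j =
      ∑ l, algebraMap k κ (a l) * v l ^ Fintype.card k ^ j := by
  obtain ⟨F, hF⟩ := frob_pow_h12 k κ j
  rw [← hF, map_sum]
  refine Finset.sum_congr rfl fun l _ => ?_
  rw [map_mul, AlgHom.commutes, hF]

theorem moo_ne_zero {k κ : Type*} [Field k] [Fintype k] [Field κ] [Algebra k κ] (δ : ℕ)
    (v : Fin δ → κ) (h : LinearIndependent k v) : moo (Fintype.card k) δ v ≠ 0 := by
  classical
  have hq1 : 1 < Fintype.card k := Fintype.one_lt_card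
  intro hdet
  obtain ⟨b, hb0, hb⟩ := Matrix.exists_mulVec_eq_zero_iff.2 hdet
  have hrow : ∀ i : Fin δ, ∑ j : Fin δ, v i ^ Fintype.card k ^ (j : ℕ) * b j = 0 :=
    fun i => congrFun hb i
  let φ : (Fin δ → k) → κ := fun a => ∑ l, algebraMap k κ (a l) * v l
  have hφ : Function.Injective φ := by
    intro a a' he
    have h1 : ∑ l, (a - a') l • v l = 0 := by
      have h2 : ∑ l, (a - a') l • v l = φ a - φ a' := by
        rw [← Finset.sum_sub_distrib]
        refine Finset.sum_congr rfl fun l _ => ?_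
        rw [Pi.sub_apply, Algebra.smul_def, map_sub, sub_mul]
      rw [h2, he, sub_self]
    have h2 := Fintype.linearIndependent_iff.1 h _ h1
    funext l
    exact sub_eq_zero.1 (h2 l)
  let P : κ[X] := ∑ j : Fin δ, C (b j) * X ^ Fintype.card k ^ (j : ℕ)
  have hPe : ∀ z, P.eval z = ∑ j : Fin δ, b j * z ^ Fintype.card k ^ (j : ℕ) := by
    intro z
    simp [P, eval_finsetSum]
  have hPφ : ∀ a, P.eval (φ a) = 0 := by
    intro a
    rw [hPe]
    have h1 : ∀ j ∈ (Finset.univ : Finset (Fin δ)), b j * φ a ^ Fintype.card k ^ (j : ℕ) =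
        ∑ l, algebraMap k κ (a l) * (v l ^ Fintype.card k ^ (j : ℕ) * b j) := by
      intro j _
      rw [lin_pow_h12 v a j, Finset.mul_sum]
      exact Finset.sum_congr rfl fun l _ => by ring
    rw [Finset.sum_congr rfl h1, Finset.sum_comm]
    refine Finset.sum_eq_zero fun l _ => ?_
    rw [← Finset.mul_sum, hrow l, mul_zero]
  have hinj : ∀ i j : Fin δ, Fintype.card k ^ (i : ℕ) = Fintype.card k ^ (j : ℕ) → i = j := by
    intro i j hij
    exact Fin.ext (Nat.pow_right_injective hq1 hij)
  have hP0 : P ≠ 0 := by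
    intro hP
    apply hb0
    funext i
    have h1 : P.coeff (Fintype.card k ^ (i : ℕ)) = b i := by
      simp only [P, finsetSum_coeff, coeff_C_mul, coeff_X_pow, mul_ite, mul_one, mul_zero]
      rw [Finset.sum_eq_single i]
      · rw [if_pos rfl]
      · intro j _ hj
        rw [if_neg (fun he => hj (hinj _ _ he).symm)]
      · intro hi
        exact absurd (Finset.mem_univ i) hi
    rw [hP, coeff_zero] at h1
    exact h1.symm
  have hdeg : P.natDegree ≤ Fintype.card k ^ δ - 1 := by
    refine natDegree_sum_le_of_forall_le _ _ fun j _ => ?_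
    refine (natDegree_C_mul_le _ _).trans ?_
    rw [natDegree_X_pow]
    have h1 : Fintype.card k ^ (j : ℕ) < Fintype.card k ^ δ := Nat.pow_lt_pow_right hq1 j.2
    omega
  have hsub : Finset.univ.image φ ⊆ P.roots.toFinset := by
    intro z hz
    rw [Finset.mem_image] at hz
    obtain ⟨t, _, rfl⟩ := hz
    rw [Multiset.mem_toFinset, mem_roots hP0, IsRoot, hPφ]
  have hcard := Finset.card_le_card hsub
  rw [Finset.card_image_of_injective _ hφ, Finset.card_univ, Fintype.card_fun, Fintype.card_fin]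
    at hcard
  have h1 := (hcard.trans (Multiset.toFinset_card_le _)).trans (P.card_roots'.trans hdeg)
  have h2 : 0 < Fintype.card k ^ δ := pow_pos (by omega) δ
  omega

/-- a `k`-linear change of variables multiplies the Moore determinant by the determinant
(`(∑_l A_il v_l)^(q^j) = ∑_l A_il v_l^(q^j)`, product of matrices) -/
theorem moo_mulVec {k κ : Type*} [Field k] [Fintype k] [Field κ] [Algebra k κ] (δ : ℕ)
    (v : Fin δ → κ) (A : Matrix (Fin δ) (Fin δ) k) :
    moo (Fintype.card k) δ (fun i => ∑ l, algebraMap k κ (A i l) * v l)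
      = algebraMap k κ A.det * moo (Fintype.card k) δ v := by
  unfold moo
  rw [RingHom.map_det, ← Matrix.det_mul]
  congr 1
  ext i j
  rw [Matrix.of_apply, Matrix.mul_apply, lin_pow_h12 v (A i) j]
  rfl

end Pool.Agent.Helper23.DM
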