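import Pool.Agent.Helper23.DM.BL
import Pool.Agent.Helper23.DM.GMoo
import Pool.Agent.Helper23.DM.GChr
set_option autoImplicit false
open Polynomial
namespace Pool.Agent.Helper23.DM

/-!
DM-GMP (the form attached to a factor `p` of `n`). `n = m p`, `p` monic of degree `δ ≥ 1`, `w` a
generator; `v_i = φ_{X^i m}(w)`, `Mp p m w = det (v_i^(q^j))_{i, j < δ}` (Moore determinant).

(1) `Mp_act`: `Mp p m (φ_a w) = nm(p, a) Mp p m w` for every `a`. In `k[X]/(p)` with basis
`1, X, ..., X^(δ-1)` (`AdjoinRoot.powerBasis'`), `a X^i = ∑_l A_il X^l`, `A_il ∈ k`,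
`nm(p, a) = det A` (`Algebra.norm_eq_matrix_det`, `Matrix.det_transpose`); so
`p ∣ X^i a - ∑ A_il X^l`, `n ∣ X^i m a - ∑ A_il X^l m`, and
`φ_{X^i m}(φ_a w) = ∑ A_il φ_{X^l m}(w)`. Use `moo_mulVec`.
(2) `Mp_eq`: `v_i = w * ee w (X^i m)`, so `Mp p m w = w^(∑_{j<δ} q^j) * moo (ee w (X^i m))_i`
(`Matrix.det_mul_row` or `det_mul_column`).
(3) `moo_isU`: the Moore determinant of the `ee w (X^i m)` is a unit of `OO k`. By `isU_of_val` one
has to see that its value is `1` at each `V` with `VV V`. The entries are in `V`; the residues of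
`ee w (X^i m)` in the residue field of `V` are linearly independent over `k`: for `c ≠ 0` of degree
`< δ`, `ee w (c m)` is a unit of `V` (`val_ee`: `n ∤ c m`). See `val_moore` in Itg.lean for the case
of size 3 (same proof).
(4) `Mp_LL`: `ee w b ∈ LL w` for all `b` (`ev_ll` and `ev_mem_LL`), `LL w` is a field.
(5) `sig_Mp`: `aeval_sig`.
-/

variable {k : Type} [Field k] [Fintype k]

/-- the form attached to the factor `p` of `n = m * p` -/
noncomputable def Mp (p m : k[X]) (w : Om k) : Om k :=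
  moo (Fintype.card k) p.natDegree fun i => aeval (phi k) (X ^ (i : ℕ) * m) w

private theorem bas75 {p : k[X]} (hp : p.Monic) (i : Fin p.natDegree) :
    AdjoinRoot.powerBasisAux' hp i = AdjoinRoot.mk p (X ^ (i : ℕ)) := by
  have h1 := (AdjoinRoot.powerBasis' hp).basis_eq_pow i
  have h2 : (AdjoinRoot.powerBasis' hp).gen = AdjoinRoot.root p := rfl
  rw [h2] at h1
  rw [map_pow, AdjoinRoot.mk_X]
  exact h1

/-- the matrix of the multiplication with `a` -/
private noncomputable def mat75 {p : k[X]} (hp : p.Monic) (a : k[X]) : Matrix (Fin p.natDegree) (Fin p.natDegree) k :=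
  (Algebra.leftMulMatrix (AdjoinRoot.powerBasisAux' hp) (AdjoinRoot.mk p a)).transpose

private theorem det75 {p : k[X]} (hp : p.Monic) (a : k[X]) : (mat75 hp a).det = nm p a := by
  unfold mat75 nm
  rw [Matrix.det_transpose, Algebra.norm_eq_matrix_det (AdjoinRoot.powerBasisAux' hp)]

private theorem dvd75 {p : k[X]} (hp : p.Monic) (a : k[X]) (i : Fin p.natDegree) :
    p ∣ a * X ^ (i : ℕ) - ∑ l, C (mat75 hp a i l) * X ^ (l : ℕ) := by
  have e : ∀ l : Fin p.natDegree, AdjoinRoot.mk p (C (mat75 hp a i l) * X ^ (l : ℕ)) =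
      (AdjoinRoot.powerBasisAux' hp).repr (AdjoinRoot.mk p a * AdjoinRoot.powerBasisAux' hp i) l •
        AdjoinRoot.powerBasisAux' hp l := by
    intro l
    rw [map_mul, ← bas75 hp l, AdjoinRoot.mk_C, ← AdjoinRoot.algebraMap_eq, ← Algebra.smul_def]
    congr 1
    unfold mat75
    rw [Matrix.transpose_apply, Algebra.leftMulMatrix_eq_repr_mul]
  rw [← AdjoinRoot.mk_eq_zero, map_sub, sub_eq_zero, map_mul, map_sum, ← bas75 hp i]
  conv_lhs => rw [← (AdjoinRoot.powerBasisAux' hp).sum_repr (AdjoinRoot.mk p a * AdjoinRoot.powerBasisAux' hp i)]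
  exact Finset.sum_congr rfl fun l _ => (e l).symm

private theorem aevsum75 {δ : ℕ} (c : Fin δ → k) (b : Fin δ → k[X]) (w : Om k) :
    aeval (phi k) (∑ l, C (c l) * b l) w = ∑ l, algebraMap k (Om k) (c l) * aeval (phi k) (b l) w := by
  rw [map_sum, LinearMap.sum_apply]
  refine Finset.sum_congr rfl fun l _ => ?_
  rw [← smul_eq_C_mul, map_smul, LinearMap.smul_apply, Algebra.smul_def]

theorem Mp_act {n p m : k[X]} {w : Om k} (h : IsGen n w) (hnp : n = m * p) (hp : p.Monic)
    (a : k[X]) : Mp p m (aeval (phi k) a w) = algebraMap k (Om k) (nm p a) * Mp p m w := by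
  have h1 : (fun i : Fin p.natDegree => aeval (phi k) (X ^ (i : ℕ) * m) (aeval (phi k) a w)) =
      fun i => ∑ l, algebraMap k (Om k) (mat75 hp a i l) * aeval (phi k) (X ^ (l : ℕ) * m) w := by
    funext i
    rw [← aeval_mul_apply', ← aevsum75, ← sub_eq_zero, ← LinearMap.sub_apply, ← map_sub, h, hnp]
    obtain ⟨d, hd⟩ := dvd75 hp a i
    refine ⟨d, ?_⟩
    have h2 : ∑ l, C (mat75 hp a i l) * (X ^ (l : ℕ) * m) = m * ∑ l, C (mat75 hp a i l) * X ^ (l : ℕ) := by
      rw [Finset.mul_sum]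
      refine Finset.sum_congr rfl fun l _ => ?_
      ring
    have h3 : X ^ (i : ℕ) * m * a - m * ∑ l, C (mat75 hp a i l) * X ^ (l : ℕ) =
        m * (a * X ^ (i : ℕ) - ∑ l, C (mat75 hp a i l) * X ^ (l : ℕ)) := by ring
    rw [h2, h3, hd, mul_assoc]
  unfold Mp
  rw [h1, moo_mulVec, det75]

theorem Mp_eq {p m : k[X]} {w : Om k} (hw : w ≠ 0) :
    Mp p m w = w ^ (∑ j ∈ Finset.range p.natDegree, Fintype.card k ^ j)
      * moo (Fintype.card k) p.natDegree fun i => ee w (X ^ (i : ℕ) * m) := by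
  unfold Mp moo
  have h1 : (Matrix.of fun i j : Fin p.natDegree => (aeval (phi k) (X ^ (i : ℕ) * m) w) ^ Fintype.card k ^ (j : ℕ)) =
      Matrix.of fun i j : Fin p.natDegree => w ^ Fintype.card k ^ (j : ℕ) *
        (Matrix.of fun i j : Fin p.natDegree => ee w (X ^ (i : ℕ) * m) ^ Fintype.card k ^ (j : ℕ)) i j := by
    ext i j
    simp only [Matrix.of_apply]
    rw [← ee_mul_self hw, mul_pow, mul_comm]
  rw [h1, Matrix.det_mul_row]
  congr 1
  rw [Finset.prod_pow_eq_pow_sum, Fin.sum_univ_eq_sum_range (fun j => Fintype.card k ^ j)]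

private theorem eesum75 {δ : ℕ} (c : Fin δ → k) (b : Fin δ → k[X]) (w : Om k) :
    ee w (∑ l, C (c l) * b l) = ∑ l, algebraMap k (Om k) (c l) * ee w (b l) := by
  unfold ee
  rw [aevsum75, Finset.sum_div]
  refine Finset.sum_congr rfl fun l _ => ?_
  rw [mul_div_assoc]

private theorem coef75 {n p m : k[X]} (hn : n.Monic) (hnp : n = m * p) (c : Fin p.natDegree → k)
    (hd : n ∣ ∑ l, C (c l) * (X ^ (l : ℕ) * m)) : ∀ l, c l = 0 := by
  have hm : m ≠ 0 := by
    rintro rfl
    rw [zero_mul] at hnp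
    exact hn.ne_zero hnp
  have h2 : ∑ l, C (c l) * (X ^ (l : ℕ) * m) = m * ∑ l, C (c l) * X ^ (l : ℕ) := by
    rw [Finset.mul_sum]
    refine Finset.sum_congr rfl fun l _ => ?_
    ring
  rw [h2, hnp, mul_dvd_mul_iff_left hm] at hd
  intro l
  have hpos : 0 < p.natDegree := lt_of_le_of_lt (Nat.zero_le _) l.2
  have h3 : (∑ l, C (c l) * X ^ (l : ℕ) : k[X]).natDegree < p.natDegree := by
    refine lt_of_le_of_lt (natDegree_sum_le_of_forall_le (n := p.natDegree - 1) _ _ fun i _ => ?_) (by omega)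
    refine (natDegree_C_mul_X_pow_le _ _).trans ?_
    have := i.2
    omega
  have h4 := eq_zero_of_dvd_of_natDegree_lt hd h3
  have h5 := congrArg (fun f => coeff f (l : ℕ)) h4
  simp only [finsetSum_coeff, coeff_C_mul, coeff_X_pow, coeff_zero] at h5
  rw [Finset.sum_eq_single l] at h5
  · rwa [if_pos rfl, mul_one] at h5
  · intro b _ hb
    rw [if_neg, mul_zero]
    intro hh
    exact hb (Fin.ext hh).symm
  · intro hh
    exact absurd (Finset.mem_univ l) hh

private theorem val75 (V : ValuationSubring (Om k)) (hV : VV V) {n p m : k[X]} {w : Om k} (h : IsGen n w)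
    (hn : n.Monic) (hn1 : 0 < n.natDegree) (hnp : n = m * p) :
    V.valuation (moo (Fintype.card k) p.natDegree fun i => ee w (X ^ (i : ℕ) * m)) = 1 := by
  classical
  have hw := gen_ne_zero h hn1
  have hmem : ∀ b : k[X], ee w b ∈ V := by
    intro b
    by_cases hb : n ∣ b
    · rw [(ee_eq_zero h hw b).2 hb]
      exact V.zero_mem
    · rw [← V.valuation_le_one_iff, val_ee hn hn1 h b hb V hV]
  have hk : ∀ c : k, algebraMap k (Om k) c ∈ V := by
    intro c
    rw [IsScalarTower.algebraMap_apply k (RatFunc k) (Om k)]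
    exact hV.1 _
  obtain ⟨x, hx⟩ : ∃ x : Fin p.natDegree → V, ∀ i, ((x i : V) : Om k) = ee w (X ^ (i : ℕ) * m) :=
    ⟨fun i => ⟨_, hmem _⟩, fun i => rfl⟩
  let f : k →+* V := (algebraMap k (Om k)).codRestrict V.toSubring hk
  have hfc : ∀ c : k, ((f c : V) : Om k) = algebraMap k (Om k) c := fun c => rfl
  let _ : Algebra k (IsLocalRing.ResidueField V) := ((IsLocalRing.residue V).comp f).toAlgebra
  have halg : ∀ c : k, algebraMap k (IsLocalRing.ResidueField V) c = IsLocalRing.residue V (f c) :=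
    fun c => rfl
  have hli : LinearIndependent k fun i => IsLocalRing.residue V (x i) := by
    rw [Fintype.linearIndependent_iff]
    intro c hc
    have h1 : IsLocalRing.residue V (∑ i, f (c i) * x i) = 0 := by
      rw [map_sum, ← hc]
      refine Finset.sum_congr rfl fun i _ => ?_
      rw [map_mul, Algebra.smul_def, halg]
    rw [IsLocalRing.residue_eq_zero_iff, V.valuation_lt_one_iff] at h1
    have h2 : (((∑ i, f (c i) * x i : V)) : Om k) = ee w (∑ l, C (c l) * (X ^ (l : ℕ) * m)) := by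
      rw [eesum75]
      have h3 : (((∑ i, f (c i) * x i : V)) : Om k) = V.subtype (∑ i, f (c i) * x i) := rfl
      rw [h3, map_sum]
      refine Finset.sum_congr rfl fun i _ => ?_
      rw [map_mul, ← hfc, ← hx]
      rfl
    rw [h2] at h1
    have hd : n ∣ ∑ l, C (c l) * (X ^ (l : ℕ) * m) := by
      by_contra hnd
      rw [val_ee hn hn1 h _ hnd V hV] at h1
      exact lt_irrefl _ h1
    exact coef75 hn hnp c hd
  have hmoo := moo_ne_zero (k := k) p.natDegree (fun i => IsLocalRing.residue V (x i)) hli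
  obtain ⟨D, hD⟩ : ∃ D : V, D = Matrix.det (Matrix.of fun i j : Fin p.natDegree => x i ^ Fintype.card k ^ (j : ℕ)) :=
    ⟨_, rfl⟩
  have hres : IsLocalRing.residue V D ≠ 0 := by
    rw [hD, RingHom.map_det]
    convert hmoo using 1
    unfold moo
    congr 1
  rw [IsLocalRing.residue_ne_zero_iff_isUnit, V.valuation_eq_one_iff] at hres
  rw [← hres]
  congr 1
  have h5 : (D : Om k) = V.subtype D := rfl
  rw [h5, hD, RingHom.map_det]
  unfold moo
  congr 1
  ext i j
  simp only [RingHom.mapMatrix_apply, Matrix.map_apply, Matrix.of_apply, map_pow]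
  rw [← hx]
  rfl

theorem moo_isU {n p m : k[X]} {w : Om k} (h : IsGen n w) (hn : n.Monic) (hn1 : 0 < n.natDegree)
    (hnp : n = m * p) (hp : p.Monic) :
    IsU (moo (Fintype.card k) p.natDegree fun i => ee w (X ^ (i : ℕ) * m)) := by
  have hw := gen_ne_zero h hn1
  refine isU_of_val _ ?_ fun V hV => val75 V hV h hn hn1 hnp
  refine moo_ne_zero (k := k) p.natDegree _ ?_
  rw [Fintype.linearIndependent_iff]
  intro c hc
  refine coef75 hn hnp c ?_
  rw [← ee_eq_zero h hw, eesum75, ← hc]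
  refine Finset.sum_congr rfl fun i _ => ?_
  rw [Algebra.smul_def]

theorem Mp_LL {n p m : k[X]} {w : Om k} (h : IsGen n w) (hn : n.Monic) (hn3 : n.natDegree = 3) :
    (moo (Fintype.card k) p.natDegree fun i => ee w (X ^ (i : ℕ) * m)) ∈ LL w := by
  have hmem : ∀ b : k[X], ee w b ∈ LL w := by
    intro b
    rw [← ev_ll h hn hn3]
    exact ev_mem_LL h hn hn3 _
  have h1 : (moo (Fintype.card k) p.natDegree fun i => ee w (X ^ (i : ℕ) * m)) =
      (LL w).subtype (Matrix.det (Matrix.of fun i j : Fin p.natDegree =>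
        (⟨ee w (X ^ (i : ℕ) * m), hmem _⟩ : LL w) ^ Fintype.card k ^ (j : ℕ))) := by
    rw [RingHom.map_det]
    unfold moo
    congr 1
  rw [h1]
  exact SetLike.coe_mem _

theorem sig_Mp (σ : Om k ≃ₐ[RatFunc (RatFunc k)] Om k) (p m : k[X]) (w : Om k) :
    σ (Mp p m w) = Mp p m (σ w) := by
  unfold Mp moo
  rw [AlgEquiv.map_det]
  congr 1
  ext i j
  rw [AlgEquiv.mapMatrix_apply, Matrix.map_apply, Matrix.of_apply, Matrix.of_apply, map_pow, aeval_sig]

end Pool.Agent.Helper23.DM
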