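import Mathlib
set_option autoImplicit false
namespace Pool.Agent.Helper23.DM

/-!
DM-GNU (correction of the degree; only Mathlib, elementary). `q ≥ 2`, `S` a finite set with positive
integers `δ s`, one of them odd, `D s = ∑_{j < δ s} q^j = (q^(δ s) - 1)/(q - 1)`. If
`q - 1 ∣ d - ∑ i_s δ_s` there are `i'_s ≡ i_s` modulo `q - 1` and `e ∈ ℤ` with
`∑ i'_s D_s + e (q² - 1) = d`.

Proof. `D_s ≡ δ_s` modulo `q - 1`, so `d - ∑ i_s D_s = (q - 1) z`. Let `δ = δ_{s0} = 2m+1` be odd: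
`q^δ - 1 = (q - 1) + q (q^(2m) - 1)` and `q² - 1 ∣ q^(2m) - 1`, so
`q - 1 = (q^δ - 1) + B (q² - 1)`. Put `i'_{s0} = i_{s0} + (q - 1) z`, the others unchanged, and
`e = B z`: `(q-1) D_{s0} = q^δ - 1`.
-/

theorem degcorr {ι : Type*} [DecidableEq ι] (q : ℕ) (hq : 2 ≤ q) (S : Finset ι) (δ : ι → ℕ)
    (hodd : ∃ s ∈ S, Odd (δ s)) (i : ι → ℤ) (d : ℤ)
    (hd : ((q : ℤ) - 1) ∣ d - ∑ s ∈ S, i s * (δ s : ℤ)) :
    ∃ i' : ι → ℤ, ∃ e : ℤ, (∀ s, ((q : ℤ) - 1) ∣ i' s - i s) ∧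
      ∑ s ∈ S, i' s * (∑ j ∈ Finset.range (δ s), (q : ℤ) ^ j) + e * ((q : ℤ) ^ 2 - 1) = d := by
  obtain ⟨Q, hQ⟩ : ∃ Q : ℤ, Q = (q : ℤ) := ⟨_, rfl⟩
  rw [← hQ] at hd ⊢
  obtain ⟨s0, hs0, m, hm⟩ := hodd
  have hD : ∀ n : ℕ, (Q - 1) ∣ (∑ j ∈ Finset.range n, Q ^ j) - (n : ℤ) := by
    intro n
    have h : (∑ j ∈ Finset.range n, Q ^ j) - (n : ℤ) = ∑ j ∈ Finset.range n, (Q ^ j - 1) := by
      rw [Finset.sum_sub_distrib]
      simp
    rw [h]
    refine Finset.dvd_sum fun j _ => ?_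
    have := sub_dvd_pow_sub_pow Q 1 j
    rwa [one_pow] at this
  have h1 : (Q - 1) ∣ d - ∑ s ∈ S, i s * (∑ j ∈ Finset.range (δ s), Q ^ j) := by
    have h : d - ∑ s ∈ S, i s * (∑ j ∈ Finset.range (δ s), Q ^ j) =
        (d - ∑ s ∈ S, i s * (δ s : ℤ)) -
          ∑ s ∈ S, i s * ((∑ j ∈ Finset.range (δ s), Q ^ j) - (δ s : ℤ)) := by
      simp only [mul_sub, Finset.sum_sub_distrib]
      ring
    rw [h]
    exact dvd_sub hd (Finset.dvd_sum fun s _ => Dvd.dvd.mul_left (hD _) _)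
  obtain ⟨z, hz⟩ := h1
  obtain ⟨k, hk⟩ : (Q ^ 2 - 1) ∣ Q ^ (2 * m) - 1 := by
    have := sub_dvd_pow_sub_pow (Q ^ 2) 1 m
    rwa [one_pow, ← pow_mul] at this
  refine ⟨Function.update i s0 (i s0 + (Q - 1) * z), -(Q * k) * z, ?_, ?_⟩
  · intro s
    by_cases hs : s = s0
    · subst hs
      rw [Function.update_self]
      exact ⟨z, by ring⟩
    · rw [Function.update_of_ne hs, sub_self]
      exact dvd_zero _
  · have h2 : ∑ s ∈ S, Function.update i s0 (i s0 + (Q - 1) * z) s *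
        (∑ j ∈ Finset.range (δ s), Q ^ j) =
        ∑ s ∈ S, i s * (∑ j ∈ Finset.range (δ s), Q ^ j) +
          (Q - 1) * z * (∑ j ∈ Finset.range (δ s0), Q ^ j) := by
      rw [← Finset.add_sum_erase S _ hs0, ← Finset.add_sum_erase S (fun s => i s *
        (∑ j ∈ Finset.range (δ s), Q ^ j)) hs0, Function.update_self]
      have h3 : ∑ s ∈ S.erase s0, Function.update i s0 (i s0 + (Q - 1) * z) s *
          (∑ j ∈ Finset.range (δ s), Q ^ j) =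
          ∑ s ∈ S.erase s0, i s * (∑ j ∈ Finset.range (δ s), Q ^ j) := by
        refine Finset.sum_congr rfl fun s hs => ?_
        rw [Function.update_of_ne (Finset.ne_of_mem_erase hs)]
      rw [h3]
      ring
    have h4 : (∑ j ∈ Finset.range (δ s0), Q ^ j) * (Q - 1) = Q ^ (2 * m + 1) - 1 := by
      rw [hm]
      exact geom_sum_mul Q _
    rw [h2]
    rw [pow_succ] at h4
    linear_combination z * h4 - hz + Q * z * hk

end Pool.Agent.Helper23.DM
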