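import Pool.Agent.Helper23.DM.Inv
import Pool.Agent.Helper23.DM.GMp
import Pool.Agent.Helper23.DM.GNum
set_option autoImplicit false
open Polynomial
open scoped Pointwise
namespace Pool.Agent.Helper23.DM

variable {k : Type} [Field k] [Fintype k]

omit [Fintype k] in
theorem nm_C {p : k[X]} (hp : p.Monic) (c : k) : nm p (C c) = c ^ p.natDegree := by
  unfold nm
  have : AdjoinRoot.mk p (C c) = algebraMap k (AdjoinRoot p) c := rfl
  rw [this, Algebra.norm_algebraMap]
  congr 1
  rw [(AdjoinRoot.powerBasis' hp).finrank, AdjoinRoot.powerBasis'_dim]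

omit [Fintype k] in
theorem nm_ne_zero {p a : k[X]} (hp : p.Monic) (ha : IsCoprime a p) : nm p a ≠ 0 := by
  unfold nm
  have h1 : IsUnit (AdjoinRoot.mk p a) := by
    obtain ⟨u, v, huv⟩ := ha
    refine IsUnit.of_mul_eq_one (AdjoinRoot.mk p u) ?_
    rw [← map_mul]
    have : AdjoinRoot.mk p (u * a + v * p) = 1 := by rw [huv, map_one]
    rw [map_add, map_mul _ v p, AdjoinRoot.mk_self, mul_zero, add_zero, mul_comm] at this
    exact this
  exact (h1.map (Algebra.norm k)).ne_zero

omit [Fintype k] in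
theorem exists_odd_factor {n : k[X]} (hn : n.Monic) (hn3 : Odd n.natDegree) [DecidableEq k] :
    ∃ p ∈ (UniqueFactorizationMonoid.normalizedFactors n).toFinset, Odd p.natDegree := by
  by_contra hcon
  push Not at hcon
  have h1 : (UniqueFactorizationMonoid.normalizedFactors n).prod = n := by
    rw [UniqueFactorizationMonoid.prod_normalizedFactors_eq hn.ne_zero]
    exact hn.normalize_eq_self
  have h2 : n.natDegree = ((UniqueFactorizationMonoid.normalizedFactors n).map natDegree).sum := by
    conv_lhs => rw [← h1]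
    rw [natDegree_multiset_prod]
    exact UniqueFactorizationMonoid.zero_notMem_normalizedFactors n
  have h3 : ∀ s : Multiset k[X], (∀ p ∈ s, ¬ Odd p.natDegree) → Even ((s.map natDegree).sum) := by
    intro s
    induction s using Multiset.induction_on with
    | empty => simp
    | cons a s ih =>
      intro hs
      rw [Multiset.map_cons, Multiset.sum_cons]
      exact (Nat.not_odd_iff_even.1 (hs a (Multiset.mem_cons_self a s))).add
        (ih fun p hp => hs p (Multiset.mem_cons_of_mem hp))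
  have h4 := h3 _ (fun p hp => hcon p (Multiset.mem_toFinset.2 hp))
  rw [← h2] at h4
  exact (Nat.not_even_iff_odd.2 hn3) h4

theorem zpow_congr_unit {c : k} (hc : c ≠ 0) {i j : ℤ} (h : ((Fintype.card k : ℤ) - 1) ∣ i - j) :
    c ^ i = c ^ j := by
  obtain ⟨z, hz⟩ := h
  have h1 : c ^ (Fintype.card k - 1) = 1 := FiniteField.pow_card_sub_one_eq_one c hc
  have h2 : c ^ ((Fintype.card k : ℤ) - 1) = 1 := by
    rw [← h1, ← zpow_natCast]
    congr 1
    rw [Nat.cast_sub Fintype.card_pos]
    simp
  have : i = j + ((Fintype.card k : ℤ) - 1) * z := by linarith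
  rw [this, zpow_add₀ hc, zpow_mul, h2, one_zpow, mul_one]

theorem dvd_of_pow_eq (a b : ℕ) (h : ∀ c : k, c ≠ 0 → c ^ a = c ^ b) :
    ((Fintype.card k : ℤ) - 1) ∣ (a : ℤ) - b := by
  classical
  obtain ⟨g, hg⟩ := IsCyclic.exists_generator (α := kˣ)
  have h1 : orderOf g = Fintype.card k - 1 := by
    rw [orderOf_eq_card_of_forall_mem_zpowers hg, Nat.card_eq_fintype_card, Fintype.card_units]
  have h2 := h (g : k) g.ne_zero
  have h3 : g ^ a = g ^ b := by
    apply Units.ext
    rw [Units.val_pow_eq_pow_val, Units.val_pow_eq_pow_val, h2]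
  have h4 : g ^ ((a : ℤ) - b) = 1 := by
    rw [zpow_sub, zpow_natCast, zpow_natCast, h3, mul_inv_cancel]
  have h5 := orderOf_dvd_iff_zpow_eq_one.2 h4
  rw [h1, Nat.cast_sub Fintype.card_pos] at h5
  simpa using h5

/-- the core, for all `n` of degree `3` -/
theorem coreG {n : k[X]} (hnm : n.Monic) (hn3 : n.natDegree = 3)
    {w : Om k} (h : IsGen n w) (r : MvPolynomial (Fin 2) k) (hr : r ≠ 0)
    (hrp : ∀ p : MvPolynomial (Fin 2) k, Prime p → p ∣ r → ¬ IsU (ev w p))
    (hst : ∀ σ ∈ MulAction.stabilizer (Om k ≃ₐ[RatFunc (RatFunc k)] Om k) (cyc w),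
      IsU (σ (ev w r) / ev w r)) :
    ∃ u : Om k, IsU u ∧ u ∈ LL w ∧ u * ev w r ∈ K0 w := by
  classical
  have hw : w ≠ 0 := gen_ne_zero h (by omega)
  have hn0 : n ≠ 0 := hnm.ne_zero
  have key : ∀ a : k[X], IsCoprime a n → ∃ c : k, c ≠ 0 ∧ ∀ w' : Om k, IsGen n w' →
      Ph r (aeval (phi k) a w') = c • Ph r w' := by
    intro a ha
    obtain ⟨σ, c, hc, hσ⟩ := exists_sig h (gen_coprime h ha) hnm hn3
    apply chi_exists h hnm hn3 (BL_frac h hnm hn3) r hr hrp a ha
    have h1 := hst σ (by
      rw [MulAction.mem_stabilizer_iff, smul_cyc, hσ]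
      exact cyc_eq h a ha c hc)
    rwa [sig_ev, hσ, ev_smul_left _ c hc] at h1
  choose! χ hχ0 hχ using key
  have hP0 : Ph r w ≠ 0 := mul_ne_zero (pow_ne_zero _ hw) (ev_ne_zero h hnm hn3 r hr)
  have hcan : ∀ c d : k, c • Ph r w = d • Ph r w → c = d := fun c d hcd =>
    smul_left_injective k hP0 hcd
  obtain ⟨i, hi⟩ := chrG n hnm χ (by
      intro a b ha hb
      apply hcan
      have hab : IsCoprime (a * b) n := IsCoprime.mul_left ha hb
      rw [← hχ _ hab w h, aeval_mul_apply', hχ a ha _ (gen_coprime h hb), hχ b hb w h,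
        smul_smul])
    hχ0 (by
      intro a b ha hab
      apply hcan
      have hb : IsCoprime b n := by
        obtain ⟨e, he⟩ := hab
        have : b = a + (-e) * n := by linear_combination -he
        rw [this]
        exact IsCoprime.add_mul_right_left ha _
      rw [← hχ a ha w h, ← hχ b hb w h]
      congr 1
      rw [← sub_eq_zero, ← LinearMap.sub_apply, ← map_sub, h]
      exact hab)
  have hd : ∀ c : k, c ≠ 0 → χ (C c) = c ^ r.totalDegree := by
      intro c hc
      apply hcan
      have hcc : IsCoprime (C c) n := ⟨C c⁻¹, 0, by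
        rw [← C_mul, inv_mul_cancel₀ hc, zero_mul, add_zero, C_1]⟩
      rw [← hχ _ hcc w h, aeval_C, Module.algebraMap_end_apply, Ph_smul r w c hc]
  set S := (UniqueFactorizationMonoid.normalizedFactors n).toFinset with hS
  have hSm : ∀ p ∈ S, p.Monic := by
    intro p hp
    have h1 : p ∈ UniqueFactorizationMonoid.normalizedFactors n := Multiset.mem_toFinset.1 hp
    have h2 := UniqueFactorizationMonoid.normalize_normalized_factor p h1
    rw [← h2]
    exact monic_normalize (UniqueFactorizationMonoid.ne_zero_of_mem_normalizedFactors h1)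
  have hSd : ∀ p ∈ S, p ∣ n := fun p hp =>
    UniqueFactorizationMonoid.dvd_of_mem_normalizedFactors (Multiset.mem_toFinset.1 hp)
  have hSc : ∀ p ∈ S, ∀ a, IsCoprime a n → IsCoprime a p := fun p hp a ha =>
    ha.of_isCoprime_of_dvd_right (hSd p hp)
  obtain ⟨i', e, hi', he⟩ := degcorr (Fintype.card k) Fintype.one_lt_card S
    (fun p => p.natDegree) (exists_odd_factor hnm (by rw [hn3]; decide)) (fun p => (i p : ℤ))
    (r.totalDegree : ℤ) (by
      have := dvd_of_pow_eq (k := k) r.totalDegree (∑ p ∈ S, i p * p.natDegree) (by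
        intro c hc
        have hcc : IsCoprime (C c) n := ⟨C c⁻¹, 0, by
          rw [← C_mul, inv_mul_cancel₀ hc, zero_mul, add_zero, C_1]⟩
        rw [← hd c hc, hi _ hcc, ← Finset.prod_pow_eq_pow_sum]
        apply Finset.prod_congr rfl
        intro p hp
        rw [nm_C (hSm p hp), ← pow_mul, mul_comm])
      rw [Nat.cast_sum] at this
      simpa only [Nat.cast_mul] using this)
  have hdiv : ∀ p ∈ S, ∃ m : k[X], n = m * p := by
    intro p hp
    obtain ⟨m, hm⟩ := hSd p hp
    exact ⟨m, by rw [hm, mul_comm]⟩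
  choose! m hm using hdiv
  have hMU : ∀ p ∈ S, IsU (moo (Fintype.card k) p.natDegree fun i => ee w (X ^ (i : ℕ) * m p)) :=
    fun p hp => moo_isU h hnm (by omega) (hm p hp) (hSm p hp)
  have hDU : IsU (DD w) := DD_isU h hnm hn3
  have hU : IsU ((∏ p ∈ S, (moo (Fintype.card k) p.natDegree fun i => ee w (X ^ (i : ℕ) * m p))
      ^ i' p) * DD w ^ (-e)) := by
    apply IsU.mul _ (hDU.zpow _)
    apply Finset.prod_induction _ IsU (fun _ _ => IsU.mul) isU_one
    intro p hp
    exact (hMU p hp).zpow _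
  refine ⟨((∏ p ∈ S, (moo (Fintype.card k) p.natDegree fun i => ee w (X ^ (i : ℕ) * m p))
      ^ i' p) * DD w ^ (-e))⁻¹, hU.inv, ?_, ?_⟩
  · apply (LL w).inv_mem
    apply (LL w).mul_mem
    · apply Subfield.prod_mem
      intro p hp
      exact (LL w).zpow_mem (Mp_LL h hnm hn3) _
    · apply (LL w).zpow_mem
      have h1 := ev_ND h hnm hn3
      have h2 : DD w = ev w (ND n) / ev w (MM k) := by
        rw [h1, mul_div_cancel_left₀ _ (ev_MM_ne h hnm hn3)]
      rw [h2]
      exact (LL w).div_mem (ev_mem_LL h hnm hn3 _) (ev_mem_LL h hnm hn3 _)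
  · unfold K0
    rw [IntermediateField.mem_fixedField_iff]
    intro σ hσ
    obtain ⟨a, ha, hσa⟩ := (mem_stab_iff h hn0 σ).1 hσ
    have hv : aeval (phi k) a w ≠ 0 := gen_ne_zero (gen_coprime h ha) (by omega)
    have h1 := hχ a ha w h
    unfold Ph at h1
    rw [map_mul, map_inv₀, map_mul, map_prod, sig_ev, hσa]
    set v := aeval (phi k) a w with hvdef
    have hwv : w / v ≠ 0 := div_ne_zero hw hv
    have h2 : ∀ p ∈ S, σ ((moo (Fintype.card k) p.natDegree fun i => ee w (X ^ (i : ℕ) * m p))
          ^ i' p)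
        = algebraMap k (Om k) ((nm p a) ^ i p)
          * (moo (Fintype.card k) p.natDegree fun i => ee w (X ^ (i : ℕ) * m p)) ^ i' p
          * (w / v) ^ (i' p * (∑ j ∈ Finset.range p.natDegree, (Fintype.card k : ℤ) ^ j)) := by
      intro p hp
      have h3 : σ (moo (Fintype.card k) p.natDegree fun i => ee w (X ^ (i : ℕ) * m p))
          = algebraMap k (Om k) (nm p a)
            * (moo (Fintype.card k) p.natDegree fun i => ee w (X ^ (i : ℕ) * m p))
            * (w / v) ^ (∑ j ∈ Finset.range p.natDegree, Fintype.card k ^ j) := by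
        have e1 := Mp_eq (p := p) (m := m p) hw
        have e2 := Mp_eq (p := p) (m := m p) hv
        have e3 := Mp_act h (hm p hp) (hSm p hp) a
        have e4 : σ (moo (Fintype.card k) p.natDegree fun i => ee w (X ^ (i : ℕ) * m p))
            = moo (Fintype.card k) p.natDegree fun i => ee v (X ^ (i : ℕ) * m p) := by
          have e5 : (moo (Fintype.card k) p.natDegree fun i => ee w (X ^ (i : ℕ) * m p))
              = Mp p (m p) w / w ^ (∑ j ∈ Finset.range p.natDegree, Fintype.card k ^ j) := by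
            rw [e1, mul_div_cancel_left₀ _ (pow_ne_zero _ hw)]
          rw [e5, map_div₀, sig_Mp, map_pow, hσa, e2, mul_div_cancel_left₀ _ (pow_ne_zero _ hv)]
        rw [e4]
        rw [← hvdef, e2, e1] at e3
        have hwd := pow_ne_zero (∑ j ∈ Finset.range p.natDegree, Fintype.card k ^ j) hw
        have hvd := pow_ne_zero (∑ j ∈ Finset.range p.natDegree, Fintype.card k ^ j) hv
        rw [div_pow]
        field_simp
        linear_combination e3
      rw [map_zpow₀, h3, mul_zpow, mul_zpow]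
      have h4 : (nm p a) ^ (i' p) = (nm p a) ^ i p := by
        rw [zpow_congr_unit (nm_ne_zero (hSm p hp) (hSc p hp a ha)) (hi' p), zpow_natCast]
      rw [← map_zpow₀, h4, ← zpow_natCast (w / v), ← zpow_mul]
      congr 2
      rw [mul_comm, Nat.cast_sum]
      simp only [Nat.cast_pow]
    have h5 : σ (DD w ^ (-e)) = DD w ^ (-e) * (w / v) ^ (e * ((Fintype.card k : ℤ) ^ 2 - 1)) := by
      have h6 : σ (DD w) = DD w * (w / v) ^ (-((Fintype.card k : ℤ) ^ 2 - 1)) := by
        have h7 : σ (jj k) = jj k := σ.commutes _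
        have h8 : ((Fintype.card k : ℤ) ^ 2 - 1) = ((Fintype.card k ^ 2 - 1 : ℕ) : ℤ) := by
          rw [Nat.cast_sub (Nat.one_le_pow _ _ Fintype.card_pos)]
          simp
        unfold DD
        rw [map_mul, map_pow, map_pow, h7, hσa, h8, zpow_neg, zpow_natCast, div_pow]
        have hwd := pow_ne_zero (Fintype.card k ^ 2 - 1) hw
        have hvd := pow_ne_zero (Fintype.card k ^ 2 - 1) hv
        field_simp
      rw [map_zpow₀, h6, mul_zpow, ← zpow_mul]
      congr 2
      ring
    rw [Finset.prod_congr rfl h2, h5, Finset.prod_mul_distrib, Finset.prod_mul_distrib,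
      ← map_prod, ← hi a ha]
    have h6 : (∏ p ∈ S, (w / v) ^ (i' p * (∑ j ∈ Finset.range p.natDegree,
        (Fintype.card k : ℤ) ^ j))) * (w / v) ^ (e * ((Fintype.card k : ℤ) ^ 2 - 1))
          = (w / v) ^ r.totalDegree := by
      have : ∀ (T : Finset k[X]) (g : k[X] → ℤ), ∏ α ∈ T, (w / v) ^ g α
          = (w / v) ^ (∑ α ∈ T, g α) := by
        intro T g
        induction T using Finset.induction_on with
        | empty => simp
        | insert x T hx ih => rw [Finset.prod_insert hx, Finset.sum_insert hx, ih, zpow_add₀ hwv]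
      rw [this, ← zpow_add₀ hwv, he, zpow_natCast]
    have hχa : algebraMap k (Om k) (χ a) ≠ 0 := by
      rw [Ne, map_eq_zero]
      exact hχ0 a ha
    have hU0 := hU.1
    rw [Algebra.smul_def] at h1
    have h7 : algebraMap k (Om k) (χ a)
        * (∏ p ∈ S, (moo (Fintype.card k) p.natDegree fun i => ee w (X ^ (i : ℕ) * m p)) ^ i' p)
        * (∏ p ∈ S, (w / v) ^ (i' p * (∑ j ∈ Finset.range p.natDegree, (Fintype.card k : ℤ) ^ j)))
        * (DD w ^ (-e) * (w / v) ^ (e * ((Fintype.card k : ℤ) ^ 2 - 1)))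
        = algebraMap k (Om k) (χ a)
        * ((∏ p ∈ S, (moo (Fintype.card k) p.natDegree fun i => ee w (X ^ (i : ℕ) * m p)) ^ i' p)
          * DD w ^ (-e)) * (w / v) ^ r.totalDegree := by
      rw [← h6]
      ring
    rw [h7]
    generalize ((∏ p ∈ S, (moo (Fintype.card k) p.natDegree fun i => ee w (X ^ (i : ℕ) * m p))
      ^ i' p) * DD w ^ (-e)) = U at hU0 ⊢
    generalize algebraMap k (Om k) (χ a) = c at hχa h1 ⊢
    rw [div_pow]
    have hwd : w ^ r.totalDegree ≠ 0 := pow_ne_zero _ hw
    have hvd : v ^ r.totalDegree ≠ 0 := pow_ne_zero _ hv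
    field_simp
    linear_combination h1

end Pool.Agent.Helper23.DM
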