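import Mathlib
set_option autoImplicit false
open Polynomial
namespace Pool.Agent.Helper23.DM

/-!
DM-UNI (unit lemma; only Mathlib). `V` a valuation subring of a field `K ⊇ k` (`k` finite, `q`
elements), `t, j, G, D ∈ K` with `c(t)` a unit of `V` for all nonzero `c ∈ k[X]` (so also all
nonzero constants of `k` are units), `j ∈ V`, `G^(q+1) = j D`, `D ≠ 0`; `x 0 = 1`,
`x (i+1) = t x_i + G x_i^q + D x_i^(q²)`, and `∑ n_i x_i = 0` for a monic `n` of positive degree.
Then `|D| = 1`, `|G| ≤ 1`, `|x_i| ≤ 1`.

Proof (`|z| = V.valuation z`, `Valuation` into a linearly ordered group with zero).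
(1) `|D| > 1` is impossible: `|G|^(q+1) = |j| |D| ≤ |D|` gives `|G| < |D|` (if `|G| ≥ |D| > 1` then
`|G|^(q+1) ≥ |D|^(q+1) > |D|`, `q ≥ 1`). By induction `|x_i| ≥ 1` and `|x_{i+1}| > |x_i|`: the term
`D x_i^(q²)` dominates, `|G x_i^q| < |D| |x_i|^(q²)`, `|t x_i| = |x_i| < |D| |x_i|^(q²)`, so
`|x_{i+1}| = |D| |x_i|^(q²) ≥ |D| |x_i| > |x_i|`. Then in `∑ n_i x_i` the last term (coefficient `1`)
has a strictly larger absolute value than all others (coefficients of `k`: absolute value `≤ 1`),
so the sum is not `0`.
(2) `|D| < 1` is impossible: then `|G|^(q+1) = |j| |D| < 1`, so `|G| < 1`, and by induction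
`|x_i| ≤ 1` and `|x_i - t^i| < 1`. So `0 = ∑ n_i x_i` gives `|n(t)| < 1`, but `|n(t)| = 1`.
(3) So `|D| = 1`, `|G|^(q+1) = |j| ≤ 1`, `|G| ≤ 1`, and `|x_i| ≤ 1` by induction.
-/

theorem unit_lemma {k K : Type*} [Field k] [Fintype k] [Field K] [Algebra k K]
    (V : ValuationSubring K) (t j G D : K)
    (hF : ∀ c : k[X], c ≠ 0 → V.valuation (aeval t c) = 1)
    (hj : V.valuation j ≤ 1) (hGD : G ^ (Fintype.card k + 1) = j * D) (hD : D ≠ 0)
    (x : ℕ → K) (hx0 : x 0 = 1)
    (hx : ∀ i, x (i + 1) = t * x i + G * x i ^ Fintype.card k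
      + D * (x i ^ Fintype.card k) ^ Fintype.card k)
    (n : k[X]) (hn : n.Monic) (hn1 : 0 < n.natDegree)
    (h0 : ∑ i ∈ Finset.range (n.natDegree + 1), algebraMap k K (n.coeff i) * x i = 0) :
    V.valuation D = 1 ∧ V.valuation G ≤ 1 ∧ ∀ i, V.valuation (x i) ≤ 1 := by
  classical
  set q := Fintype.card k with hqdef
  have hq2 : 2 ≤ q := Fintype.one_lt_card
  have hqq : 1 ≤ q * q := Nat.one_le_iff_ne_zero.2 (by positivity)
  set v := V.valuation with hv
  have ht : v t = 1 := by
    have := hF X X_ne_zero
    simpa using this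
  have hc : ∀ c : k, v (algebraMap k K c) ≤ 1 := by
    intro c
    by_cases h : c = 0
    · simp [h]
    · have := hF (C c) (C_ne_zero.2 h)
      rw [aeval_C] at this
      exact this.le
  have hvD : v D ≠ 0 := (Valuation.ne_zero_iff v).2 hD
  have hGDv : v G ^ (q + 1) = v j * v D := by
    rw [← map_pow, hGD, map_mul]
  have hpp : ∀ i, (x i ^ q) ^ q = x i ^ (q * q) := fun i => by rw [← pow_mul]
  -- (1)
  have hD1 : v D ≤ 1 := by
    by_contra hlt
    push Not at hlt
    have hGD' : v G < v D := by
      by_contra hge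
      push Not at hge
      have h1 : v D < v D ^ (q + 1) := by
        calc v D = v D ^ 1 := (pow_one _).symm
          _ < v D ^ (q + 1) := pow_lt_pow_right₀ hlt (by omega)
      have h2 : v D ^ (q + 1) ≤ v G ^ (q + 1) := pow_le_pow_left₀ zero_le hge _
      have h3 : v j * v D ≤ v D := by
        calc v j * v D ≤ 1 * v D := mul_le_mul_left hj _
          _ = v D := one_mul _
      exact absurd (h1.trans_le (h2.trans (hGDv.le.trans h3))) (lt_irrefl _)
    have key : ∀ i, 1 ≤ v (x i) → v (x (i + 1)) = v D * v (x i) ^ (q * q) ∧ v (x i) < v (x (i + 1)) := by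
      intro i hi
      have hxi0 : v (x i) ≠ 0 := fun h => by rw [h] at hi; exact absurd hi (not_le.2 zero_lt_one)
      have hA : v (x i) ≤ v (x i) ^ (q * q) := by
        calc v (x i) = v (x i) ^ 1 := (pow_one _).symm
          _ ≤ v (x i) ^ (q * q) := pow_le_pow_right₀ hi hqq
      have hq1 : v (x i) ^ q ≤ v (x i) ^ (q * q) := pow_le_pow_right₀ hi (Nat.le_mul_self q)
      have hpow0 : 0 < v (x i) ^ (q * q) := pow_pos (zero_lt_iff.2 hxi0) _
      have hB : v (x i) < v D * v (x i) ^ (q * q) := by
        calc v (x i) ≤ v (x i) ^ (q * q) := hA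
          _ = 1 * v (x i) ^ (q * q) := (one_mul _).symm
          _ < v D * v (x i) ^ (q * q) := mul_lt_mul_of_pos_right hlt hpow0
      have hC : v G * v (x i) ^ q < v D * v (x i) ^ (q * q) := by
        calc v G * v (x i) ^ q ≤ v G * v (x i) ^ (q * q) := mul_le_mul_right hq1 _
          _ < v D * v (x i) ^ (q * q) := mul_lt_mul_of_pos_right hGD' hpow0
      have hlast : v (D * (x i ^ q) ^ q) = v D * v (x i) ^ (q * q) := by
        rw [hpp, map_mul, map_pow]
      have hfirst : v (t * x i + G * x i ^ q) < v (D * (x i ^ q) ^ q) := by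
        rw [hlast]
        refine Valuation.map_add_lt v ?_ ?_
        · rw [map_mul, ht, one_mul]; exact hB
        · rw [map_mul, map_pow]; exact hC
      have : v (x (i + 1)) = v D * v (x i) ^ (q * q) := by
        rw [hx i, Valuation.map_add_eq_of_lt_right v hfirst, hlast]
      exact ⟨this, this ▸ hB⟩
    have hge1 : ∀ i, 1 ≤ v (x i) := by
      intro i
      induction i with
      | zero => rw [hx0, map_one]
      | succ i ih => exact ih.trans (key i ih).2.le
    have hmono : StrictMono fun i => v (x i) := strictMono_nat_of_lt_succ fun i => (key i (hge1 i)).2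
    rw [Finset.sum_range_succ, hn.coeff_natDegree, map_one, one_mul] at h0
    have hsum : v (∑ i ∈ Finset.range n.natDegree, algebraMap k K (n.coeff i) * x i)
        < v (x n.natDegree) := by
      refine Valuation.map_sum_lt v ?_ ?_
      · intro h
        have := hge1 n.natDegree
        rw [h] at this
        exact absurd this (not_le.2 zero_lt_one)
      · intro i hi
        rw [map_mul]
        calc v (algebraMap k K (n.coeff i)) * v (x i) ≤ 1 * v (x i) := mul_le_mul_left (hc _) _
          _ = v (x i) := one_mul _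
          _ < v (x n.natDegree) := hmono (Finset.mem_range.1 hi)
    have heq : v (∑ i ∈ Finset.range n.natDegree, algebraMap k K (n.coeff i) * x i)
        = v (x n.natDegree) := by
      rw [eq_neg_of_add_eq_zero_left h0, Valuation.map_neg]
    exact absurd heq hsum.ne
  -- (2)
  have hD2 : v D = 1 := by
    by_contra hne
    have hlt : v D < 1 := lt_of_le_of_ne hD1 hne
    have hG1 : v G < 1 := by
      by_contra hge
      push Not at hge
      have h1 : 1 ≤ v G ^ (q + 1) := one_le_pow₀ hge
      have h2 : v j * v D < 1 := by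
        calc v j * v D ≤ 1 * v D := mul_le_mul_left hj _
          _ = v D := one_mul _
          _ < 1 := hlt
      rw [hGDv] at h1
      exact absurd h1 (not_le.2 h2)
    have key : ∀ i, v (x i) ≤ 1 ∧ v (x i - t ^ i) < 1 := by
      intro i
      induction i with
      | zero => simp [hx0]
      | succ i ih =>
        have hsmall : v (x (i + 1) - t ^ (i + 1)) < 1 := by
          have hEq : x (i + 1) - t ^ (i + 1) = (t * (x i - t ^ i) + G * x i ^ q)
              + D * (x i ^ q) ^ q := by rw [hx i]; ring
          rw [hEq]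
          refine Valuation.map_add_lt v (Valuation.map_add_lt v ?_ ?_) ?_
          · rw [map_mul, ht, one_mul]; exact ih.2
          · rw [map_mul, map_pow]
            calc v G * v (x i) ^ q ≤ v G * 1 := mul_le_mul_right (pow_le_one₀ zero_le ih.1) _
              _ = v G := mul_one _
              _ < 1 := hG1
          · rw [hpp, map_mul, map_pow]
            calc v D * v (x i) ^ (q * q) ≤ v D * 1 := mul_le_mul_right (pow_le_one₀ zero_le ih.1) _
              _ = v D := mul_one _
              _ < 1 := hlt
        refine ⟨?_, hsmall⟩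
        have : x (i + 1) = (x (i + 1) - t ^ (i + 1)) + t ^ (i + 1) := by ring
        rw [this]
        refine Valuation.map_add_le v hsmall.le ?_
        rw [map_pow, ht, one_pow]
    have hval := hF n hn.ne_zero
    rw [aeval_eq_sum_range] at hval
    have hrew : ∑ i ∈ Finset.range (n.natDegree + 1), n.coeff i • t ^ i
        = ∑ i ∈ Finset.range (n.natDegree + 1), algebraMap k K (n.coeff i) * (t ^ i - x i) := by
      have : ∑ i ∈ Finset.range (n.natDegree + 1), n.coeff i • t ^ i
          = ∑ i ∈ Finset.range (n.natDegree + 1), (algebraMap k K (n.coeff i) * (t ^ i - x i)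
            + algebraMap k K (n.coeff i) * x i) := by
        refine Finset.sum_congr rfl fun i _ => ?_
        rw [Algebra.smul_def]; ring
      rw [this, Finset.sum_add_distrib, h0, add_zero]
    have hlt1 : v (∑ i ∈ Finset.range (n.natDegree + 1), n.coeff i • t ^ i) < 1 := by
      rw [hrew]
      refine Valuation.map_sum_lt v one_ne_zero ?_
      intro i _
      rw [map_mul]
      calc v (algebraMap k K (n.coeff i)) * v (t ^ i - x i)
          ≤ 1 * v (t ^ i - x i) := mul_le_mul_left (hc _) _
        _ = v (x i - t ^ i) := by rw [one_mul, Valuation.map_sub_swap]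
        _ < 1 := (key i).2
    exact absurd hval hlt1.ne
  -- (3)
  have hG : v G ≤ 1 := by
    by_contra hgt
    push Not at hgt
    have h1 : 1 < v G ^ (q + 1) := one_lt_pow₀ hgt (by omega)
    rw [hGDv, hD2, mul_one] at h1
    exact absurd h1 (not_lt.2 hj)
  refine ⟨hD2, hG, ?_⟩
  intro i
  induction i with
  | zero => rw [hx0, map_one]
  | succ i ih =>
    rw [hx i]
    refine Valuation.map_add_le v (Valuation.map_add_le v ?_ ?_) ?_
    · rw [map_mul, ht, one_mul]; exact ih
    · rw [map_mul, map_pow]
      exact mul_le_one' hG (pow_le_one₀ zero_le ih)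
    · rw [hpp, map_mul, map_pow, hD2, one_mul]
      exact pow_le_one₀ zero_le ih

end Pool.Agent.Helper23.DM
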