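import Pool.Agent.Helper23.DM.Bas
import Pool.Agent.Helper23.DM.Moore
import Pool.Agent.Helper23.DM.UnitL
set_option autoImplicit false
open Polynomial
namespace Pool.Agent.Helper23.DM

/-!
DM-ITG (integrality over `F[j]` and units). `OO k` is the integral closure of `F[j]` in `Ω`;
`VV V`: the valuation subring `V` of `Ω` contains `F` and `j`.

(1) `mem_OO_iff`: Mathlib, `iInf_valuationSubring_superset` (integral closure = intersection of
valuation subrings), or `Subring.exists_le_valuationSubring_of_isIntegrallyClosedIn`. The image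
of `F[X] → Ω`, `X ↦ j`, is contained in `V` iff `VV V`.
(2) `val_unit`: the unit lemma (UnitL.lean) with `t = tt k`, `j = jj k`, `G = GG w`, `D = DD w`,
`x i = ee w (X^i)`; `ee_succ`, `GG_pow`, `DD_ne_zero`, `ee_sum` and `ee_eq_zero` of Bas.lean.
`c(tt k)` is the image of a nonzero element of `F`, which is invertible in `V`.
(3) `val_ee`: `n ∤ a`; by `gen_of_not_dvd`, `w' = φ_a(w)` is a generator for some monic `n'` of
positive degree, so `|DD w'| = 1` and `|DD w| = 1`, and `DD w' = DD w * (ee w a)^(q^2-1)`.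
(4) `val_moore` (`n` of degree 3): the residue field `κ = V/m` is an extension of `k`; the residues
of `1, x, y` (`x = ee w X`, `y = ee w (X^2)`) are linearly independent over `k`: by (3)
`a + b x + c y = ee w (C a + C b * X + C c * X^2)` is a unit of `V` unless `a = b = c = 0` (`n` of
degree 3 does not divide a nonzero polynomial of degree `≤ 2`). So Moore's lemma in `κ` says that
the determinant is not in the maximal ideal.
-/

variable {k : Type} [Field k] [Fintype k]

variable (k) in
/-- the integral closure of `F[j]` in `Ω` -/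
noncomputable def OO : Subring (Om k) := (integralClosure (RatFunc k)[X] (Om k)).toSubring

/-- `V` contains `F` and `j` -/
def VV (V : ValuationSubring (Om k)) : Prop :=
  (∀ c : RatFunc k, algebraMap (RatFunc k) (Om k) c ∈ V) ∧ jj k ∈ V

omit [Fintype k] in
private lemma alg_C38 (c : RatFunc k) :
    algebraMap (RatFunc k)[X] (Om k) (C c) = algebraMap (RatFunc k) (Om k) c := by
  change algebraMap (RatFunc (RatFunc k)) (Om k) (algebraMap (RatFunc k)[X] (RatFunc (RatFunc k)) (C c)) =
    algebraMap (RatFunc (RatFunc k)) (Om k) (algebraMap (RatFunc k) (RatFunc (RatFunc k)) c)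
  rw [RatFunc.algebraMap_C, RatFunc.algebraMap_eq_C]

omit [Fintype k] in
private lemma alg_X38 : algebraMap (RatFunc k)[X] (Om k) X = jj k := by
  change algebraMap (RatFunc (RatFunc k)) (Om k) (algebraMap (RatFunc k)[X] (RatFunc (RatFunc k)) X) = _
  rw [RatFunc.algebraMap_X]
  rfl

private lemma alg_mem38 (V : ValuationSubring (Om k)) (hV : VV V) (p : (RatFunc k)[X]) :
    algebraMap (RatFunc k)[X] (Om k) p ∈ V := by
  induction p using Polynomial.induction_on with
  | C a =>
    rw [alg_C38]
    exact hV.1 a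
  | add p q hp hq =>
    rw [map_add]
    exact V.add_mem _ _ hp hq
  | monomial n a h =>
    rw [pow_succ, ← mul_assoc, map_mul, alg_X38]
    exact V.mul_mem _ _ h hV.2

omit [Fintype k] in
private lemma val_F38 (V : ValuationSubring (Om k)) (hV : VV V) (r : RatFunc k) (hr : r ≠ 0) :
    V.valuation (algebraMap (RatFunc k) (Om k) r) = 1 := by
  have h1 : V.valuation (algebraMap (RatFunc k) (Om k) r) ≤ 1 := (V.valuation_le_one_iff _).2 (hV.1 r)
  have h2 : V.valuation (algebraMap (RatFunc k) (Om k) r⁻¹) ≤ 1 := (V.valuation_le_one_iff _).2 (hV.1 _)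
  have h3 : V.valuation (algebraMap (RatFunc k) (Om k) r) *
      V.valuation (algebraMap (RatFunc k) (Om k) r⁻¹) = 1 := by
    rw [← map_mul, ← map_mul, mul_inv_cancel₀ hr, map_one, map_one]
  refine le_antisymm h1 ?_
  rw [← h3]
  exact mul_le_of_le_one_right' h2

private lemma val_poly38 (V : ValuationSubring (Om k)) (hV : VV V) (c : k[X]) (hc : c ≠ 0) :
    V.valuation (aeval (tt k) c) = 1 := by
  have h1 : aeval (tt k) c = algebraMap (RatFunc k) (Om k) (algebraMap k[X] (RatFunc k) c) := by
    unfold tt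
    rw [aeval_algebraMap_apply, RatFunc.aeval_X_left_eq_algebraMap]
  rw [h1]
  refine val_F38 V hV _ ?_
  rw [Ne, FaithfulSMul.algebraMap_eq_zero_iff]
  exact hc

omit [Fintype k] in
private lemma algk_mem38 (V : ValuationSubring (Om k)) (hV : VV V) (c : k) :
    algebraMap k (Om k) c ∈ V := by
  rw [IsScalarTower.algebraMap_apply k (RatFunc k) (Om k)]
  exact hV.1 _

theorem mem_OO_iff (z : Om k) : z ∈ OO k ↔ ∀ V : ValuationSubring (Om k), VV V → z ∈ V := by
  classical
  constructor
  · intro hz V hV
    have h1 : (algebraMap (RatFunc k)[X] (Om k)).IsIntegralElem z := hz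
    let f : (RatFunc k)[X] →+* V.toSubring :=
      (algebraMap (RatFunc k)[X] (Om k)).codRestrict V.toSubring (alg_mem38 V hV)
    have h2 : (V.toSubring.subtype.comp f).IsIntegralElem z := h1
    have h3 : (V.toSubring.subtype).IsIntegralElem z := h2.of_comp
    have h4 : IsIntegral V z := h3
    obtain ⟨y, hy⟩ := (IsIntegrallyClosed.isIntegral_iff (R := V) (K := Om k)).1 h4
    rw [← hy]
    exact y.2
  · intro hz
    set s : Set (Om k) := Set.range (algebraMap (RatFunc k)[X] (Om k)) with hs
    have h1 : z ∈ (integralClosure (Subring.closure s) (Om k)).toSubring := by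
      rw [← iInf_valuationSubring_superset, Subring.mem_iInf]
      intro V
      refine hz V.1 ⟨fun c => ?_, ?_⟩
      · rw [← alg_C38]
        exact V.2 ⟨C c, rfl⟩
      · rw [← alg_X38]
        exact V.2 ⟨X, rfl⟩
    have h2 : (algebraMap (Subring.closure s) (Om k)).IsIntegralElem z := h1
    obtain ⟨p, hp, hpz⟩ := h2
    let f : (RatFunc k)[X] →+* Subring.closure s :=
      (algebraMap (RatFunc k)[X] (Om k)).codRestrict (Subring.closure s)
        (fun x => Subring.subset_closure ⟨x, rfl⟩)
    have hf : Function.Surjective f := by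
      rintro ⟨x, hx⟩
      have h3 : Subring.closure s = (algebraMap (RatFunc k)[X] (Om k)).range := by
        refine le_antisymm (Subring.closure_le.2 ?_) ?_
        · rintro _ ⟨y, rfl⟩
          exact ⟨y, rfl⟩
        · rintro _ ⟨y, rfl⟩
          exact Subring.subset_closure ⟨y, rfl⟩
      rw [h3] at hx
      obtain ⟨y, hy⟩ := hx
      exact ⟨y, Subtype.ext hy⟩
    have hl : p ∈ Polynomial.lifts f := by
      rw [Polynomial.lifts_iff_coeff_lifts]
      intro i
      exact hf _
    obtain ⟨q, hq1, -, hq2⟩ := Polynomial.lifts_and_natDegree_eq_and_monic hl hp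
    refine ⟨q, hq2, ?_⟩
    rw [← hq1, Polynomial.eval₂_map] at hpz
    exact hpz

theorem val_unit {n : k[X]} {w : Om k} (hn : n.Monic) (hn1 : 0 < n.natDegree) (h : IsGen n w)
    (V : ValuationSubring (Om k)) (hV : VV V) :
    V.valuation (DD w) = 1 ∧ V.valuation (GG w) ≤ 1 ∧ ∀ i, V.valuation (ee w (X ^ i)) ≤ 1 := by
  have hw := gen_ne_zero h hn1
  refine unit_lemma V (tt k) (jj k) (GG w) (DD w) (val_poly38 V hV)
    ((V.valuation_le_one_iff _).2 hV.2) (GG_pow w) (DD_ne_zero hw) (fun i => ee w (X ^ i)) ?_ ?_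
    n hn hn1 ?_
  · simp only [pow_zero]
    exact ee_one hw
  · intro i
    change ee w (X ^ (i + 1)) = _
    rw [pow_succ', ee_succ hw]
  · rw [← ee_sum]
    exact (ee_eq_zero h hw n).2 dvd_rfl

theorem val_ee {n : k[X]} {w : Om k} (hn : n.Monic) (hn1 : 0 < n.natDegree) (h : IsGen n w)
    (a : k[X]) (ha : ¬ n ∣ a) (V : ValuationSubring (Om k)) (hV : VV V) :
    V.valuation (ee w a) = 1 := by
  have hw := gen_ne_zero h hn1
  obtain ⟨n', hn', hn1', h'⟩ := gen_of_not_dvd h hn.ne_zero ha
  have h1 := (val_unit hn hn1 h V hV).1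
  have h2 := (val_unit hn' hn1' h' V hV).1
  have h3 : DD (aeval (phi k) a w) = DD w * ee w a ^ (Fintype.card k ^ 2 - 1) := by
    unfold DD
    rw [← ee_mul_self hw a, mul_pow]
    ring
  rw [h3, map_mul, h1, one_mul, map_pow] at h2
  have hq : 1 < Fintype.card k := Fintype.one_lt_card
  have hq2 : Fintype.card k ^ 2 - 1 ≠ 0 := by
    have : 1 < Fintype.card k ^ 2 := Nat.one_lt_pow (by norm_num) hq
    omega
  exact (pow_eq_one_iff_of_nonneg zero_le hq2).1 h2

theorem val_moore {n : k[X]} {w : Om k} (hn : n.Monic) (hn3 : n.natDegree = 3) (h : IsGen n w)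
    (V : ValuationSubring (Om k)) (hV : VV V) :
    V.valuation (Matrix.det !![1, 1, 1;
      ee w X, ee w X ^ Fintype.card k, (ee w X ^ Fintype.card k) ^ Fintype.card k;
      ee w (X ^ 2), ee w (X ^ 2) ^ Fintype.card k,
        (ee w (X ^ 2) ^ Fintype.card k) ^ Fintype.card k]) = 1 := by
  classical
  have hn1 : 0 < n.natDegree := by omega
  have hw := gen_ne_zero h hn1
  have hmem : ∀ i, ee w (X ^ i) ∈ V := fun i =>
    (V.valuation_le_one_iff _).1 ((val_unit hn hn1 h V hV).2.2 i)
  have hx : ee w X ∈ V := by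
    have := hmem 1
    rwa [pow_one] at this
  have hy : ee w (X ^ 2) ∈ V := hmem 2
  let x : V := ⟨ee w X, hx⟩
  let y : V := ⟨ee w (X ^ 2), hy⟩
  let f : k →+* V := (algebraMap k (Om k)).codRestrict V.toSubring (algk_mem38 V hV)
  have hfc : ∀ c : k, ((f c : V) : Om k) = algebraMap k (Om k) c := fun c => rfl
  let _ : Algebra k (IsLocalRing.ResidueField V) := ((IsLocalRing.residue V).comp f).toAlgebra
  have halg : ∀ c : k, algebraMap k (IsLocalRing.ResidueField V) c = IsLocalRing.residue V (f c) :=
    fun c => rfl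
  have hmoore := moore (k := k) (IsLocalRing.residue V 1) (IsLocalRing.residue V x)
    (IsLocalRing.residue V y) (by
      intro a b c habc
      rw [halg, halg, halg, ← map_mul, ← map_mul, ← map_mul, ← map_add, ← map_add,
        IsLocalRing.residue_eq_zero_iff, V.valuation_lt_one_iff] at habc
      have h1 : (((f a * 1 + f b * x + f c * y : V)) : Om k) = ee w (C a + C b * X + C c * X ^ 2) := by
        have e1 : C a + C b * X + C c * X ^ 2 = a • (1 : k[X]) + b • X + c • X ^ 2 := by
          rw [smul_eq_C_mul, smul_eq_C_mul, smul_eq_C_mul, mul_one]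
        rw [e1, ee_add, ee_add, ee_smul, ee_smul, ee_smul, ee_one hw, Algebra.smul_def,
          Algebra.smul_def, Algebra.smul_def]
        rfl
      rw [h1] at habc
      by_contra hne
      have hnd : ¬ n ∣ (C a + C b * X + C c * X ^ 2) := by
        intro hd
        have h0 : C a + C b * X + C c * X ^ 2 ≠ 0 := by
          intro h0
          apply hne
          have e0 := congrArg (fun p => coeff p 0) h0
          have e1 := congrArg (fun p => coeff p 1) h0
          have e2 := congrArg (fun p => coeff p 2) h0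
          simp [coeff_X, coeff_one, coeff_C] at e0 e1 e2
          exact ⟨e0, e1, e2⟩
        have h2 := natDegree_le_of_dvd hd h0
        have h3 : natDegree (C a + C b * X + C c * X ^ 2) ≤ 2 := by
          compute_degree
        omega
      rw [val_ee hn hn1 h _ hnd V hV] at habc
      exact lt_irrefl _ habc)
  set q := Fintype.card k with hq
  have hmap : (IsLocalRing.residue V) (Matrix.det !![1, 1, 1; x, x ^ q, (x ^ q) ^ q;
      y, y ^ q, (y ^ q) ^ q]) ≠ 0 := by
    have hM : (IsLocalRing.residue V).mapMatrix !![1, 1, 1; x, x ^ q, (x ^ q) ^ q;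
        y, y ^ q, (y ^ q) ^ q] = !![IsLocalRing.residue V 1, IsLocalRing.residue V 1 ^ q,
        (IsLocalRing.residue V 1 ^ q) ^ q; IsLocalRing.residue V x, IsLocalRing.residue V x ^ q,
        (IsLocalRing.residue V x ^ q) ^ q; IsLocalRing.residue V y, IsLocalRing.residue V y ^ q,
        (IsLocalRing.residue V y ^ q) ^ q] := by
      ext i j
      fin_cases i <;> fin_cases j <;> simp
    rw [RingHom.map_det, hM]
    exact hmoore
  rw [IsLocalRing.residue_ne_zero_iff_isUnit, V.valuation_eq_one_iff] at hmap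
  convert hmap using 2
  have h5 : ((Matrix.det !![1, 1, 1; x, x ^ q, (x ^ q) ^ q; y, y ^ q, (y ^ q) ^ q] : V) : Om k) =
      V.subtype (Matrix.det !![1, 1, 1; x, x ^ q, (x ^ q) ^ q; y, y ^ q, (y ^ q) ^ q]) := rfl
  rw [h5, RingHom.map_det]
  congr 1
  ext i j
  fin_cases i <;> fin_cases j <;> simp [x, y]

end Pool.Agent.Helper23.DM
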