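import Pool.Agent.Helper23.DM.Aut
import Pool.Agent.Helper23.DM.Itg
set_option autoImplicit false
open Polynomial
namespace Pool.Agent.Helper23.DM

/-!
DM-HOM (the constant `χ(a)`). `IsU z`: `z` is a unit of the ring `OO k`. Hypothesis `hfr`: every
element of `O ∩ k(x,y)` is a fraction of polynomials whose denominator is a unit. `r` is a
polynomial without prime factors which become units, `d` its total degree, `a` prime to `n`,
`w_a = φ_a(w)`, and `ev w_a r / ev w r` is a unit. Then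
`w'_a^d * ev w'_a r = c • (w'^d * ev w' r)` for all generators `w'` (`w'_a = φ_a(w')`), with a
constant `c ∈ k`, `c ≠ 0`.

Proof. Let `r_a = ∑_m r_m ℓ_a^(d-|m|) ℓ_{Xa}^(m 0) ℓ_{X^2 a}^(m 1)`, `ℓ_b = ll n b`, a polynomial of
total degree `≤ d` (each `ℓ_b` has total degree `≤ 1`). For every generator `w'`:
`ev w' (ll n b) = ee w' b` (`ev_ll`) and `ee w'_a b = ee w' (b * a) / ee w' a` (`ee_comp`), so
`ev w' r_a = (ee w' a)^d * ev w'_a r` (`ee w' a ≠ 0` by `ee_eq_zero`). So for `w' = w`,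
`v = ev w r_a / ev w r = (ee w a)^d * (ev w_a r / ev w r)` is a unit of `OO k` (`val_ee`,
`mem_OO_iff`; `n ∤ a` since `n` has degree 3 and `a` is prime to `n`) which is in `LL w`, so
`v * ev w s = ev w p` with `IsU (ev w s)` (`hfr`). So `s * r_a = p * r` (`ev_inj`), `r ∣ s * r_a`; no
prime divides both `s` and `r` (if a prime `π` divides `s`, `s = π s'`, then `ev w π` is a unit:
`(ev w π)⁻¹ = ev w s' (ev w s)⁻¹`, and `ev w s'` is in `OO k`, since `x, y ∈ OO k`
by `val_unit`), so `r ∣ r_a`, `r_a = r * e`, and `totalDegree e = 0`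
(`MvPolynomial.totalDegree_mul_of_isDomain`), `e = C c`, `c ≠ 0` as `r_a ≠ 0`. Then
`w'_a^d * ev w'_a r = w'^d * (ee w' a)^d * ev w'_a r = w'^d * ev w' r_a = c • (w'^d * ev w' r)`.
-/

variable {k : Type} [Field k] [Fintype k]

/-- `z` is a unit of the ring `OO k` -/
def IsU (z : Om k) : Prop := z ≠ 0 ∧ z ∈ OO k ∧ z⁻¹ ∈ OO k

private theorem isU_of_val32 {z : Om k} (hz : z ≠ 0)
    (h : ∀ V : ValuationSubring (Om k), VV V → V.valuation z = 1) : IsU z := by
  refine ⟨hz, (mem_OO_iff z).2 fun V hV => ?_, (mem_OO_iff _).2 fun V hV => ?_⟩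
  · rw [← V.valuation_le_one_iff, h V hV]
  · rw [← V.valuation_le_one_iff, map_inv₀, h V hV, inv_one]

private theorem isU_mul32 {y z : Om k} (hy : IsU y) (hz : IsU z) : IsU (y * z) := by
  refine ⟨mul_ne_zero hy.1 hz.1, (OO k).mul_mem hy.2.1 hz.2.1, ?_⟩
  rw [mul_inv]
  exact (OO k).mul_mem hy.2.2 hz.2.2

private theorem isU_pow32 {y : Om k} (hy : IsU y) (m : ℕ) : IsU (y ^ m) := by
  refine ⟨pow_ne_zero m hy.1, (OO k).pow_mem hy.2.1 m, ?_⟩
  rw [← inv_pow]
  exact (OO k).pow_mem hy.2.2 m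

private theorem ev_mem32 {n : k[X]} {w : Om k} (h : IsGen n w) (hn : n.Monic)
    (hn1 : 0 < n.natDegree) (p : MvPolynomial (Fin 2) k) : ev w p ∈ OO k := by
  rw [mem_OO_iff]
  intro V hV
  obtain ⟨-, -, h3⟩ := val_unit hn hn1 h V hV
  induction p using MvPolynomial.induction_on with
  | C c =>
    rw [ev_C, IsScalarTower.algebraMap_apply k (RatFunc k) (Om k)]
    exact hV.1 _
  | add p q hp hq =>
    rw [map_add]
    exact V.add_mem _ _ hp hq
  | mul_X p i hp =>
    rw [map_mul]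
    refine V.mul_mem _ _ hp ?_
    fin_cases i
    · show ev w (MvPolynomial.X 0) ∈ V
      rw [ev_X0, ← V.valuation_le_one_iff]
      have := h3 1
      rwa [pow_one] at this
    · show ev w (MvPolynomial.X 1) ∈ V
      rw [ev_X1, ← V.valuation_le_one_iff]
      exact h3 2

private theorem ev_sum32 (w : Om k) (r : MvPolynomial (Fin 2) k) :
    ev w r = ∑ m ∈ r.support, algebraMap k (Om k) (r.coeff m) *
      (ee w X ^ m 0 * ee w (X ^ 2) ^ m 1) := by
  unfold ev
  rw [MvPolynomial.aeval_def, MvPolynomial.eval₂_eq']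
  refine Finset.sum_congr rfl fun m _ => ?_
  rw [Fin.prod_univ_two]
  rfl

/-- homogeneous substitution -/
private noncomputable def ra32 (n a : k[X]) (r : MvPolynomial (Fin 2) k) :
    MvPolynomial (Fin 2) k :=
  ∑ m ∈ r.support, MvPolynomial.C (r.coeff m) *
    (ll n a ^ (r.totalDegree - (m 0 + m 1)) * (ll n (X * a) ^ m 0 * ll n (X ^ 2 * a) ^ m 1))

private theorem deg_le32 {r : MvPolynomial (Fin 2) k} {m : Fin 2 →₀ ℕ} (hm : m ∈ r.support) :
    m 0 + m 1 ≤ r.totalDegree := by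
  have h := MvPolynomial.le_totalDegree hm
  rwa [Finsupp.sum_fintype _ _ (fun _ => rfl), Fin.sum_univ_two] at h

private theorem ev_ra32 {n : k[X]} {w : Om k} (h : IsGen n w) (hn : n.Monic)
    (hn3 : n.natDegree = 3) (r : MvPolynomial (Fin 2) k) (a : k[X]) (he : ee w a ≠ 0) :
    ev w (ra32 n a r) = ee w a ^ r.totalDegree * ev (aeval (phi k) a w) r := by
  unfold ra32
  rw [map_sum, ev_sum32, Finset.mul_sum]
  refine Finset.sum_congr rfl fun m hm => ?_
  have hd := deg_le32 hm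
  simp only [map_mul, map_pow, ev_C, ev_ll h hn hn3, ee_comp]
  have e1 : ee w a ^ r.totalDegree =
      ee w a ^ (r.totalDegree - (m 0 + m 1)) * (ee w a ^ m 0 * ee w a ^ m 1) := by
    rw [← pow_add, ← pow_add]
    congr 1
    omega
  rw [e1, div_pow, div_pow]
  have h0 : ee w a ^ m 0 ≠ 0 := pow_ne_zero _ he
  have h1 : ee w a ^ m 1 ≠ 0 := pow_ne_zero _ he
  field_simp

private theorem ll_deg32 (n a : k[X]) : (ll n a).totalDegree ≤ 1 := by
  unfold ll
  have hC : ∀ c : k, (MvPolynomial.C c : MvPolynomial (Fin 2) k).totalDegree = 0 :=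
    fun c => MvPolynomial.totalDegree_C c
  have hX : ∀ (c : k) (i : Fin 2),
      (MvPolynomial.C c * MvPolynomial.X i : MvPolynomial (Fin 2) k).totalDegree ≤ 1 := by
    intro c i
    refine (MvPolynomial.totalDegree_mul _ _).trans ?_
    rw [hC, MvPolynomial.totalDegree_X]
  refine (MvPolynomial.totalDegree_add _ _).trans (max_le ?_ (hX _ _))
  refine (MvPolynomial.totalDegree_add _ _).trans (max_le ?_ (hX _ _))
  rw [hC]
  exact Nat.zero_le 1

private theorem ra_deg32 (n a : k[X]) (r : MvPolynomial (Fin 2) k) :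
    (ra32 n a r).totalDegree ≤ r.totalDegree := by
  unfold ra32
  refine MvPolynomial.totalDegree_finsetSum_le fun m hm => ?_
  have hd := deg_le32 hm
  have hp : ∀ (b : k[X]) (i : ℕ), (ll n b ^ i).totalDegree ≤ i := by
    intro b i
    refine (MvPolynomial.totalDegree_pow _ _).trans ?_
    calc i * (ll n b).totalDegree ≤ i * 1 := Nat.mul_le_mul_left i (ll_deg32 n b)
      _ = i := mul_one i
  refine (MvPolynomial.totalDegree_mul _ _).trans ?_
  rw [MvPolynomial.totalDegree_C, zero_add]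
  refine (MvPolynomial.totalDegree_mul _ _).trans ?_
  have h1 := hp a (r.totalDegree - (m 0 + m 1))
  have h2 := (MvPolynomial.totalDegree_mul (ll n (X * a) ^ m 0) (ll n (X ^ 2 * a) ^ m 1))
  have h3 := hp (X * a) (m 0)
  have h4 := hp (X ^ 2 * a) (m 1)
  omega

theorem chi_exists {n : k[X]} {w : Om k} (h : IsGen n w) (hn : n.Monic) (hn3 : n.natDegree = 3)
    (hfr : ∀ z, z ∈ OO k → z ∈ LL w → ∃ p s : MvPolynomial (Fin 2) k, IsU (ev w s) ∧
      z * ev w s = ev w p)
    (r : MvPolynomial (Fin 2) k) (hr : r ≠ 0)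
    (hrp : ∀ p : MvPolynomial (Fin 2) k, Prime p → p ∣ r → ¬ IsU (ev w p))
    (a : k[X]) (ha : IsCoprime a n) (hu : IsU (ev (aeval (phi k) a w) r / ev w r)) :
    ∃ c : k, c ≠ 0 ∧ ∀ w' : Om k, IsGen n w' →
      (aeval (phi k) a w') ^ r.totalDegree * ev (aeval (phi k) a w') r
        = c • (w' ^ r.totalDegree * ev w' r) := by
  have hn1 : 0 < n.natDegree := by omega
  have hna : ¬ n ∣ a := by
    intro hd
    have h1 := natDegree_eq_zero_of_isUnit (ha.isUnit_of_dvd' hd dvd_rfl)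
    omega
  have hinj := ev_inj h hn hn3
  have hr0 : ev w r ≠ 0 := by
    rw [Ne, map_eq_zero_iff _ hinj]
    exact hr
  have hne : ∀ w' : Om k, IsGen n w' → ee w' a ≠ 0 := by
    intro w' h'
    rw [Ne, ee_eq_zero h' (gen_ne_zero h' hn1)]
    exact hna
  obtain ⟨ra, hra⟩ : ∃ ra, ra = ra32 n a r := ⟨_, rfl⟩
  have hev : ∀ w' : Om k, IsGen n w' →
      ev w' ra = ee w' a ^ r.totalDegree * ev (aeval (phi k) a w') r := by
    intro w' h'
    rw [hra]
    exact ev_ra32 h' hn hn3 r a (hne w' h')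
  have heU : IsU (ee w a) := isU_of_val32 (hne w h) fun V hV => val_ee hn hn1 h a hna V hV
  have hvU : IsU (ev w ra / ev w r) := by
    rw [hev w h, mul_div_assoc]
    exact isU_mul32 (isU_pow32 heU _) hu
  have hra0 : ra ≠ 0 := by
    intro h0
    apply hvU.1
    rw [h0, map_zero, zero_div]
  obtain ⟨p, s, hs, hps⟩ := hfr _ hvU.2.1 ((mem_LL_iff w _).2 ⟨ra, r, hr0, div_mul_cancel₀ _ hr0⟩)
  have hmul : s * ra = p * r := by
    apply hinj
    rw [map_mul, map_mul, ← hps]
    field_simp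
  have hdvd : r ∣ ra := by
    refine UniqueFactorizationMonoid.dvd_of_dvd_mul_right_of_no_prime_factors (b := s) hr ?_
      ⟨p, by rw [hmul, mul_comm]⟩
    intro π hπr hπs hπ
    refine hrp π hπ hπr ?_
    obtain ⟨s', hs'⟩ := hπs
    have e1 : ev w s = ev w π * ev w s' := by rw [hs', map_mul]
    have hπ0 : ev w π ≠ 0 := by
      intro h0
      apply hs.1
      rw [e1, h0, zero_mul]
    refine ⟨hπ0, ev_mem32 h hn hn1 π, ?_⟩
    have hs0 := hs.1
    have e2 : (ev w π)⁻¹ = ev w s' * (ev w s)⁻¹ := by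
      rw [e1] at hs0 ⊢
      have hs'0 : ev w s' ≠ 0 := right_ne_zero_of_mul hs0
      field_simp
    rw [e2]
    exact (OO k).mul_mem (ev_mem32 h hn hn1 s') hs.2.2
  obtain ⟨e, he⟩ := hdvd
  have he0 : e ≠ 0 := by
    intro h0
    apply hra0
    rw [he, h0, mul_zero]
  have hdeg : e.totalDegree = 0 := by
    have h1 := ra_deg32 n a r
    rw [← hra, he, MvPolynomial.totalDegree_mul_of_isDomain hr he0] at h1
    omega
  rw [MvPolynomial.totalDegree_eq_zero_iff_eq_C] at hdeg
  refine ⟨e.coeff 0, ?_, fun w' h' => ?_⟩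
  · intro h0
    apply he0
    rw [hdeg, h0, map_zero]
  · have e3 := hev w' h'
    rw [he, map_mul, hdeg, ev_C] at e3
    have hw' := gen_ne_zero h' hn1
    rw [← ee_mul_self hw' a, Algebra.smul_def, mul_pow]
    rw [ee_mul_self hw' a]
    calc ee w' a ^ r.totalDegree * w' ^ r.totalDegree * ev (aeval (phi k) a w') r
        = w' ^ r.totalDegree * (ee w' a ^ r.totalDegree * ev (aeval (phi k) a w') r) := by ring
      _ = w' ^ r.totalDegree * (ev w' r * algebraMap k (Om k) (e.coeff 0)) := by rw [← e3]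
      _ = _ := by ring

end Pool.Agent.Helper23.DM
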