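import Pool.Agent.Helper23.DM.BL
set_option autoImplicit false
open Polynomial
open scoped Pointwise
namespace Pool.Agent.Helper23.DM

variable {k : Type} [Field k] [Fintype k]

theorem ev_smul_left (w : Om k) (c : k) (hc : c ≠ 0) (p : MvPolynomial (Fin 2) k) :
    ev (c • w) p = ev w p := by
  unfold ev
  rw [ee_smul_left w c hc, ee_smul_left w c hc]

theorem sig_algk (σ : Om k ≃ₐ[RatFunc (RatFunc k)] Om k) (c : k) :
    σ (algebraMap k (Om k) c) = algebraMap k (Om k) c := by
  rw [IsScalarTower.algebraMap_apply k (RatFunc (RatFunc k)) (Om k), σ.commutes]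

theorem sig_ev (σ : Om k ≃ₐ[RatFunc (RatFunc k)] Om k) (w : Om k)
    (p : MvPolynomial (Fin 2) k) : σ (ev w p) = ev (σ w) p := by
  induction p using MvPolynomial.induction_on with
  | C a => rw [ev_C, ev_C, sig_algk]
  | add p q hp hq => rw [map_add, map_add, map_add, hp, hq]
  | mul_X p i hp =>
    rw [map_mul, map_mul, map_mul, hp]
    congr 1
    fin_cases i
    · show σ (ev w (MvPolynomial.X 0)) = ev (σ w) (MvPolynomial.X 0)
      rw [ev_X0, ev_X0, sig_ee]
    · show σ (ev w (MvPolynomial.X 1)) = ev (σ w) (MvPolynomial.X 1)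
      rw [ev_X1, ev_X1, sig_ee]

theorem smul_cyc (σ : Om k ≃ₐ[RatFunc (RatFunc k)] Om k) (w : Om k) :
    σ • cyc w = cyc (σ w) := by
  ext v
  rw [Set.mem_smul_set]
  constructor
  · rintro ⟨_, ⟨a, rfl⟩, rfl⟩
    exact ⟨a, by rw [AlgEquiv.smul_def, aeval_sig]⟩
  · rintro ⟨a, rfl⟩
    exact ⟨aeval (phi k) a w, ⟨a, rfl⟩, by rw [AlgEquiv.smul_def, aeval_sig]⟩

theorem cyc_eq {n : k[X]} {w : Om k} (h : IsGen n w) (a : k[X]) (ha : IsCoprime a n)
    (c : k) (hc : c ≠ 0) : cyc (c • aeval (phi k) a w) = cyc w := by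
  ext v
  constructor
  · rintro ⟨b, rfl⟩
    refine ⟨c • (b * a), ?_⟩
    simp only [map_smul, aeval_mul_apply', LinearMap.smul_apply]
  · rintro ⟨b, rfl⟩
    obtain ⟨u, v, huv⟩ := ha
    refine ⟨c⁻¹ • (b * u), ?_⟩
    have h1 : aeval (phi k) (v * n) w = 0 := (h _).2 (dvd_mul_left _ _)
    have h2 : w = aeval (phi k) u (aeval (phi k) a w) := by
      have : aeval (phi k) (u * a + v * n) w = w := by
        rw [huv, map_one, Module.End.one_apply]
      rw [map_add, LinearMap.add_apply, h1, add_zero, aeval_mul_apply'] at this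
      exact this.symm
    simp only [map_smul, LinearMap.smul_apply, aeval_mul_apply']
    rw [smul_smul, mul_inv_cancel₀ hc, one_smul, ← h2]

/-- elements of the stabiliser -/
theorem mem_stab_iff {n : k[X]} {w : Om k} (h : IsGen n w) (hn0 : n ≠ 0)
    (σ : Om k ≃ₐ[RatFunc (RatFunc k)] Om k) :
    σ ∈ MulAction.stabilizer (Om k ≃ₐ[RatFunc (RatFunc k)] Om k) (cyc w) ↔
      ∃ a : k[X], IsCoprime a n ∧ σ w = aeval (phi k) a w := by
  rw [MulAction.mem_stabilizer_iff, smul_cyc]
  constructor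
  · intro h1
    have h2 : σ w ∈ cyc w := by
      rw [← h1]
      exact ⟨1, by simp only [map_one, Module.End.one_apply]⟩
    obtain ⟨a, ha⟩ := h2
    refine ⟨a, ?_, ha.symm⟩
    apply coprime_of_gen h hn0
    show IsGen n ((fun a => aeval (phi k) a w) a)
    rw [ha]
    exact gen_sig h σ
  · rintro ⟨a, ha, hs⟩
    rw [hs]
    have := cyc_eq h a ha 1 one_ne_zero
    rwa [one_smul] at this

section
variable {n : k[X]} {w : Om k} (h : IsGen n w) (hn : n.Monic) (hn3 : n.natDegree = 3)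
include h hn hn3

theorem ev_ne_zero (r : MvPolynomial (Fin 2) k) (hr : r ≠ 0) : ev w r ≠ 0 := by
  rw [Ne, map_eq_zero_iff _ (ev_inj h hn hn3)]
  exact hr

/-- remove the prime factors which are units -/
theorem exists_good (p : MvPolynomial (Fin 2) k) (hp : p ≠ 0) :
    ∃ u r : MvPolynomial (Fin 2) k, p = u * r ∧ IsU (ev w u) ∧ r ≠ 0 ∧
      ∀ π : MvPolynomial (Fin 2) k, Prime π → π ∣ r → ¬ IsU (ev w π) := by
  induction p using UniqueFactorizationMonoid.induction_on_prime with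
  | h₁ => exact absurd rfl hp
  | h₂ x hx =>
    refine ⟨x, 1, (mul_one x).symm, ?_, one_ne_zero, fun π hπ h1 =>
      absurd (isUnit_of_dvd_one h1) hπ.not_isUnit⟩
    exact U_div h hn hn3 1 x (by rw [map_one]; exact isU_one) hx.dvd
  | h₃ a π ha0 hπ ih =>
    obtain ⟨u, r, har, hu, hr, hrp⟩ := ih ha0
    by_cases hU : IsU (ev w π)
    · refine ⟨π * u, r, by rw [har]; ring, ?_, hr, hrp⟩
      rw [map_mul]
      exact hU.mul hu
    · refine ⟨u, π * r, by rw [har]; ring, hu, mul_ne_zero hπ.ne_zero hr, ?_⟩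
      intro τ hτ hτr hτU
      rcases hτ.dvd_or_dvd hτr with h1 | h1
      · apply hU
        have h2 : Associated τ π := hτ.associated_of_dvd hπ h1
        exact U_div h hn hn3 τ π hτU h2.dvd'
      · exact hrp τ hτ h1 hτU

end

/-- the homogeneous form attached to `r` -/
noncomputable def Ph (r : MvPolynomial (Fin 2) k) (w : Om k) : Om k :=
  w ^ r.totalDegree * ev w r

theorem Ph_smul (r : MvPolynomial (Fin 2) k) (w : Om k) (c : k) (hc : c ≠ 0) :
    Ph r (c • w) = c ^ r.totalDegree • Ph r w := by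
  unfold Ph
  rw [ev_smul_left w c hc, _root_.smul_pow, smul_mul_assoc]

end Pool.Agent.Helper23.DM
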