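import Pool.Agent.Helper23.DM.Inv
import Pool.Agent.Helper23.DM.Chr
set_option autoImplicit false
open Polynomial
open scoped Pointwise
namespace Pool.Agent.Helper23.DM

variable {k : Type} [Field k] [Fintype k]

/-- the core: a form with unit ratios is, up to a unit, invariant -/
theorem core {a₁ a₂ a₃ : k} {n : k[X]} (hn : n = (X - C a₁) * (X - C a₂) * (X - C a₃))
    {w : Om k} (h : IsGen n w) (r : MvPolynomial (Fin 2) k) (hr : r ≠ 0)
    (hrp : ∀ p : MvPolynomial (Fin 2) k, Prime p → p ∣ r → ¬ IsU (ev w p))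
    (hst : ∀ σ ∈ MulAction.stabilizer (Om k ≃ₐ[RatFunc (RatFunc k)] Om k) (cyc w),
      IsU (σ (ev w r) / ev w r)) :
    ∃ u : Om k, IsU u ∧ u ∈ LL w ∧ u * ev w r ∈ K0 w := by
  classical
  have hnm : n.Monic := by
    rw [hn]
    exact ((monic_X_sub_C _).mul (monic_X_sub_C _)).mul (monic_X_sub_C _)
  have hn3 : n.natDegree = 3 := by
    rw [hn, natDegree_mul (mul_ne_zero (X_sub_C_ne_zero _) (X_sub_C_ne_zero _))
      (X_sub_C_ne_zero _), natDegree_mul (X_sub_C_ne_zero _) (X_sub_C_ne_zero _),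
      natDegree_X_sub_C, natDegree_X_sub_C, natDegree_X_sub_C]
  have hw : w ≠ 0 := gen_ne_zero h (by omega)
  have hn0 : n ≠ 0 := hnm.ne_zero
  have key : ∀ a : k[X], IsCoprime a n → ∃ c : k, c ≠ 0 ∧ ∀ w' : Om k, IsGen n w' →
      Ph r (aeval (phi k) a w') = c • Ph r w' := by
    intro a ha
    obtain ⟨σ, c, hc, hσ⟩ := exists_sig h (gen_coprime h ha) hnm hn3
    apply chi_exists h hnm hn3 (BL_frac h hnm hn3) r hr hrp a ha
    have h1 := hst σ (by
      rw [MulAction.mem_stabilizer_iff, smul_cyc, hσ]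
      exact cyc_eq h a ha c hc)
    rwa [sig_ev, hσ, ev_smul_left _ c hc] at h1
  choose! χ hχ0 hχ using key
  have hP0 : Ph r w ≠ 0 := mul_ne_zero (pow_ne_zero _ hw) (ev_ne_zero h hnm hn3 r hr)
  have hcan : ∀ c d : k, c • Ph r w = d • Ph r w → c = d := fun c d hcd =>
    smul_left_injective k hP0 hcd
  obtain ⟨i, hid, hi⟩ := chr a₁ a₂ a₃ n hn χ (by
      intro a b ha hb
      apply hcan
      have hab : IsCoprime (a * b) n := IsCoprime.mul_left ha hb
      rw [← hχ _ hab w h, aeval_mul_apply', hχ a ha _ (gen_coprime h hb), hχ b hb w h,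
        smul_smul])
    hχ0 (by
      intro a b ha hab
      apply hcan
      have hb : IsCoprime b n := by
        obtain ⟨e, he⟩ := hab
        have : b = a + (-e) * n := by linear_combination -he
        rw [this]
        exact IsCoprime.add_mul_right_left ha _
      rw [← hχ a ha w h, ← hχ b hb w h]
      congr 1
      rw [← sub_eq_zero, ← LinearMap.sub_apply, ← map_sub, h]
      exact hab) r.totalDegree (by
      intro c hc
      apply hcan
      have hcc : IsCoprime (C c) n := ⟨C c⁻¹, 0, by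
        rw [← C_mul, inv_mul_cancel₀ hc, zero_mul, add_zero, C_1]⟩
      rw [← hχ _ hcc w h, aeval_C, Module.algebraMap_end_apply, Ph_smul r w c hc])
  have hdiv : ∀ α ∈ ({a₁, a₂, a₃} : Finset k), ∃ m : k[X], n = m * (X - C α) := by
    intro α hα
    rw [Finset.mem_insert, Finset.mem_insert, Finset.mem_singleton] at hα
    rcases hα with rfl | rfl | rfl
    · exact ⟨(X - C a₂) * (X - C a₃), by rw [hn]; ring⟩
    · exact ⟨(X - C a₁) * (X - C a₃), by rw [hn]; ring⟩
    · exact ⟨(X - C a₁) * (X - C a₂), by rw [hn]⟩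
  choose! m hm using hdiv
  have hmn : ∀ α ∈ ({a₁, a₂, a₃} : Finset k), ¬ n ∣ m α := by
    intro α hα h1
    have hm0 : m α ≠ 0 := by
      intro h0
      exact hn0 (by rw [hm α hα, h0, zero_mul])
    have h2 := natDegree_le_of_dvd h1 hm0
    have h3 : n.natDegree = (m α).natDegree + 1 := by
      conv_lhs => rw [hm α hα]
      rw [natDegree_mul hm0 (X_sub_C_ne_zero _), natDegree_X_sub_C]
    omega
  have hU : IsU (∏ α ∈ ({a₁, a₂, a₃} : Finset k), ee w (m α) ^ i α) := by
    apply Finset.prod_induction _ IsU (fun _ _ => IsU.mul) isU_one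
    intro α hα
    exact (ee_isU h hnm hn3 _ (hmn α hα)).zpow _
  have hee : ∀ b : k[X], ee w b ∈ LL w := fun b => by
    rw [← ev_ll h hnm hn3]
    exact ev_mem_LL h hnm hn3 _
  refine ⟨(∏ α ∈ ({a₁, a₂, a₃} : Finset k), ee w (m α) ^ i α)⁻¹, hU.inv, ?_, ?_⟩
  · apply (LL w).inv_mem
    apply Subfield.prod_mem
    intro α hα
    exact (LL w).zpow_mem (hee _) _
  · unfold K0
    rw [IntermediateField.mem_fixedField_iff]
    intro σ hσ
    obtain ⟨a, ha, hσa⟩ := (mem_stab_iff h hn0 σ).1 hσ
    have hv : aeval (phi k) a w ≠ 0 := gen_ne_zero (gen_coprime h ha) (by omega)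
    have h1 := hχ a ha w h
    unfold Ph at h1
    rw [map_mul, map_inv₀, map_prod, sig_ev, hσa]
    set v := aeval (phi k) a w with hvdef
    have h2 : ∀ α ∈ ({a₁, a₂, a₃} : Finset k), σ (ee w (m α) ^ i α)
        = algebraMap k (Om k) ((a.eval α) ^ i α) * ee w (m α) ^ i α * (w / v) ^ i α := by
      intro α hα
      rw [map_zpow₀, sig_ee, hσa, map_zpow₀, ← mul_zpow, ← mul_zpow]
      congr 1
      have h3 : aeval (phi k) (m α) v = a.eval α • aeval (phi k) (m α) w := by
        have h4 : n ∣ m α * a - C (a.eval α) * m α := by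
          obtain ⟨e, he⟩ : X - C α ∣ a - C (a.eval α) := X_sub_C_dvd_sub_C_eval
          refine ⟨e, ?_⟩
          rw [hm α hα]
          linear_combination (m α) * he
        have h5 : aeval (phi k) (m α * a - C (a.eval α) * m α) w = 0 := (h _).2 h4
        rw [map_sub, LinearMap.sub_apply, sub_eq_zero, aeval_mul_apply', aeval_mul_apply',
          aeval_C, Module.algebraMap_end_apply] at h5
        exact h5
      unfold ee
      rw [h3, Algebra.smul_def]
      field_simp
    rw [Finset.prod_congr rfl h2, Finset.prod_mul_distrib, Finset.prod_mul_distrib,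
      ← map_prod, ← hi a ha]
    have h6 : ∏ α ∈ ({a₁, a₂, a₃} : Finset k), (w / v) ^ i α = (w / v) ^ r.totalDegree := by
      have hwv : w / v ≠ 0 := div_ne_zero hw hv
      have : ∀ S : Finset k, ∏ α ∈ S, (w / v) ^ i α = (w / v) ^ (∑ α ∈ S, i α) := by
        intro S
        induction S using Finset.induction_on with
        | empty => simp
        | insert x S hx ih => rw [Finset.prod_insert hx, Finset.sum_insert hx, ih, zpow_add₀ hwv]
      rw [this, hid, zpow_natCast]
    rw [h6]
    have hχa : algebraMap k (Om k) (χ a) ≠ 0 := by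
      rw [Ne, map_eq_zero]
      exact hχ0 a ha
    have hU0 := hU.1
    rw [Algebra.smul_def] at h1
    generalize (∏ α ∈ ({a₁, a₂, a₃} : Finset k), ee w (m α) ^ i α) = U at hU0 ⊢
    generalize algebraMap k (Om k) (χ a) = c at hχa h1 ⊢
    rw [div_pow]
    have hwd : w ^ r.totalDegree ≠ 0 := pow_ne_zero _ hw
    have hvd : v ^ r.totalDegree ≠ 0 := pow_ne_zero _ hv
    field_simp
    linear_combination h1

end Pool.Agent.Helper23.DM
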